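import Mathlib

/-!
# The bound `lcm (1, ..., N) ≤ C * 3.5 ^ N`
-/

set_option autoImplicit false

namespace Pool.Agent.Work.MP_a11cf9_nt

namespace LcmAux

/-- The multinomial coefficient `(6 r)! / ((3 r)! (2 r)! r!)`. -/
def A (r : ℕ) : ℕ := (6 * r).choose (3 * r) * (3 * r).choose (2 * r)

theorem A_pos (r : ℕ) : 0 < A r :=
  Nat.mul_pos (Nat.choose_pos (by omega)) (Nat.choose_pos (by omega))

theorem A_mul (r : ℕ) :
    A r * ((3 * r).factorial * ((2 * r).factorial * r.factorial)) = (6 * r).factorial := by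
  have h1 := Nat.choose_mul_factorial_mul_factorial (n := 6 * r) (k := 3 * r) (by omega)
  have h2 := Nat.choose_mul_factorial_mul_factorial (n := 3 * r) (k := 2 * r) (by omega)
  have e1 : 6 * r - 3 * r = 3 * r := by omega
  have e2 : 3 * r - 2 * r = r := by omega
  rw [e1] at h1
  rw [e2] at h2
  unfold A
  calc (6 * r).choose (3 * r) * (3 * r).choose (2 * r) *
        ((3 * r).factorial * ((2 * r).factorial * r.factorial))
      = (6 * r).choose (3 * r) * (3 * r).factorial *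
        ((3 * r).choose (2 * r) * (2 * r).factorial * r.factorial) := by ring
    _ = _ := by rw [h2, h1]

theorem A_le (r : ℕ) : A r ≤ 432 ^ r := by
  have h1 : (6 * r).choose (3 * r) ≤ 2 ^ (6 * r) := Nat.choose_le_two_pow _ _
  have h2 : 2 ^ (2 * r) * (3 * r).choose (2 * r) ≤ 3 ^ (3 * r) := by
    have h3 : (3 : ℕ) ^ (3 * r) = (2 + 1) ^ (3 * r) := rfl
    rw [h3, add_pow]
    refine le_trans (le_of_eq ?_) (Finset.single_le_sum (f := fun m =>
      2 ^ m * 1 ^ (3 * r - m) * (3 * r).choose m) (fun _ _ => Nat.zero_le _)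
      (Finset.mem_range.2 (by omega : 2 * r < 3 * r + 1)))
    simp
  have h4 : 2 ^ (2 * r) * A r ≤ 2 ^ (2 * r) * 432 ^ r := by
    calc 2 ^ (2 * r) * A r = (6 * r).choose (3 * r) * (2 ^ (2 * r) * (3 * r).choose (2 * r)) := by
          unfold A
          ring
      _ ≤ 2 ^ (6 * r) * 3 ^ (3 * r) := Nat.mul_le_mul h1 h2
      _ = (2 ^ 6 * 3 ^ 3) ^ r := by rw [mul_pow, ← pow_mul, ← pow_mul]
      _ = (2 ^ 2 * 432) ^ r := by norm_num
      _ = 2 ^ (2 * r) * 432 ^ r := by rw [mul_pow, ← pow_mul]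
  exact Nat.le_of_mul_le_mul_left h4 (by positivity)

theorem term_le {r q : ℕ} (hq : 0 < q) (h6 : q ≤ 6 * r) (h : r < q) :
    3 * r / q + (2 * r / q + r / q) + 1 ≤ 6 * r / q := by
  have h0 : r / q = 0 := Nat.div_eq_of_lt h
  have ha : 3 * r / q ≤ 2 := by
    have : 3 * r / q < 3 := (Nat.div_lt_iff_lt_mul hq).2 (by omega)
    omega
  have hc : 2 * r / q ≤ 1 := by
    have : 2 * r / q < 2 := (Nat.div_lt_iff_lt_mul hq).2 (by omega)
    omega
  have ha1 : 3 * r / q * q ≤ 3 * r := Nat.div_mul_le_self _ _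
  have hc1 : 2 * r / q * q ≤ 2 * r := Nat.div_mul_le_self _ _
  have ha2 : 3 * r < q * (3 * r / q + 1) := Nat.lt_mul_div_succ _ hq
  have hc2 : 2 * r < q * (2 * r / q + 1) := Nat.lt_mul_div_succ _ hq
  rw [h0, Nat.le_div_iff_mul_le hq]
  generalize 3 * r / q = a at *
  generalize 2 * r / q = c at *
  interval_cases a <;> interval_cases c <;> omega

theorem term_le' (r q : ℕ) : 3 * r / q + (2 * r / q + r / q) ≤ 6 * r / q := by
  have h1 : 2 * r / q + r / q ≤ (2 * r + r) / q := Nat.div_add_div_le_add_div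
  have h2 : 3 * r / q + (2 * r + r) / q ≤ (3 * r + (2 * r + r)) / q :=
    Nat.div_add_div_le_add_div
  have e : 3 * r + (2 * r + r) = 6 * r := by ring
  rw [e] at h2
  omega

theorem lcm_dvd (r : ℕ) : Nat.lcmUpto (6 * r) ∣ Nat.lcmUpto r * A r := by
  rcases Nat.eq_zero_or_pos r with rfl | hr
  · simp [Nat.lcmUpto]
  rw [← Nat.factorization_prime_le_iff_dvd (Nat.lcmUpto_ne_zero _)
    (mul_ne_zero (Nat.lcmUpto_ne_zero _) (A_pos r).ne')]
  intro p hp
  rw [Nat.factorization_mul (Nat.lcmUpto_ne_zero _) (A_pos r).ne', Finsupp.add_apply,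
    Nat.factorization_lcmUpto _ hp, Nat.factorization_lcmUpto _ hp]
  set b := Nat.log p (6 * r) + 1 with hb
  have l6 : Nat.log p (6 * r) < b := Nat.lt_succ_self _
  have l3 : Nat.log p (3 * r) < b := (Nat.log_mono_right (by omega)).trans_lt l6
  have l2 : Nat.log p (2 * r) < b := (Nat.log_mono_right (by omega)).trans_lt l6
  have l1 : Nat.log p r < b := (Nat.log_mono_right (by omega)).trans_lt l6
  have hf := congrArg (fun m => Nat.factorization m p) (A_mul r)
  rw [Nat.factorization_mul (A_pos r).ne' (by positivity),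
    Nat.factorization_mul (by positivity) (by positivity),
    Nat.factorization_mul (by positivity) (by positivity), Finsupp.add_apply, Finsupp.add_apply,
    Finsupp.add_apply, Nat.factorization_factorial hp l6, Nat.factorization_factorial hp l3,
    Nat.factorization_factorial hp l2, Nat.factorization_factorial hp l1,
    ← Finset.sum_add_distrib, ← Finset.sum_add_distrib] at hf
  have hs : ∑ i ∈ Finset.Ico 1 b, (3 * r / p ^ i + (2 * r / p ^ i + r / p ^ i) +
      if Nat.log p r < i then 1 else 0) ≤ ∑ i ∈ Finset.Ico 1 b, 6 * r / p ^ i := by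
    refine Finset.sum_le_sum fun i hi => ?_
    rw [Finset.mem_Ico] at hi
    have hq : 0 < p ^ i := pow_pos hp.pos i
    split_ifs with h
    · refine term_le hq ?_ (Nat.lt_pow_of_log_lt hp.one_lt h)
      exact Nat.pow_le_of_le_log (by omega) (by omega)
    · exact term_le' r _
  rw [Finset.sum_add_distrib] at hs
  have hc : ∑ i ∈ Finset.Ico 1 b, (if Nat.log p r < i then 1 else 0) =
      Nat.log p (6 * r) - Nat.log p r := by
    rw [Finset.sum_ite, Finset.sum_const_zero, add_zero, Finset.sum_const, smul_eq_mul, mul_one]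
    have e : (Finset.Ico 1 b).filter (fun i => Nat.log p r < i) =
        Finset.Ico (Nat.log p r + 1) b := by
      ext i
      simp only [Finset.mem_filter, Finset.mem_Ico]
      omega
    rw [e, Nat.card_Ico, hb]
    omega
  rw [hc] at hs
  omega

theorem lcm_mono {M N : ℕ} (h : M ≤ N) : Nat.lcmUpto M ≤ Nat.lcmUpto N :=
  Nat.le_of_dvd (Nat.lcmUpto_pos N) (Finset.lcm_mono (Finset.Icc_subset_Icc_right h))

theorem pow_le {N : ℕ} (hN : 200 ≤ N) : (1512 : ℝ) ^ (N + 5) ≤ 3.5 ^ (6 * N) := by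
  obtain ⟨k, rfl⟩ := Nat.exists_eq_add_of_le hN
  have h1 : (1512 : ℝ) ^ 205 ≤ (3.5 ^ 6) ^ 200 := by norm_num
  have h2 : (1512 : ℝ) ^ k ≤ (3.5 ^ 6) ^ k := pow_le_pow_left₀ (by norm_num) (by norm_num) k
  calc (1512 : ℝ) ^ (200 + k + 5) = 1512 ^ 205 * 1512 ^ k := by rw [← pow_add]; congr 1; omega
    _ ≤ (3.5 ^ 6) ^ 200 * (3.5 ^ 6) ^ k := mul_le_mul h1 h2 (by positivity) (by positivity)
    _ = 3.5 ^ (6 * (200 + k)) := by rw [← pow_add, ← pow_mul]

theorem pow_le' {N r : ℕ} (hN : 200 ≤ N) (hr : 6 * r ≤ N + 5) : (1512 : ℝ) ^ r ≤ 3.5 ^ N := by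
  refine (pow_le_pow_iff_left₀ (by positivity) (by positivity) (by norm_num : 6 ≠ 0)).1 ?_
  rw [← pow_mul, ← pow_mul]
  calc (1512 : ℝ) ^ (r * 6) ≤ 1512 ^ (N + 5) := pow_le_pow_right₀ (by norm_num) (by omega)
    _ ≤ 3.5 ^ (6 * N) := pow_le hN
    _ = 3.5 ^ (N * 6) := by rw [mul_comm]

end LcmAux

open LcmAux in
theorem exists_lcm_bound : ∃ C : ℝ, 0 < C ∧ ∀ N : ℕ, (Nat.lcmUpto N : ℝ) ≤ C * 3.5 ^ N := by
  refine ⟨Nat.lcmUpto 200, by exact_mod_cast Nat.lcmUpto_pos 200, fun N => ?_⟩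
  induction N using Nat.strong_induction_on with
  | _ N ih =>
    rcases Nat.lt_or_ge N 200 with h | h
    · have h1 : (Nat.lcmUpto N : ℝ) ≤ Nat.lcmUpto 200 := by exact_mod_cast lcm_mono h.le
      have h2 : (1 : ℝ) ≤ 3.5 ^ N := one_le_pow₀ (by norm_num)
      exact h1.trans (le_mul_of_one_le_right (Nat.cast_nonneg _) h2)
    · obtain ⟨r, hr1, hr2⟩ : ∃ r, N ≤ 6 * r ∧ 6 * r ≤ N + 5 := ⟨(N + 5) / 6, by omega, by omega⟩
      have h1 : Nat.lcmUpto N ≤ Nat.lcmUpto r * 432 ^ r :=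
        (lcm_mono hr1).trans ((Nat.le_of_dvd (Nat.mul_pos (Nat.lcmUpto_pos _) (A_pos r))
          (lcm_dvd r)).trans (Nat.mul_le_mul_left _ (A_le r)))
      have h2 : (Nat.lcmUpto N : ℝ) ≤ Nat.lcmUpto r * 432 ^ r := by exact_mod_cast h1
      calc (Nat.lcmUpto N : ℝ) ≤ Nat.lcmUpto r * 432 ^ r := h2
        _ ≤ (Nat.lcmUpto 200 * 3.5 ^ r) * 432 ^ r := by
            gcongr
            exact ih r (by omega)
        _ = Nat.lcmUpto 200 * 1512 ^ r := by
            have e : (3.5 : ℝ) * 432 = 1512 := by norm_num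
            rw [mul_assoc, ← mul_pow, e]
        _ ≤ Nat.lcmUpto 200 * 3.5 ^ N := by
            gcongr
            exact pow_le' h hr2

end Pool.Agent.Work.MP_a11cf9_nt
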