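import Pool.Agent.Work.MP_a11cf9_nt.Pade
import Pool.Agent.Work.MP_a11cf9_nt.Lcm

/-!
# An effective lower bound for `|k log 2 - a log 3|`
-/

set_option autoImplicit false

namespace Pool.Agent.Work.MP_a11cf9_nt.Pade

open Polynomial

/-- The function whose powers are integrated. -/
noncomputable def fn (x : ℝ) : ℝ := (x - 6) ^ 6 * (x - 8) ^ 4 * (9 - x) ^ 3 / x ^ 6

theorem fn_nonneg {x : ℝ} (h6 : 6 ≤ x) (h9 : x ≤ 9) : 0 ≤ fn x := by
  unfold fn
  have h1 : 0 ≤ (9 - x) ^ 3 := pow_nonneg (by linarith) 3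
  have h2 : 0 ≤ (x - 8) ^ 4 := by positivity
  have h3 : 0 ≤ (x - 6) ^ 6 := by positivity
  positivity

theorem exp_bound : Real.exp (5 / 14) ≤ 1.4302 := by
  have h := Real.exp_bound' (x := 5 / 14) (by norm_num) (by norm_num) (n := 5) (by norm_num)
  refine le_trans h ?_
  norm_num [Finset.sum_range_succ, Nat.factorial]

/-- Upper bound on `[6, 8]`. -/
theorem fn_le_left {x : ℝ} (h6 : 6 ≤ x) (h8 : x ≤ 8) : fn x ≤ 1 / 10000 := by
  set t : ℝ := x - 6 with ht
  have hx : x = 6 + t := by rw [ht]; ring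
  have ht0 : 0 ≤ t := by rw [ht]; linarith
  have ht2 : t ≤ 2 := by rw [ht]; linarith
  have h6t : 0 < 6 + t := by linarith
  have hf : fn x = (t / (6 + t)) ^ 6 * (2 - t) ^ 4 * (3 - t) ^ 3 := by
    unfold fn
    rw [hx, div_pow]
    have : (6 + t - 8) ^ 4 = (2 - t) ^ 4 := by ring
    rw [this, show 6 + t - 6 = t by ring, show 9 - (6 + t) = 3 - t by ring]
    ring
  have h1 : t / (6 + t) ≤ 1 / 7 * Real.exp (6 / 7 * (t - 1)) := by
    have h2 := Real.add_one_le_exp (6 / 7 * (t - 1))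
    have h3 : t / (6 + t) ≤ 1 / 7 * (6 / 7 * (t - 1) + 1) := by
      rw [div_le_iff₀ h6t]
      nlinarith [sq_nonneg (t - 1)]
    linarith
  have h2 : 2 - t ≤ Real.exp (-(t - 1)) := by
    have := Real.add_one_le_exp (-(t - 1))
    linarith
  have h3 : 3 - t ≤ 2 * Real.exp (-(t - 1) / 2) := by
    have := Real.add_one_le_exp (-(t - 1) / 2)
    linarith
  have h1' : (t / (6 + t)) ^ 6 ≤ (1 / 7 * Real.exp (6 / 7 * (t - 1))) ^ 6 :=
    pow_le_pow_left₀ (by positivity) h1 6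
  have h2' : (2 - t) ^ 4 ≤ (Real.exp (-(t - 1))) ^ 4 := pow_le_pow_left₀ (by linarith) h2 4
  have h3' : (3 - t) ^ 3 ≤ (2 * Real.exp (-(t - 1) / 2)) ^ 3 :=
    pow_le_pow_left₀ (by linarith) h3 3
  rw [hf]
  calc (t / (6 + t)) ^ 6 * (2 - t) ^ 4 * (3 - t) ^ 3
      ≤ (1 / 7 * Real.exp (6 / 7 * (t - 1))) ^ 6 * (Real.exp (-(t - 1))) ^ 4 *
          (2 * Real.exp (-(t - 1) / 2)) ^ 3 := by
        refine mul_le_mul (mul_le_mul h1' h2' (by positivity) (by positivity)) h3'
          (pow_nonneg (by linarith) 3) (by positivity)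
    _ = 8 / 7 ^ 6 * Real.exp (-(5 / 14) * (t - 1)) := by
        rw [mul_pow, mul_pow, ← Real.exp_nat_mul, ← Real.exp_nat_mul, ← Real.exp_nat_mul]
        have : ∀ a b c : ℝ, (1 / 7 : ℝ) ^ 6 * Real.exp a * Real.exp b * (2 ^ 3 * Real.exp c) =
            8 / 7 ^ 6 * Real.exp (a + b + c) := by
          intro a b c
          rw [Real.exp_add, Real.exp_add]
          ring
        rw [this]
        congr 2
        push_cast
        ring
    _ ≤ 8 / 7 ^ 6 * Real.exp (5 / 14) := by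
        refine mul_le_mul_of_nonneg_left (Real.exp_le_exp.2 ?_) (by positivity)
        linarith
    _ ≤ 8 / 7 ^ 6 * 1.4302 := mul_le_mul_of_nonneg_left exp_bound (by positivity)
    _ ≤ 1 / 10000 := by norm_num

/-- Upper bound on `[8, 9]`. -/
theorem fn_le_right {x : ℝ} (h8 : 8 ≤ x) (h9 : x ≤ 9) : fn x ≤ 12 / 1000000 := by
  have hx : 0 < x := by linarith
  have hf : fn x = ((x - 6) / x) ^ 6 * ((x - 8) ^ 4 * (9 - x) ^ 3) := by
    unfold fn
    rw [div_pow]
    ring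
  have h1 : (x - 6) / x ≤ 1 / 3 := by
    rw [div_le_iff₀ hx]
    linarith
  have h1' : ((x - 6) / x) ^ 6 ≤ (1 / 3) ^ 6 :=
    pow_le_pow_left₀ (div_nonneg (by linarith) hx.le) h1 6
  set u : ℝ := x - 8 with hu
  have hu0 : 0 ≤ u := by rw [hu]; linarith
  have hu1 : u ≤ 1 := by rw [hu]; linarith
  have h9u : 9 - x = 1 - u := by rw [hu]; ring
  have h2 : u ≤ 4 / 7 * Real.exp (7 / 4 * (u - 4 / 7)) := by
    have := Real.add_one_le_exp (7 / 4 * (u - 4 / 7))
    linarith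
  have h3 : 1 - u ≤ 3 / 7 * Real.exp (-(7 / 3) * (u - 4 / 7)) := by
    have := Real.add_one_le_exp (-(7 / 3) * (u - 4 / 7))
    linarith
  have h2' : u ^ 4 ≤ (4 / 7 * Real.exp (7 / 4 * (u - 4 / 7))) ^ 4 :=
    pow_le_pow_left₀ hu0 h2 4
  have h3' : (1 - u) ^ 3 ≤ (3 / 7 * Real.exp (-(7 / 3) * (u - 4 / 7))) ^ 3 :=
    pow_le_pow_left₀ (by linarith) h3 3
  have h4 : u ^ 4 * (1 - u) ^ 3 ≤ (4 / 7) ^ 4 * (3 / 7) ^ 3 := by
    calc u ^ 4 * (1 - u) ^ 3 ≤ (4 / 7 * Real.exp (7 / 4 * (u - 4 / 7))) ^ 4 *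
          (3 / 7 * Real.exp (-(7 / 3) * (u - 4 / 7))) ^ 3 :=
          mul_le_mul h2' h3' (pow_nonneg (by linarith) 3) (by positivity)
      _ = (4 / 7) ^ 4 * (3 / 7) ^ 3 := by
          rw [mul_pow, mul_pow, ← Real.exp_nat_mul, ← Real.exp_nat_mul]
          have : ∀ a b : ℝ, (4 / 7 : ℝ) ^ 4 * Real.exp a * ((3 / 7) ^ 3 * Real.exp b) =
              (4 / 7) ^ 4 * (3 / 7) ^ 3 * Real.exp (a + b) := by
            intro a b
            rw [Real.exp_add]
            ring
          rw [this]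
          have h0 : ((4 : ℕ) : ℝ) * (7 / 4 * (u - 4 / 7)) +
              ((3 : ℕ) : ℝ) * (-(7 / 3) * (u - 4 / 7)) = 0 := by
            push_cast
            ring
          rw [h0, Real.exp_zero, mul_one]
  rw [hf, h9u]
  calc ((x - 6) / x) ^ 6 * (u ^ 4 * (1 - u) ^ 3) ≤ (1 / 3) ^ 6 * ((4 / 7) ^ 4 * (3 / 7) ^ 3) := by
        refine mul_le_mul h1' h4 ?_ (by positivity)
        exact mul_nonneg (by positivity) (pow_nonneg (by linarith) 3)
    _ ≤ 12 / 1000000 := by norm_num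

/-- Lower bound on `[6.9, 7]`. -/
theorem le_fn {x : ℝ} (h1 : 6.9 ≤ x) (h2 : x ≤ 7) : 39 / 1000000 ≤ fn x := by
  have hx : 0 < x := by linarith
  have hf : fn x = ((x - 6) / x) ^ 6 * ((8 - x) ^ 4 * (9 - x) ^ 3) := by
    unfold fn
    rw [div_pow]
    have : (x - 8) ^ 4 = (8 - x) ^ 4 := by ring
    rw [this]
    ring
  have h3 : (0.9 / 6.9 : ℝ) ≤ (x - 6) / x := by
    rw [div_le_div_iff₀ (by norm_num) hx]
    linarith
  have h3' : (0.9 / 6.9 : ℝ) ^ 6 ≤ ((x - 6) / x) ^ 6 := pow_le_pow_left₀ (by norm_num) h3 6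
  have h4 : (1 : ℝ) ^ 4 ≤ (8 - x) ^ 4 := pow_le_pow_left₀ (by norm_num) (by linarith) 4
  have h5 : (2 : ℝ) ^ 3 ≤ (9 - x) ^ 3 := pow_le_pow_left₀ (by norm_num) (by linarith) 3
  rw [hf]
  calc (39 / 1000000 : ℝ) ≤ (0.9 / 6.9) ^ 6 * (1 ^ 4 * 2 ^ 3) := by norm_num
    _ ≤ ((x - 6) / x) ^ 6 * ((8 - x) ^ 4 * (9 - x) ^ 3) :=
        mul_le_mul h3' (mul_le_mul h4 h5 (by norm_num) (by positivity)) (by norm_num)
          (by positivity)

theorem hasDeriv (n : ℕ) {x : ℝ} (hx : 0 < x) : HasDerivAt (F n) (fn x ^ n / x) x :=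
  hasDerivAt_F n hx

theorem contOn (n : ℕ) {a b : ℝ} (ha : 0 < a) : ContinuousOn (F n) (Set.Icc a b) :=
  fun x hx => (hasDeriv n (lt_of_lt_of_le ha hx.1)).continuousAt.continuousWithinAt

theorem diffOn (n : ℕ) {a b : ℝ} (ha : 0 < a) :
    DifferentiableOn ℝ (F n) (interior (Set.Icc a b)) := by
  rw [interior_Icc]
  exact fun x hx => (hasDeriv n (lt_trans ha hx.1)).differentiableAt.differentiableWithinAt

theorem F_mono (n : ℕ) {a b : ℝ} (ha : 6 ≤ a) (hab : a ≤ b) (hb : b ≤ 9) : F n a ≤ F n b := by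
  have h := (convex_Icc a b).mul_sub_le_image_sub_of_le_deriv (contOn n (by linarith))
    (diffOn n (by linarith)) (C := 0) (fun x hx => by
      rw [interior_Icc] at hx
      have hx0 : 0 < x := by linarith [hx.1]
      rw [(hasDeriv n hx0).deriv]
      exact div_nonneg (pow_nonneg (fn_nonneg (by linarith [hx.1]) (by linarith [hx.2])) n) hx0.le)
    a (Set.left_mem_Icc.2 hab) b (Set.right_mem_Icc.2 hab) hab
  linarith

theorem I1_le (n : ℕ) : F n 8 - F n 6 ≤ (1 / 10000) ^ n / 3 := by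
  have h := (convex_Icc (6 : ℝ) 8).image_sub_le_mul_sub_of_deriv_le (contOn n (by norm_num))
    (diffOn n (by norm_num)) (C := (1 / 10000) ^ n / 6) (fun x hx => by
      rw [interior_Icc] at hx
      have hx0 : 0 < x := by linarith [hx.1]
      rw [(hasDeriv n hx0).deriv]
      refine div_le_div₀ (by positivity) ?_ (by norm_num) hx.1.le
      exact pow_le_pow_left₀ (fn_nonneg hx.1.le (by linarith [hx.2])) (fn_le_left hx.1.le hx.2.le) n)
    6 (by norm_num) 8 (by norm_num) (by norm_num)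
  linarith

theorem I2_le (n : ℕ) : F n 9 - F n 8 ≤ (12 / 1000000) ^ n / 8 := by
  have h := (convex_Icc (8 : ℝ) 9).image_sub_le_mul_sub_of_deriv_le (contOn n (by norm_num))
    (diffOn n (by norm_num)) (C := (12 / 1000000) ^ n / 8) (fun x hx => by
      rw [interior_Icc] at hx
      have hx0 : 0 < x := by linarith [hx.1]
      rw [(hasDeriv n hx0).deriv]
      refine div_le_div₀ (by positivity) ?_ (by norm_num) hx.1.le
      exact pow_le_pow_left₀ (fn_nonneg (by linarith [hx.1]) hx.2.le)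
        (fn_le_right hx.1.le hx.2.le) n)
    8 (by norm_num) 9 (by norm_num) (by norm_num)
  linarith

theorem I2_nonneg (n : ℕ) : 0 ≤ F n 9 - F n 8 :=
  sub_nonneg.2 (F_mono n (by norm_num) (by norm_num) (by norm_num))

theorem le_I1 (n : ℕ) : (39 / 1000000) ^ n / 70 ≤ F n 8 - F n 6 := by
  have h := (convex_Icc (6.9 : ℝ) 7).mul_sub_le_image_sub_of_le_deriv (contOn n (by norm_num))
    (diffOn n (by norm_num)) (C := (39 / 1000000) ^ n / 7) (fun x hx => by
      rw [interior_Icc] at hx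
      have hx0 : 0 < x := by linarith [hx.1]
      rw [(hasDeriv n hx0).deriv]
      refine div_le_div₀ (pow_nonneg (fn_nonneg (by linarith [hx.1]) (by linarith [hx.2])) n) ?_
        hx0 hx.2.le
      exact pow_le_pow_left₀ (by norm_num) (le_fn hx.1.le hx.2.le) n)
    6.9 (by norm_num) 7 (by norm_num) (by norm_num)
  have h1 : F n 6 ≤ F n 6.9 := F_mono n (by norm_num) (by norm_num) (by norm_num)
  have h2 : F n 7 ≤ F n 8 := F_mono n (by norm_num) (by norm_num) (by norm_num)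
  have h3 : ((39 : ℝ) / 1000000) ^ n / 7 * (7 - 6.9) = (39 / 1000000) ^ n / 70 := by
    norm_num
    ring
  rw [h3] at h
  linarith

/-- The linear forms. -/
theorem linear_forms (n : ℕ) : ∃ Z1 Z2 : ℤ,
    (Nat.lcmUpto (7 * n) : ℝ) * (F n 8 - F n 6) =
      (Nat.lcmUpto (7 * n) : ℝ) * ((p0 ^ n).coeff (6 * n) : ℝ) * Real.log (4 / 3) + Z1 ∧
    (Nat.lcmUpto (7 * n) : ℝ) * (F n 9 - F n 8) =
      (Nat.lcmUpto (7 * n) : ℝ) * ((p0 ^ n).coeff (6 * n) : ℝ) * Real.log (9 / 8) + Z2 := by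
  obtain ⟨z6, h6⟩ := exists_int n (fun i => (g6 ^ n).coeff i)
  obtain ⟨z8, h8⟩ := exists_int n (fun i => (g8 ^ n).coeff i)
  obtain ⟨z9, h9⟩ := exists_int n (fun i => (g9 ^ n).coeff i)
  have e6 := F_eq (by norm_num) comp6 n
  have e8 := F_eq (by norm_num) comp8 n
  have e9 := F_eq (by norm_num) comp9 n
  have c6 : ((6 : ℤ) : ℝ) = 6 := by norm_num
  have c8 : ((8 : ℤ) : ℝ) = 8 := by norm_num
  have c9 : ((9 : ℤ) : ℝ) = 9 := by norm_num
  rw [c6] at e6
  rw [c8] at e8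
  rw [c9] at e9
  have l1 : Real.log (4 / 3) = Real.log 8 - Real.log 6 := by
    rw [← Real.log_div (by norm_num) (by norm_num)]
    norm_num
  have l2 : Real.log (9 / 8) = Real.log 9 - Real.log 8 :=
    Real.log_div (by norm_num) (by norm_num)
  refine ⟨z8 - z6, z9 - z8, ?_, ?_⟩
  · rw [e8, e6, l1, Int.cast_sub, ← h8, ← h6]
    ring
  · rw [e9, e8, l2, Int.cast_sub, ← h9, ← h8]
    ring

/-- An effective polynomial lower bound for `|k log 2 - a log 3|`. -/
theorem log_lower : ∃ c : ℝ, 0 < c ∧ ∀ k a : ℕ, 0 < k + a →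
    c / ((k + a : ℕ) : ℝ) ^ 80 ≤ |k * Real.log 2 - a * Real.log 3| := by
  obtain ⟨C0, hC0, hlcm0⟩ := exists_lcm_bound
  set C : ℝ := max C0 1 with hC
  have hC1 : 1 ≤ C := le_max_right _ _
  have hCpos : 0 < C := by linarith
  have hlcm : ∀ N : ℕ, (Nat.lcmUpto N : ℝ) ≤ C * 3.5 ^ N := fun N =>
    le_trans (hlcm0 N) (mul_le_mul_of_nonneg_right (le_max_left _ _) (by positivity))
  set η : ℝ := min (0.4 / C) 0.028 with hη
  have hη1 : η ≤ 0.4 / C := min_le_left _ _
  have hη2 : η ≤ 0.028 := min_le_right _ _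
  have hη0 : 0 < η := lt_min (by positivity) (by norm_num)
  set κ : ℝ := min (1 / (2 * C)) (1 / 140) with hκ
  have hκ1 : κ ≤ 1 / (2 * C) := min_le_left _ _
  have hκ2 : κ ≤ 1 / 140 := min_le_right _ _
  have hκ0 : 0 < κ := lt_min (by positivity) (by norm_num)
  have hsmall : (0.65 * η) ^ 80 ≤ 1 := by
    apply pow_le_one₀ (by positivity)
    linarith
  refine ⟨κ * (0.65 * η) ^ 80, by positivity, fun k a hka => ?_⟩
  set K : ℝ := ((k + a : ℕ) : ℝ) with hK
  have hK1 : 1 ≤ K := by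
    rw [hK]
    exact_mod_cast hka
  have hK0 : 0 < K := by linarith
  have hkK : (k : ℝ) + a = K := by rw [hK]; push_cast; ring
  have hk0 : (0 : ℝ) ≤ k := Nat.cast_nonneg _
  have ha0 : (0 : ℝ) ≤ a := Nat.cast_nonneg _
  have hlog98 : (1 / 9 : ℝ) ≤ Real.log (9 / 8) := by
    have h := Real.one_sub_inv_le_log_of_pos (show (0 : ℝ) < 9 / 8 by norm_num)
    norm_num at h ⊢
    linarith
  have hl2 : Real.log 2 = 2 * Real.log (4 / 3) + Real.log (9 / 8) := by
    rw [← Real.log_rpow (by norm_num), ← Real.log_mul (by positivity) (by norm_num)]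
    norm_num
  have hl3 : Real.log 3 = 3 * Real.log (4 / 3) + 2 * Real.log (9 / 8) := by
    rw [← Real.log_rpow (by norm_num), ← Real.log_rpow (by norm_num),
      ← Real.log_mul (by positivity) (by positivity)]
    norm_num
  set Λ : ℝ := k * Real.log 2 - a * Real.log 3 with hΛ
  have hΛ' : Λ = (2 * k - 3 * a) * Real.log (4 / 3) + (k - 2 * a) * Real.log (9 / 8) := by
    rw [hΛ, hl2, hl3]
    ring
  have hcK : κ * (0.65 * η) ^ 80 / K ^ 80 ≤ κ := by
    rw [div_le_iff₀ (by positivity)]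
    have h1 : (1 : ℝ) ≤ K ^ 80 := one_le_pow₀ hK1
    calc κ * (0.65 * η) ^ 80 ≤ κ * 1 := mul_le_mul_of_nonneg_left hsmall hκ0.le
      _ ≤ κ * K ^ 80 := mul_le_mul_of_nonneg_left h1 hκ0.le
  by_cases hx0 : 2 * k = 3 * a
  · -- the case x = 0
    obtain ⟨j, hj⟩ : ∃ j, k = 3 * j ∧ a = 2 * j := ⟨k / 3, by omega, by omega⟩
    have hj1 : 1 ≤ j := by omega
    have hj1' : (1 : ℝ) ≤ j := by exact_mod_cast hj1
    have hkr : (k : ℝ) = 3 * j := by exact_mod_cast hj.1
    have har : (a : ℝ) = 2 * j := by exact_mod_cast hj.2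
    have h1 : Λ = -(j * Real.log (9 / 8)) := by
      rw [hΛ', hkr, har]
      ring
    rw [h1, abs_neg, abs_of_nonneg (by positivity)]
    refine le_trans hcK ?_
    nlinarith
  · -- the choice of `n`
    have hex : ∃ n : ℕ, K * 0.65 ^ n ≤ η := by
      obtain ⟨n, hn⟩ := exists_pow_lt_of_lt_one (show 0 < η / K by positivity)
        (show (0.65 : ℝ) < 1 by norm_num)
      refine ⟨n, ?_⟩
      rw [lt_div_iff₀ hK0] at hn
      linarith
    classical
    have hspec := Nat.find_spec hex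
    have hmin := fun {m : ℕ} (hm : m < Nat.find hex) => Nat.find_min hex hm
    set n := Nat.find hex with hn
    have hlow : 0.65 * η / K ≤ 0.65 ^ n := by
      rw [div_le_iff₀ hK0]
      rcases Nat.eq_zero_or_pos n with h0 | h0
      · rw [h0, pow_zero, one_mul]
        linarith
      · obtain ⟨m, hm⟩ := Nat.exists_eq_add_of_lt h0
        rw [zero_add] at hm
        have h1 := hmin (m := m) (by omega)
        rw [not_le] at h1
        rw [hm, pow_succ]
        linarith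
    obtain ⟨Z1, Z2, hZ1, hZ2⟩ := linear_forms n
    set D : ℝ := (Nat.lcmUpto (7 * n) : ℝ) with hD
    have hD0 : 0 < D := by rw [hD]; exact_mod_cast Nat.lcmUpto_pos _
    have hDle : D ≤ C * 3.5 ^ (7 * n) := hlcm _
    set q : ℝ := ((p0 ^ n).coeff (6 * n) : ℝ) with hq
    have hqle : |q| ≤ 10 ^ (10 * n) := abs_coeff_le n
    set I1 : ℝ := F n 8 - F n 6 with hI1
    set I2 : ℝ := F n 9 - F n 8 with hI2
    have hI1u : I1 ≤ (1 / 10000) ^ n / 3 := I1_le n
    have hI1l : (39 / 1000000) ^ n / 70 ≤ I1 := le_I1 n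
    have hI2u : I2 ≤ (12 / 1000000) ^ n / 8 := I2_le n
    have hI20 : 0 ≤ I2 := I2_nonneg n
    have hI10 : 0 < I1 := lt_of_lt_of_le (by positivity) hI1l
    set x : ℝ := 2 * k - 3 * a with hx
    set y : ℝ := k - 2 * a with hy
    have hxabs : |x| ≤ 3 * K := by
      rw [abs_le]
      constructor <;> linarith
    have hyabs : |y| ≤ 2 * K := by
      rw [abs_le]
      constructor <;> linarith
    have hx1 : 1 ≤ |x| := by
      have h1 : (2 * (k : ℤ) - 3 * (a : ℤ)) ≠ 0 := by omega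
      have h2 : 1 ≤ |(2 * (k : ℤ) - 3 * (a : ℤ))| := Int.one_le_abs h1
      rw [hx]
      exact_mod_cast h2
    have hmain : D * (x * I1 + y * I2) =
        D * q * Λ + ((2 * (k : ℤ) - 3 * (a : ℤ)) * Z1 + ((k : ℤ) - 2 * (a : ℤ)) * Z2 : ℤ) := by
      rw [hΛ']
      push_cast
      have : D * (x * I1 + y * I2) = x * (D * I1) + y * (D * I2) := by ring
      rw [this, hZ1, hZ2, hx, hy]
      ring
    have habs : |x * I1 + y * I2| ≤ 3 * K * I1 + 2 * K * I2 := by
      refine le_trans (abs_add_le _ _) ?_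
      rw [abs_mul, abs_mul, abs_of_pos hI10, abs_of_nonneg hI20]
      exact add_le_add (mul_le_mul_of_nonneg_right hxabs hI10.le)
        (mul_le_mul_of_nonneg_right hyabs hI20)
    have hpow65 : (0.65 : ℝ) ^ n * K ≤ η := by linarith
    have hsum : 3 * K * I1 + 2 * K * I2 ≤ 1.25 * K * (1 / 10000) ^ n := by
      have h1 : ((12 : ℝ) / 1000000) ^ n ≤ (1 / 10000) ^ n :=
        pow_le_pow_left₀ (by norm_num) (by norm_num) n
      have h2 : K * I1 ≤ K * ((1 / 10000) ^ n / 3) := mul_le_mul_of_nonneg_left hI1u hK0.le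
      have h3 : K * I2 ≤ K * ((1 / 10000) ^ n / 8) :=
        mul_le_mul_of_nonneg_left (by linarith) hK0.le
      linarith
    have hDsum : D * (3 * K * I1 + 2 * K * I2) ≤ 1 / 2 := by
      calc D * (3 * K * I1 + 2 * K * I2) ≤ D * (1.25 * K * (1 / 10000) ^ n) :=
            mul_le_mul_of_nonneg_left hsum hD0.le
        _ ≤ (C * 3.5 ^ (7 * n)) * (1.25 * K * (1 / 10000) ^ n) :=
            mul_le_mul_of_nonneg_right hDle (by positivity)
        _ = 1.25 * C * (((3.5 ^ 7 * (1 / 10000) : ℝ)) ^ n * K) := by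
            rw [mul_pow, ← pow_mul]
            ring
        _ ≤ 1.25 * C * (0.65 ^ n * K) := by
            refine mul_le_mul_of_nonneg_left ?_ (by positivity)
            refine mul_le_mul_of_nonneg_right ?_ hK0.le
            exact pow_le_pow_left₀ (by norm_num) (by norm_num) n
        _ ≤ 1.25 * C * (0.4 / C) :=
            mul_le_mul_of_nonneg_left (le_trans hpow65 hη1) (by positivity)
        _ = 1 / 2 := by
            field_simp
            norm_num
    have hyI2 : |y| * I2 ≤ I1 / 2 := by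
      have h1 : ((12 : ℝ) / 1000000) ^ n = (12 / 39) ^ n * (39 / 1000000) ^ n := by
        rw [← mul_pow]
        norm_num
      have h2 : ((12 : ℝ) / 39) ^ n ≤ 0.65 ^ n := pow_le_pow_left₀ (by norm_num) (by norm_num) n
      have h39 : (0 : ℝ) < (39 / 1000000) ^ n := by positivity
      calc |y| * I2 ≤ 2 * K * ((12 / 1000000) ^ n / 8) :=
            mul_le_mul hyabs hI2u hI20 (by positivity)
        _ = ((12 / 39) ^ n * K) * ((39 / 1000000) ^ n / 4) := by rw [h1]; ring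
        _ ≤ (0.65 ^ n * K) * ((39 / 1000000) ^ n / 4) := by
            refine mul_le_mul_of_nonneg_right ?_ (by positivity)
            exact mul_le_mul_of_nonneg_right h2 hK0.le
        _ ≤ 0.028 * ((39 / 1000000) ^ n / 4) :=
            mul_le_mul_of_nonneg_right (le_trans hpow65 hη2) (by positivity)
        _ ≤ (39 / 1000000) ^ n / 70 / 2 := by nlinarith
        _ ≤ I1 / 2 := by linarith
    have hgoal : κ * (0.65 * η) ^ 80 / K ^ 80 ≤ κ * (0.65 ^ n) ^ 80 := by
      rw [mul_div_assoc, ← div_pow]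
      refine mul_le_mul_of_nonneg_left ?_ hκ0.le
      exact pow_le_pow_left₀ (by positivity) hlow 80
    refine le_trans hgoal ?_
    have hcomm : ((0.65 : ℝ) ^ n) ^ 80 = (0.65 ^ 80) ^ n := by
      rw [← pow_mul, ← pow_mul, mul_comm]
    rw [hcomm]
    have h10 : (0 : ℝ) < 10 ^ (10 * n) := by positivity
    set Z : ℤ := (2 * (k : ℤ) - 3 * (a : ℤ)) * Z1 + ((k : ℤ) - 2 * (a : ℤ)) * Z2 with hZ
    by_cases hZ0 : Z = 0
    · -- the integer vanishes
      rw [hZ0, Int.cast_zero, add_zero, mul_assoc] at hmain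
      have h1 : x * I1 + y * I2 = q * Λ := mul_left_cancel₀ hD0.ne' hmain
      have h2 : I1 / 2 ≤ |q| * |Λ| := by
        rw [← abs_mul, ← h1]
        have h3 : |x * I1| - |y * I2| ≤ |x * I1 + y * I2| := by
          have := abs_sub_abs_le_abs_sub (x * I1) (-(y * I2))
          rwa [abs_neg, sub_neg_eq_add] at this
        rw [abs_mul x, abs_mul y, abs_of_pos hI10, abs_of_nonneg hI20] at h3
        have h4 : I1 ≤ |x| * I1 := le_mul_of_one_le_left hI10.le hx1
        linarith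
      have h3 : (39 / 1000000) ^ n / 140 ≤ 10 ^ (10 * n) * |Λ| := by
        calc (39 / 1000000 : ℝ) ^ n / 140 ≤ I1 / 2 := by linarith
          _ ≤ |q| * |Λ| := h2
          _ ≤ 10 ^ (10 * n) * |Λ| := mul_le_mul_of_nonneg_right hqle (abs_nonneg _)
      have h4 : κ * (0.65 ^ 80) ^ n * 10 ^ (10 * n) ≤ (39 / 1000000) ^ n / 140 := by
        have h5 : ((0.65 : ℝ) ^ 80) ^ n * 10 ^ (10 * n) ≤ (39 / 1000000) ^ n := by
          rw [pow_mul, ← mul_pow]
          exact pow_le_pow_left₀ (by positivity) (by norm_num) n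
        calc κ * (0.65 ^ 80) ^ n * 10 ^ (10 * n) = κ * ((0.65 ^ 80) ^ n * 10 ^ (10 * n)) := by ring
          _ ≤ 1 / 140 * (39 / 1000000) ^ n := mul_le_mul hκ2 h5 (by positivity) (by norm_num)
          _ = (39 / 1000000) ^ n / 140 := by ring
      have h5 : (κ * (0.65 ^ 80) ^ n) * 10 ^ (10 * n) ≤ |Λ| * 10 ^ (10 * n) := by linarith
      exact le_of_mul_le_mul_right h5 h10
    · -- the integer does not vanish
      have h1 : (1 : ℝ) ≤ |(Z : ℝ)| := by
        exact_mod_cast Int.one_le_abs hZ0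
      have h2 : (Z : ℝ) = D * (x * I1 + y * I2) - D * q * Λ := by
        rw [hmain]
        ring
      have h3 : |(Z : ℝ)| ≤ 1 / 2 + D * |q| * |Λ| := by
        rw [h2]
        refine le_trans (abs_sub _ _) ?_
        rw [abs_mul D, abs_mul (D * q), abs_mul D, abs_of_pos hD0]
        have := mul_le_mul_of_nonneg_left habs hD0.le
        linarith
      have h4 : 1 / 2 ≤ D * |q| * |Λ| := by linarith
      have h5 : D * |q| * |Λ| ≤ (C * 3.5 ^ (7 * n)) * 10 ^ (10 * n) * |Λ| := by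
        refine mul_le_mul_of_nonneg_right ?_ (abs_nonneg _)
        exact mul_le_mul hDle hqle (abs_nonneg _) (by positivity)
      have h6 : 1 / 2 ≤ (C * (3.5 ^ (7 * n) * 10 ^ (10 * n))) * |Λ| := by linarith
      have h7 : κ * (0.65 ^ 80) ^ n * (C * (3.5 ^ (7 * n) * 10 ^ (10 * n))) ≤ 1 / 2 := by
        have h8 : ((0.65 : ℝ) ^ 80) ^ n * (3.5 ^ (7 * n) * 10 ^ (10 * n)) ≤ 1 := by
          rw [pow_mul 3.5, pow_mul 10, ← mul_pow, ← mul_pow]
          exact pow_le_one₀ (by positivity) (by norm_num)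
        calc κ * (0.65 ^ 80) ^ n * (C * (3.5 ^ (7 * n) * 10 ^ (10 * n)))
            = (κ * C) * ((0.65 ^ 80) ^ n * (3.5 ^ (7 * n) * 10 ^ (10 * n))) := by ring
          _ ≤ (κ * C) * 1 := mul_le_mul_of_nonneg_left h8 (by positivity)
          _ ≤ (1 / (2 * C) * C) * 1 := by
              refine mul_le_mul_of_nonneg_right ?_ (by norm_num)
              exact mul_le_mul_of_nonneg_right hκ1 hCpos.le
          _ = 1 / 2 := by field_simp
      have h8 : (κ * (0.65 ^ 80) ^ n) * (C * (3.5 ^ (7 * n) * 10 ^ (10 * n))) ≤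
          |Λ| * (C * (3.5 ^ (7 * n) * 10 ^ (10 * n))) := by linarith
      exact le_of_mul_le_mul_right h8 (by positivity)

end Pool.Agent.Work.MP_a11cf9_nt.Pade
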