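import Pool.Agent.Work.MP_a11cf9_nt.Density
import Pool.Agent.Work.MP_a11cf9_nt.Measure

/-!
# Power saving for the number of the values `k` with a counterexample
-/

set_option autoImplicit false

namespace Pool.Agent.Work.MP_a11cf9_nt

open Real

/-- The logarithmic form of closeness. -/
theorem log_close {D k a : ℕ} (h1 : 3 ^ a < 2 ^ k) (h2 : 2 ^ D * 2 ^ k < (2 ^ D + 1) * 3 ^ a) :
    0 < k * Real.log 2 - a * Real.log 3 ∧ k * Real.log 2 - a * Real.log 3 < 1 / 2 ^ D := by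
  constructor
  · have h3 : (3 : ℝ) ^ a < 2 ^ k := by exact_mod_cast h1
    have h4 := Real.log_lt_log (by positivity) h3
    rw [Real.log_pow, Real.log_pow] at h4
    linarith
  · have h2D : (0 : ℝ) < 2 ^ D := by positivity
    have h3 : (2 : ℝ) ^ D * 2 ^ k < (2 ^ D + 1) * 3 ^ a := by exact_mod_cast h2
    have h4 : (2 : ℝ) ^ k < (1 + 1 / 2 ^ D) * 3 ^ a := by
      have h5 : (1 + 1 / (2 : ℝ) ^ D) = (2 ^ D + 1) / 2 ^ D := by field_simp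
      rw [h5, div_mul_eq_mul_div, lt_div_iff₀ h2D]
      linarith
    have h5 := Real.log_lt_log (by positivity) h4
    rw [Real.log_mul (by positivity) (by positivity), Real.log_pow, Real.log_pow] at h5
    have h6 := Real.log_le_sub_one_of_pos (show (0 : ℝ) < 1 + 1 / 2 ^ D by positivity)
    linarith

/-- The separation with the effective bound. -/
theorem gap_power {c : ℝ} (hc : 0 < c)
    (hlow : ∀ k a : ℕ, 0 < k + a →
      c / ((k + a : ℕ) : ℝ) ^ 80 ≤ |k * Real.log 2 - a * Real.log 3|)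
    {D0 m : ℕ} (hD0 : (2 : ℝ) ^ 80 ≤ c * 2 ^ D0) {k k' a a' : ℕ} (hkk : k < k')
    (h1 : 3 ^ a < 2 ^ k) (h2 : 2 ^ (80 * m + D0) * 2 ^ k < (2 ^ (80 * m + D0) + 1) * 3 ^ a)
    (h1' : 3 ^ a' < 2 ^ k')
    (h2' : 2 ^ (80 * m + D0) * 2 ^ k' < (2 ^ (80 * m + D0) + 1) * 3 ^ a') : 2 ^ m ≤ k' - k := by
  obtain ⟨hp, hq⟩ := log_close h1 h2
  obtain ⟨hp', hq'⟩ := log_close h1' h2'
  set D := 80 * m + D0 with hD
  have hl2 := log_two_pos
  have hl3 := log_three_pos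
  have hl23 : Real.log 2 < Real.log 3 := Real.log_lt_log (by norm_num) (by norm_num)
  have hsmall : (1 : ℝ) / 2 ^ D ≤ 1 / 2 := by
    have hD1 : 1 ≤ D := by
      by_contra hc'
      have hD00 : D0 = 0 := by omega
      have hm0 : m = 0 := by omega
      have h5 : |(1 : ℕ) * Real.log 2 - (0 : ℕ) * Real.log 3| < 1 := by
        push_cast
        rw [one_mul, zero_mul, sub_zero, abs_of_pos hl2]
        linarith [Real.log_two_lt_d9]
      have h6 := hlow 1 0 (by norm_num)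
      rw [hD00, pow_zero, mul_one] at hD0
      have h7 : c / (((1 + 0 : ℕ)) : ℝ) ^ 80 = c := by norm_num
      rw [h7] at h6
      have h8 : (1 : ℝ) ≤ 2 ^ 80 := by norm_num
      linarith
    have h5 : (2 : ℝ) ^ 1 ≤ 2 ^ D := pow_le_pow_right₀ (by norm_num) hD1
    exact one_div_le_one_div_of_le (by norm_num) (by linarith)
  obtain ⟨d, rfl⟩ := Nat.exists_eq_add_of_lt hkk
  have hd : k + d + 1 - k = d + 1 := by omega
  rw [hd]
  have hlt : (k : ℝ) + 1 ≤ ((k + d + 1 : ℕ) : ℝ) := by push_cast; linarith [Nat.cast_nonneg (α := ℝ) d]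
  -- a ≤ a'
  have haa : a ≤ a' := by
    by_contra hc'
    rw [not_le] at hc'
    have h3 : (a' : ℝ) + 1 ≤ a := by exact_mod_cast hc'
    have h4 : (a' : ℝ) * Real.log 3 + Real.log 3 ≤ a * Real.log 3 := by nlinarith
    have h5 : (k : ℝ) * Real.log 2 + Real.log 2 ≤ ((k + d + 1 : ℕ) : ℝ) * Real.log 2 := by nlinarith
    linarith [Real.log_two_gt_d9]
  obtain ⟨e, rfl⟩ := Nat.exists_eq_add_of_le haa
  have hde : |((d + 1 : ℕ) : ℝ) * Real.log 2 - (e : ℝ) * Real.log 3| ≤ 1 / 2 ^ D := by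
    have h3 : ((d + 1 : ℕ) : ℝ) * Real.log 2 - (e : ℝ) * Real.log 3 =
        (((k + d + 1 : ℕ) : ℝ) * Real.log 2 - ((a + e : ℕ) : ℝ) * Real.log 3) -
        (k * Real.log 2 - a * Real.log 3) := by
      push_cast
      ring
    rw [h3, abs_le]
    constructor <;> linarith
  have hed : e ≤ d + 1 := by
    by_contra hc'
    rw [not_le] at hc'
    have h3 : ((d + 1 : ℕ) : ℝ) + 1 ≤ e := by exact_mod_cast hc'
    have h4 := (abs_le.1 hde).1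
    have h5 : (((d + 1 : ℕ) : ℝ) + 1) * Real.log 3 ≤ (e : ℝ) * Real.log 3 :=
      mul_le_mul_of_nonneg_right h3 hl3.le
    have h6 : ((d + 1 : ℕ) : ℝ) * Real.log 2 ≤ ((d + 1 : ℕ) : ℝ) * Real.log 3 :=
      mul_le_mul_of_nonneg_left hl23.le (Nat.cast_nonneg _)
    have h7 : (1 : ℝ) < Real.log 3 := by
      rw [Real.lt_log_iff_exp_lt (by norm_num)]
      linarith [Real.exp_one_lt_d9]
    nlinarith
  have h3 := hlow (d + 1) e (by omega)
  have h4 : c / (((d + 1 + e : ℕ)) : ℝ) ^ 80 ≤ 1 / 2 ^ D := le_trans h3 hde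
  have hpos : (0 : ℝ) < ((d + 1 + e : ℕ) : ℝ) := by
    have : 0 < d + 1 + e := by omega
    exact_mod_cast this
  rw [div_le_div_iff₀ (by positivity) (by positivity), one_mul] at h4
  have h5 : ((2 : ℝ) * 2 ^ m) ^ 80 ≤ ((d + 1 + e : ℕ) : ℝ) ^ 80 := by
    calc ((2 : ℝ) * 2 ^ m) ^ 80 = 2 ^ 80 * 2 ^ (80 * m) := by
          rw [mul_pow, ← pow_mul, mul_comm m 80]
      _ ≤ (c * 2 ^ D0) * 2 ^ (80 * m) := mul_le_mul_of_nonneg_right hD0 (by positivity)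
      _ = c * 2 ^ D := by rw [hD, pow_add]; ring
      _ ≤ ((d + 1 + e : ℕ) : ℝ) ^ 80 := h4
  have h6 : (2 : ℝ) * 2 ^ m ≤ ((d + 1 + e : ℕ) : ℝ) :=
    le_of_pow_le_pow_left₀ (by norm_num) hpos.le h5
  have h7 : 2 * 2 ^ m ≤ d + 1 + e := by exact_mod_cast h6
  omega

theorem bad_count_aux' {C : ℝ} (hC : 0 < C)
    (hmain : ∀ n k : ℕ, 2 ≤ n → kappa n = k → sigma n ≠ k →
      k * Real.log 2 - odds n k * Real.log 3 ≤ C * (n : ℝ) ^ (-(1 / 24) : ℝ))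
    {c : ℝ} (hc : 0 < c)
    (hlow : ∀ k a : ℕ, 0 < k + a →
      c / ((k + a : ℕ) : ℝ) ^ 80 ≤ |k * Real.log 2 - a * Real.log 3|)
    {D0 : ℕ} (hD0 : (2 : ℝ) ^ 80 ≤ c * 2 ^ D0) (m X : ℕ) :
    (({k : ℕ | k ≤ X ∧ k ∈ Bad}.ncard : ℕ) : ℝ) ≤
      ((X / 2 ^ m : ℕ) : ℝ) + 1 + ((2 * C * 2 ^ (80 * m + D0)) ^ 24 + 1) := by
  classical
  set D : ℕ := 80 * m + D0 with hD
  set S1 : Set ℕ := {k : ℕ | k ≤ X ∧ ∃ n : ℕ, 2 ≤ n ∧ kappa n = k ∧ sigma n ≠ k ∧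
    (2 ^ D + 1) * 3 ^ odds n k ≤ 2 ^ D * 2 ^ k} with hS1
  set S2 : Set ℕ := {k : ℕ | k ≤ X ∧ ∃ n : ℕ, 2 ≤ n ∧ kappa n = k ∧ sigma n ≠ k ∧
    2 ^ D * 2 ^ k < (2 ^ D + 1) * 3 ^ odds n k} with hS2
  have hfin : ∀ S : Set ℕ, (∀ k ∈ S, k ≤ X) → S.Finite := fun S hS =>
    (Set.finite_Iic X).subset (fun k hk => hS k hk)
  have hcov : {k : ℕ | k ≤ X ∧ k ∈ Bad} ⊆ S1 ∪ S2 := by
    rintro k ⟨hkX, n, hn, hk, hs⟩
    rcases le_or_gt ((2 ^ D + 1) * 3 ^ odds n k) (2 ^ D * 2 ^ k) with h | h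
    · exact Or.inl ⟨hkX, n, hn, hk, hs, h⟩
    · exact Or.inr ⟨hkX, n, hn, hk, hs, h⟩
  have hS1f : S1.Finite := hfin S1 (fun k hk => hk.1)
  have hS2f : S2.Finite := hfin S2 (fun k hk => hk.1)
  have h12 : {k : ℕ | k ≤ X ∧ k ∈ Bad}.ncard ≤ S1.ncard + S2.ncard :=
    le_trans (Set.ncard_le_ncard hcov (hS1f.union hS2f)) (Set.ncard_union_le _ _)
  have hc2 : S2.ncard ≤ X / 2 ^ m + 1 := by
    refine card_separated (Nat.one_le_pow _ _ (by norm_num)) (fun k hk => hk.1) ?_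
    rintro k ⟨-, n, -, hk, -, h⟩ k' ⟨-, n', -, hk', -, h'⟩ hlt
    exact gap_power hc hlow hD0 hlt ((kappa_eq_iff n k).1 hk).1.2 h
      ((kappa_eq_iff n' k').1 hk').1.2 h'
  have hc1 : (S1.ncard : ℝ) ≤ (2 * C * 2 ^ D) ^ 24 + 1 := by
    set N : ℕ := ⌊(2 * C * 2 ^ D : ℝ) ^ 24⌋₊ with hN
    have hex : ∀ k ∈ S1, ∃ n : ℕ, kappa n = k ∧ n ≤ N := by
      rintro k ⟨-, n, hn, hk, hs, h⟩
      refine ⟨n, hk, Nat.le_floor ?_⟩
      have hn0 : (0 : ℝ) < n := by exact_mod_cast (by omega : 0 < n)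
      have h1 := hmain n k hn hk hs
      have h2D : (0 : ℝ) < 2 ^ D := by positivity
      have h2 : Real.log (1 + 1 / 2 ^ D) ≤ k * Real.log 2 - odds n k * Real.log 3 := by
        have h3 : (1 + 1 / (2 : ℝ) ^ D) * 3 ^ odds n k ≤ 2 ^ k := by
          have h4 : ((2 : ℝ) ^ D + 1) * 3 ^ odds n k ≤ 2 ^ D * 2 ^ k := by exact_mod_cast h
          have h5 : (1 + 1 / (2 : ℝ) ^ D) = (2 ^ D + 1) / 2 ^ D := by field_simp
          rw [h5, div_mul_eq_mul_div, div_le_iff₀ h2D]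
          linarith
        have h6 := Real.log_le_log (by positivity) h3
        rw [Real.log_mul (by positivity) (by positivity), Real.log_pow, Real.log_pow] at h6
        linarith
      have h3 : 1 / (2 * 2 ^ D : ℝ) ≤ Real.log (1 + 1 / 2 ^ D) := by
        have h4 := Real.one_sub_inv_le_log_of_pos (show (0 : ℝ) < 1 + 1 / 2 ^ D by positivity)
        have h5 : 1 / (2 * 2 ^ D : ℝ) ≤ 1 - (1 + 1 / (2 : ℝ) ^ D)⁻¹ := by
          have h6 : 1 - (1 + 1 / (2 : ℝ) ^ D)⁻¹ = 1 / (2 ^ D + 1) := by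
            field_simp
            ring
          rw [h6]
          have h7 : (1 : ℝ) ≤ 2 ^ D := one_le_pow₀ (by norm_num)
          exact one_div_le_one_div_of_le (by positivity) (by linarith)
        linarith
      have h4 : 1 / (2 * 2 ^ D : ℝ) ≤ C * (n : ℝ) ^ (-(1 / 24) : ℝ) := by linarith
      have h5 : (n : ℝ) ^ ((1 / 24 : ℝ)) ≤ 2 * C * 2 ^ D := by
        rw [Real.rpow_neg hn0.le] at h4
        have h6 : (0 : ℝ) < (n : ℝ) ^ ((1 / 24 : ℝ)) := Real.rpow_pos_of_pos hn0 _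
        rw [← div_eq_mul_inv, div_le_div_iff₀ (by positivity) h6] at h4
        linarith
      have h6 : (n : ℝ) = ((n : ℝ) ^ ((1 / 24 : ℝ))) ^ 24 := by
        rw [← Real.rpow_natCast, ← Real.rpow_mul hn0.le]
        norm_num
      rw [h6]
      exact pow_le_pow_left₀ (Real.rpow_nonneg hn0.le _) h5 24
    choose! f hf using hex
    have h7 : S1.ncard ≤ ((Finset.range (N + 1) : Finset ℕ) : Set ℕ).ncard := by
      refine Set.ncard_le_ncard_of_injOn f (fun k hk => ?_) (fun k hk k' hk' h => ?_)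
        (Finset.finite_toSet _)
      · rw [Finset.mem_coe, Finset.mem_range, Nat.lt_succ_iff]
        exact (hf k hk).2
      · have h8 := (hf k hk).1
        rw [h, (hf k' hk').1] at h8
        exact (Nat.cast_injective (R := ℕ∞) h8).symm
    rw [Set.ncard_coe_finset, Finset.card_range] at h7
    have h8 : (N : ℝ) ≤ (2 * C * 2 ^ D) ^ 24 := Nat.floor_le (by positivity)
    have h9 : (S1.ncard : ℝ) ≤ (N : ℝ) + 1 := by exact_mod_cast h7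
    linarith
  have h13 : (({k : ℕ | k ≤ X ∧ k ∈ Bad}.ncard : ℕ) : ℝ) ≤ (S1.ncard : ℝ) + (S2.ncard : ℝ) := by
    exact_mod_cast h12
  have h14 : (S2.ncard : ℝ) ≤ ((X / 2 ^ m : ℕ) : ℝ) + 1 := by exact_mod_cast hc2
  linarith

/-- Power saving. -/
theorem bad_count_power : ∃ C : ℝ, ∀ X : ℕ, 1 ≤ X →
    (({k : ℕ | k ≤ X ∧ k ∈ Bad}.ncard : ℕ) : ℝ) ≤ C * (X : ℝ) ^ (0.9995 : ℝ) := by
  have h0 : 0 < cexp := lt_trans (by norm_num) cexp_gt
  obtain ⟨C, hC, hmain⟩ := main_ineq (c := 1 / 24) (lt_trans (by norm_num) cexp_gt) h0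
  obtain ⟨c, hc, hlow⟩ := Pade.log_lower
  obtain ⟨D0, hD0⟩ : ∃ D0 : ℕ, (2 : ℝ) ^ 80 ≤ c * 2 ^ D0 := by
    obtain ⟨D0, hD0⟩ := pow_unbounded_of_one_lt (2 ^ 80 / c) (show (1 : ℝ) < 2 by norm_num)
    refine ⟨D0, ?_⟩
    rw [div_lt_iff₀ hc] at hD0
    linarith
  refine ⟨4 + 2 + (2 * C * 2 ^ D0) ^ 24, fun X hX => ?_⟩
  have hX1 : (1 : ℝ) ≤ X := by exact_mod_cast hX
  have hX0 : (0 : ℝ) < X := by linarith
  set L : ℕ := Nat.log 2 X with hL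
  set m : ℕ := L / 2000 with hm
  have hb := bad_count_aux' hC hmain hc hlow hD0 m X
  have hE1 : (1 : ℝ) ≤ (X : ℝ) ^ (0.9995 : ℝ) := Real.one_le_rpow hX1 (by norm_num)
  have hXm : ((X / 2 ^ m : ℕ) : ℝ) ≤ 4 * (X : ℝ) ^ (0.9995 : ℝ) := by
    have h1 : ((X / 2 ^ m : ℕ) : ℝ) ≤ X / ((2 ^ m : ℕ) : ℝ) := Nat.cast_div_le
    have h2 : (X : ℝ) ^ (0.0005 : ℝ) ≤ 4 * ((2 ^ m : ℕ) : ℝ) := by
      have h3 : X < 2 ^ (2000 * (m + 2)) := by
        refine lt_of_lt_of_le (Nat.lt_pow_succ_log_self (by norm_num : 1 < 2) X) ?_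
        exact Nat.pow_le_pow_right (by norm_num) (by omega)
      have h4 : (X : ℝ) ≤ (2 : ℝ) ^ ((2000 * (m + 2) : ℕ) : ℝ) := by
        rw [Real.rpow_natCast]
        exact_mod_cast h3.le
      have h5 := Real.rpow_le_rpow hX0.le h4 (show (0 : ℝ) ≤ 0.0005 by norm_num)
      rw [← Real.rpow_mul (by norm_num)] at h5
      have h6 : ((2000 * (m + 2) : ℕ) : ℝ) * 0.0005 = ((m + 2 : ℕ) : ℝ) := by
        push_cast
        ring
      rw [h6, Real.rpow_natCast, pow_add] at h5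
      push_cast
      linarith
    have h3 : (X : ℝ) = (X : ℝ) ^ (0.9995 : ℝ) * (X : ℝ) ^ (0.0005 : ℝ) := by
      rw [← Real.rpow_add hX0]
      norm_num
    have h2m : (0 : ℝ) < ((2 ^ m : ℕ) : ℝ) := by positivity
    refine le_trans h1 ?_
    rw [div_le_iff₀ h2m]
    calc (X : ℝ) = (X : ℝ) ^ (0.9995 : ℝ) * (X : ℝ) ^ (0.0005 : ℝ) := h3
      _ ≤ (X : ℝ) ^ (0.9995 : ℝ) * (4 * ((2 ^ m : ℕ) : ℝ)) :=
          mul_le_mul_of_nonneg_left h2 (by linarith)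
      _ = 4 * (X : ℝ) ^ (0.9995 : ℝ) * ((2 ^ m : ℕ) : ℝ) := by ring
  have hpow : ((2 * C * 2 ^ (80 * m + D0)) ^ 24 : ℝ) ≤
      (2 * C * 2 ^ D0) ^ 24 * (X : ℝ) ^ (0.9995 : ℝ) := by
    have h1 : ((2 * C * 2 ^ (80 * m + D0)) ^ 24 : ℝ) =
        (2 * C * 2 ^ D0) ^ 24 * 2 ^ (1920 * m) := by
      rw [pow_add, show (2 * C * (2 ^ (80 * m) * 2 ^ D0) : ℝ) = (2 * C * 2 ^ D0) * 2 ^ (80 * m) by
        ring, mul_pow, ← pow_mul]
      congr 2
      ring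
    rw [h1]
    refine mul_le_mul_of_nonneg_left ?_ (by positivity)
    have h2 : 2 ^ (2000 * m) ≤ X := by
      refine le_trans (Nat.pow_le_pow_right (by norm_num) (show 2000 * m ≤ L by omega)) ?_
      exact Nat.pow_log_le_self 2 (by omega)
    have h3 : (2 : ℝ) ^ ((2000 * m : ℕ) : ℝ) ≤ X := by
      rw [Real.rpow_natCast]
      exact_mod_cast h2
    have h4 := Real.rpow_le_rpow (by positivity) h3 (show (0 : ℝ) ≤ 0.96 by norm_num)
    rw [← Real.rpow_mul (by norm_num)] at h4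
    have h5 : ((2000 * m : ℕ) : ℝ) * 0.96 = ((1920 * m : ℕ) : ℝ) := by
      push_cast
      ring
    rw [h5, Real.rpow_natCast] at h4
    exact le_trans h4 (Real.rpow_le_rpow_of_exponent_le hX1 (by norm_num))
  calc (({k : ℕ | k ≤ X ∧ k ∈ Bad}.ncard : ℕ) : ℝ)
      ≤ ((X / 2 ^ m : ℕ) : ℝ) + 1 + ((2 * C * 2 ^ (80 * m + D0)) ^ 24 + 1) := hb
    _ ≤ 4 * (X : ℝ) ^ (0.9995 : ℝ) + 1 + ((2 * C * 2 ^ D0) ^ 24 * (X : ℝ) ^ (0.9995 : ℝ) + 1) := by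
        linarith
    _ ≤ (4 + 2 + (2 * C * 2 ^ D0) ^ 24) * (X : ℝ) ^ (0.9995 : ℝ) := by
        linarith

end Pool.Agent.Work.MP_a11cf9_nt
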