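import Pool.Agent.Work.MP_a11cf9_nt.Defs

/-!
# Basic facts on the parity vectors of the `3x+1` map
-/

set_option autoImplicit false

namespace Pool.Agent.Work.MP_a11cf9_nt

theorem sInf_image_eq_iff (S : Set ℕ) (k : ℕ) :
    sInf ((fun k : ℕ => (k : ℕ∞)) '' S) = k ↔ k ∈ S ∧ ∀ j ∈ S, k ≤ j := by
  constructor
  · intro h
    have hne : S.Nonempty := by
      by_contra hS
      rw [Set.not_nonempty_iff_eq_empty] at hS
      rw [hS, Set.image_empty, sInf_empty] at h
      exact ENat.natCast_ne_top k h.symm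
    have h1 := csInf_mem (hne.image (fun k : ℕ => (k : ℕ∞)))
    rw [h] at h1
    obtain ⟨k', hk', hkk⟩ := h1
    have hkk' : k' = k := Nat.cast_injective (R := ℕ∞) hkk
    subst hkk'
    refine ⟨hk', fun j hj => ?_⟩
    have h2 : sInf ((fun k : ℕ => (k : ℕ∞)) '' S) ≤ (j : ℕ∞) := sInf_le ⟨j, hj, rfl⟩
    rw [h] at h2
    exact_mod_cast h2
  · rintro ⟨hk, hmin⟩
    apply le_antisymm
    · exact sInf_le ⟨k, hk, rfl⟩
    · refine le_sInf ?_
      rintro _ ⟨j, hj, rfl⟩
      exact Nat.cast_le.2 (hmin j hj)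

theorem kappa_eq_iff (n k : ℕ) : kappa n = k ↔
    (1 ≤ k ∧ 3 ^ odds n k < 2 ^ k) ∧ ∀ j, 1 ≤ j → j < k → 2 ^ j ≤ 3 ^ odds n j := by
  unfold kappa
  rw [sInf_image_eq_iff]
  refine and_congr Iff.rfl ⟨fun h j hj hjk => ?_, fun h j hj => ?_⟩
  · by_contra hc
    exact absurd (h j ⟨hj, not_le.1 hc⟩) (not_le.2 hjk)
  · by_contra hc
    exact absurd (h j hj.1 (not_le.1 hc)) (not_le.2 hj.2)

theorem sigma_eq_iff (n k : ℕ) : sigma n = k ↔
    (1 ≤ k ∧ T^[k] n < n) ∧ ∀ j, 1 ≤ j → j < k → n ≤ T^[j] n := by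
  unfold sigma
  rw [sInf_image_eq_iff]
  refine and_congr Iff.rfl ⟨fun h j hj hjk => ?_, fun h j hj => ?_⟩
  · by_contra hc
    exact absurd (h j ⟨hj, not_le.1 hc⟩) (not_le.2 hjk)
  · by_contra hc
    exact absurd (h j hj.1 (not_le.1 hc)) (not_le.2 hj.2)

theorem T_even {m : ℕ} (h : m % 2 = 0) : T m = m / 2 := by
  unfold T
  rw [if_pos h]

theorem T_odd {m : ℕ} (h : m % 2 = 1) : T m = (3 * m + 1) / 2 := by
  unfold T
  rw [if_neg (by omega)]

theorem T_pos {m : ℕ} (h : 1 ≤ m) : 1 ≤ T m := by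
  rcases Nat.mod_two_eq_zero_or_one m with h0 | h1
  · rw [T_even h0]; omega
  · rw [T_odd h1]; omega

theorem iter_pos {m : ℕ} (h : 1 ≤ m) (k : ℕ) : 1 ≤ T^[k] m := by
  induction k with
  | zero => exact h
  | succ k ih => rw [Function.iterate_succ_apply']; exact T_pos ih

theorem odds_eq_sum (n k : ℕ) : odds n k = ∑ i ∈ Finset.range k, T^[i] n % 2 := by
  unfold odds
  rw [Finset.card_filter]
  refine Finset.sum_congr rfl (fun i _ => ?_)
  rcases Nat.mod_two_eq_zero_or_one (T^[i] n) with h | h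
  · rw [h, if_neg (by omega)]
  · rw [h, if_pos rfl]

theorem odds_zero (n : ℕ) : odds n 0 = 0 := by
  rw [odds_eq_sum, Finset.sum_range_zero]

theorem odds_succ (n k : ℕ) : odds n (k + 1) = odds n k + T^[k] n % 2 := by
  rw [odds_eq_sum, odds_eq_sum, Finset.sum_range_succ]

theorem odds_succ' (n k : ℕ) : odds n (k + 1) = n % 2 + odds (T n) k := by
  rw [odds_eq_sum, odds_eq_sum, Finset.sum_range_succ']
  simp only [Function.iterate_succ_apply, Function.iterate_zero_apply]
  rw [add_comm]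

theorem odds_add (n s t : ℕ) : odds n (s + t) = odds n s + odds (T^[s] n) t := by
  induction t with
  | zero => rw [odds_zero, add_zero, add_zero]
  | succ t ih =>
    rw [← add_assoc, odds_succ, odds_succ, ih, add_assoc, ← Function.iterate_add_apply, add_comm s t]

theorem odds_mono (n : ℕ) {s t : ℕ} (h : s ≤ t) : odds n s ≤ odds n t := by
  obtain ⟨r, rfl⟩ := Nat.exists_eq_add_of_le h
  rw [odds_add]
  exact Nat.le_add_right _ _

/-- Upper bound for the iterates. -/
theorem two_pow_mul_iter_le (m J : ℕ) :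
    2 ^ J * T^[J] m + 3 ^ odds m J ≤ 3 ^ odds m J * (m + 2 ^ J) := by
  induction J with
  | zero => simp [odds_zero]
  | succ J ih =>
    rw [Function.iterate_succ_apply', odds_succ]
    rcases Nat.mod_two_eq_zero_or_one (T^[J] m) with h | h
    · rw [h, add_zero, T_even h]
      have h1 : 2 ^ (J + 1) * (T^[J] m / 2) = 2 ^ J * T^[J] m := by
        rw [pow_succ, mul_assoc]
        congr 1
        omega
      rw [h1]
      refine le_trans ih (Nat.mul_le_mul_left _ ?_)
      rw [pow_succ]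
      omega
    · rw [h, T_odd h]
      have h1 : 2 ^ (J + 1) * ((3 * T^[J] m + 1) / 2) = 2 ^ J * (3 * T^[J] m + 1) := by
        rw [pow_succ, mul_assoc]
        congr 1
        omega
      rw [h1, pow_succ 3, pow_succ 2]
      have h3 : 1 ≤ 3 ^ odds m J := Nat.one_le_pow _ _ (by norm_num)
      have h4 : 2 ^ J ≤ 3 ^ odds m J * 2 ^ J := Nat.le_mul_of_pos_left _ h3
      calc 2 ^ J * (3 * T^[J] m + 1) + 3 ^ odds m J * 3
          = 3 * (2 ^ J * T^[J] m + 3 ^ odds m J) + 2 ^ J := by ring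
        _ ≤ 3 * (3 ^ odds m J * (m + 2 ^ J)) + 3 * (3 ^ odds m J * 2 ^ J) := by omega
        _ = 3 ^ odds m J * 3 * (m + 2 ^ J * 2) := by ring

theorem iter_lt {m J : ℕ} (h : m < 2 ^ (J + 1)) : T^[J] m < 3 ^ (odds m J + 1) := by
  have h1 := two_pow_mul_iter_le m J
  have h3 : 1 ≤ 3 ^ odds m J := Nat.one_le_pow _ _ (by norm_num)
  have h2 : 2 ^ J * T^[J] m < 2 ^ J * 3 ^ (odds m J + 1) := by
    calc 2 ^ J * T^[J] m < 2 ^ J * T^[J] m + 3 ^ odds m J := by omega
      _ ≤ 3 ^ odds m J * (m + 2 ^ J) := h1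
      _ ≤ 3 ^ odds m J * (2 ^ (J + 1) + 2 ^ J) := Nat.mul_le_mul_left _ (by omega)
      _ = 2 ^ J * 3 ^ (odds m J + 1) := by ring
  exact lt_of_mul_lt_mul_left h2 (Nat.zero_le _)

/-- The number of odd iterates among the first `J` depends only on the residue modulo `2 ^ J`. -/
theorem odds_add_mul (J m t : ℕ) : odds (m + 2 ^ J * t) J = odds m J := by
  induction J generalizing m t with
  | zero => rw [odds_zero, odds_zero]
  | succ J ih =>
    rw [odds_succ', odds_succ']
    have hp : 2 ^ (J + 1) * t = 2 * (2 ^ J * t) := by rw [pow_succ]; ring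
    rcases Nat.mod_two_eq_zero_or_one m with h | h
    · have h1 : (m + 2 ^ (J + 1) * t) % 2 = 0 := by omega
      have h2 : T (m + 2 ^ (J + 1) * t) = T m + 2 ^ J * t := by
        rw [T_even h1, T_even h]
        omega
      rw [h1, h, h2, ih]
    · have h1 : (m + 2 ^ (J + 1) * t) % 2 = 1 := by omega
      have h2 : T (m + 2 ^ (J + 1) * t) = T m + 2 ^ J * (3 * t) := by
        have h3 : 2 ^ J * (3 * t) = 3 * (2 ^ J * t) := by ring
        rw [T_odd h1, T_odd h]
        omega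
      rw [h1, h, h2, ih]

theorem odds_mod (J m : ℕ) : odds (m % 2 ^ J) J = odds m J := by
  conv_rhs => rw [← Nat.mod_add_div m (2 ^ J)]
  rw [odds_add_mul]

theorem sum_range_two_mul {M : Type*} [AddCommMonoid M] (f : ℕ → M) (N : ℕ) :
    ∑ m ∈ Finset.range (2 * N), f m = ∑ u ∈ Finset.range N, (f (2 * u) + f (2 * u + 1)) := by
  induction N with
  | zero => simp
  | succ N ih =>
    rw [mul_add, mul_one, Finset.sum_range_succ, Finset.sum_range_succ, ih, Finset.sum_range_succ,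
      add_assoc]

theorem sum_affine {M : Type*} [AddCommMonoid M] (f : ℕ → M) (J : ℕ) :
    ∑ u ∈ Finset.range (2 ^ J), f ((3 * u + 2) % 2 ^ J) = ∑ u ∈ Finset.range (2 ^ J), f u := by
  have hpos : 0 < 2 ^ J := Nat.pos_of_ne_zero (by positivity)
  have hmaps : ∀ u ∈ Finset.range (2 ^ J), (3 * u + 2) % 2 ^ J ∈ Finset.range (2 ^ J) :=
    fun u _ => Finset.mem_range.2 (Nat.mod_lt _ hpos)
  have hinj : Set.InjOn (fun u => (3 * u + 2) % 2 ^ J) (Finset.range (2 ^ J) : Set ℕ) := by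
    intro u hu v hv huv
    have h1 : 3 * u + 2 ≡ 3 * v + 2 [MOD 2 ^ J] := huv
    have h2 : 3 * u ≡ 3 * v [MOD 2 ^ J] := Nat.ModEq.add_right_cancel' 2 h1
    have h3 : Nat.gcd (2 ^ J) 3 = 1 := Nat.Coprime.pow_left J (by norm_num)
    have h4 : u ≡ v [MOD 2 ^ J] := Nat.ModEq.cancel_left_of_coprime h3 h2
    have hu' : u < 2 ^ J := Finset.mem_range.1 (Finset.mem_coe.1 hu)
    have hv' : v < 2 ^ J := Finset.mem_range.1 (Finset.mem_coe.1 hv)
    rwa [Nat.ModEq, Nat.mod_eq_of_lt hu', Nat.mod_eq_of_lt hv'] at h4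
  have himg : (Finset.range (2 ^ J)).image (fun u => (3 * u + 2) % 2 ^ J) =
      Finset.range (2 ^ J) := by
    apply Finset.eq_of_subset_of_card_le
    · intro v hv
      obtain ⟨u, hu, rfl⟩ := Finset.mem_image.1 hv
      exact hmaps u hu
    · rw [Finset.card_image_of_injOn hinj]
  conv_rhs => rw [← himg]
  rw [Finset.sum_image hinj]

/-- The generating function of the number of odd iterates (Terras). -/
theorem sum_pow_odds (z : ℝ) (J : ℕ) :
    ∑ m ∈ Finset.range (2 ^ J), z ^ odds m J = (1 + z) ^ J := by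
  induction J with
  | zero => simp [odds_zero]
  | succ J ih =>
    rw [pow_succ, mul_comm (2 ^ J) 2, sum_range_two_mul, Finset.sum_add_distrib]
    have h1 : ∑ u ∈ Finset.range (2 ^ J), z ^ odds (2 * u) (J + 1) = (1 + z) ^ J := by
      rw [← ih]
      refine Finset.sum_congr rfl (fun u _ => ?_)
      have h2 : 2 * u % 2 = 0 := by omega
      have h3 : T (2 * u) = u := by rw [T_even h2]; omega
      rw [odds_succ', h2, h3, zero_add]
    have h4 : ∑ u ∈ Finset.range (2 ^ J), z ^ odds (2 * u + 1) (J + 1) = z * (1 + z) ^ J := by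
      rw [← ih, ← sum_affine (fun u => z ^ odds u J), Finset.mul_sum]
      refine Finset.sum_congr rfl (fun u _ => ?_)
      have h2 : (2 * u + 1) % 2 = 1 := by omega
      have h3 : T (2 * u + 1) = 3 * u + 2 := by rw [T_odd h2]; omega
      rw [odds_succ', h2, h3, odds_mod, pow_add, pow_one]
    rw [h1, h4, pow_succ]
    ring

theorem sum_pow_odds_Ico (z : ℝ) (J : ℕ) :
    ∑ m ∈ Finset.Ico (2 ^ J) (2 ^ (J + 1)), z ^ odds m J = (1 + z) ^ J := by
  rw [Finset.sum_Ico_eq_sum_range]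
  have h : 2 ^ (J + 1) - 2 ^ J = 2 ^ J := by rw [pow_succ]; omega
  rw [h, ← sum_pow_odds]
  refine Finset.sum_congr rfl (fun m _ => ?_)
  have h1 := odds_add_mul J m 1
  rw [mul_one, add_comm] at h1
  rw [h1]

/-- The Chernoff bound for the number of integers in a dyadic block with many odd iterates. -/
theorem card_many_odds (ρ : ℝ) (h0 : 1 / 2 ≤ ρ) (h1 : ρ < 1) (J : ℕ) :
    (((Finset.Ico (2 ^ J) (2 ^ (J + 1))).filter (fun m => ρ * J ≤ (odds m J : ℝ))).card : ℝ) ≤
      Real.exp (Real.binEntropy ρ * J) := by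
  have hρ : 0 < ρ := by linarith
  have h1ρ : 0 < 1 - ρ := by linarith
  set z : ℝ := ρ / (1 - ρ) with hz
  have hz1 : 1 ≤ z := by
    rw [hz, le_div_iff₀ h1ρ]
    linarith
  have hz0 : 0 < z := by linarith
  have hlog1 : Real.log (1 + z) = - Real.log (1 - ρ) := by
    have : 1 + z = (1 - ρ)⁻¹ := by
      rw [hz]
      field_simp
      ring
    rw [this, Real.log_inv]
  have hlogz : Real.log z = Real.log ρ - Real.log (1 - ρ) := by
    rw [hz, Real.log_div hρ.ne' h1ρ.ne']
  have key : (((Finset.Ico (2 ^ J) (2 ^ (J + 1))).filter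
      (fun m => ρ * J ≤ (odds m J : ℝ))).card : ℝ) * Real.exp (Real.log z * (ρ * J)) ≤
      (1 + z) ^ J := by
    rw [← sum_pow_odds_Ico, ← nsmul_eq_mul, ← Finset.sum_const]
    calc ∑ m ∈ (Finset.Ico (2 ^ J) (2 ^ (J + 1))).filter (fun m => ρ * J ≤ (odds m J : ℝ)),
          Real.exp (Real.log z * (ρ * J))
        ≤ ∑ m ∈ (Finset.Ico (2 ^ J) (2 ^ (J + 1))).filter (fun m => ρ * J ≤ (odds m J : ℝ)),
          z ^ odds m J := by
          refine Finset.sum_le_sum (fun m hm => ?_)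
          have hm' := (Finset.mem_filter.1 hm).2
          rw [← Real.rpow_natCast z, Real.rpow_def_of_pos hz0]
          exact Real.exp_le_exp.2 (mul_le_mul_of_nonneg_left hm' (Real.log_nonneg hz1))
      _ ≤ ∑ m ∈ Finset.Ico (2 ^ J) (2 ^ (J + 1)), z ^ odds m J :=
          Finset.sum_le_sum_of_subset_of_nonneg (Finset.filter_subset _ _)
            (fun m _ _ => pow_nonneg hz0.le _)
  have h1z : (1 + z) ^ J = Real.exp (Real.log (1 + z) * J) := by
    rw [← Real.rpow_natCast, Real.rpow_def_of_pos (by linarith)]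
  rw [h1z] at key
  have hfin : Real.binEntropy ρ * J = Real.log (1 + z) * J - Real.log z * (ρ * J) := by
    rw [Real.binEntropy, hlog1, hlogz, Real.log_inv, Real.log_inv]
    ring
  rw [hfin, Real.exp_sub, le_div_iff₀ (Real.exp_pos _)]
  exact key

end Pool.Agent.Work.MP_a11cf9_nt
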