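import Pool.Agent.Work.MP_a11cf9_nt.Key

/-!
# Trajectories with few circuits are short
-/

set_option autoImplicit false

namespace Pool.Agent.Work.MP_a11cf9_nt

/-- The number of circuits (maximal runs of odd iterates) which end before time `k`. -/
def circ (n k : ℕ) : ℕ :=
  ((Finset.range k).filter (fun i => T^[i] n % 2 = 1 ∧ T^[i + 1] n % 2 = 0)).card

theorem circ_zero (n : ℕ) : circ n 0 = 0 := rfl

theorem circ_succ (n k : ℕ) : circ n (k + 1) =
    circ n k + if T^[k] n % 2 = 1 ∧ T^[k + 1] n % 2 = 0 then 1 else 0 := by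
  unfold circ
  rw [Finset.range_add_one, Finset.filter_insert]
  split_ifs with h
  · rw [Finset.card_insert_of_notMem (by simp)]
  · rfl

theorem circ_succ_of_not {n k : ℕ} (h : ¬ (T^[k] n % 2 = 1 ∧ T^[k + 1] n % 2 = 0)) :
    circ n (k + 1) = circ n k := by
  rw [circ_succ, if_neg h, add_zero]

theorem circ_succ_of {n k : ℕ} (h : T^[k] n % 2 = 1 ∧ T^[k + 1] n % 2 = 0) :
    circ n (k + 1) = circ n k + 1 := by
  rw [circ_succ, if_pos h]

theorem one_lt_theta : 1 < Real.log 3 / Real.log 2 := by
  rw [lt_div_iff₀ log_two_pos, one_mul]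
  exact Real.log_lt_log (by norm_num) (by norm_num)

theorem le_of_dvd_run {x y r : ℕ} (h : 2 ^ r * (y + 1) = 3 ^ r * (x + 1)) :
    (r : ℝ) ≤ Real.log (x + 1) / Real.log 2 := by
  have h1 : 2 ^ r ∣ x + 1 := by
    have h2 : 2 ^ r ∣ 3 ^ r * (x + 1) := ⟨y + 1, h.symm⟩
    have h3 : Nat.Coprime (2 ^ r) (3 ^ r) := Nat.Coprime.pow r r (by norm_num)
    exact h3.dvd_of_dvd_mul_left h2
  have h4 : 2 ^ r ≤ x + 1 := Nat.le_of_dvd (by omega) h1
  have h5 : (2 : ℝ) ^ r ≤ (x : ℝ) + 1 := by exact_mod_cast h4
  have h6 := Real.log_le_log (by positivity) h5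
  rw [Real.log_pow] at h6
  rw [le_div_iff₀ log_two_pos]
  exact h6

theorem log_run {x y r : ℕ} (h : 2 ^ r * (y + 1) = 3 ^ r * (x + 1)) :
    Real.log (y + 1) / Real.log 2 =
      r * (Real.log 3 / Real.log 2 - 1) + Real.log (x + 1) / Real.log 2 := by
  have hl2 := log_two_pos
  have h1 : (2 : ℝ) ^ r * ((y : ℝ) + 1) = 3 ^ r * ((x : ℝ) + 1) := by exact_mod_cast h
  have h2 := congrArg Real.log h1
  have hy : (0 : ℝ) < (y : ℝ) + 1 := by positivity
  have hx : (0 : ℝ) < (x : ℝ) + 1 := by positivity
  rw [Real.log_mul (by positivity) hy.ne', Real.log_mul (by positivity) hx.ne', Real.log_pow,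
    Real.log_pow] at h2
  have h3 : Real.log ((y : ℝ) + 1) = r * Real.log 3 - r * Real.log 2 + Real.log ((x : ℝ) + 1) := by
    linarith
  rw [h3]
  field_simp

theorem two_mul_T_succ {x : ℕ} (h : x % 2 = 1) : 2 * (T x + 1) = 3 * (x + 1) := by
  rw [T_odd h]
  omega

theorem odds_circ_inv {n : ℕ} (k : ℕ) : ∃ s r : ℕ, k = s + r ∧
    Real.log ((T^[s] n : ℕ) + 1) / Real.log 2 ≤
      (Real.log 3 / Real.log 2) ^ circ n k * (Real.log (n + 1) / Real.log 2) ∧
    (odds n s : ℝ) ≤ ((Real.log 3 / Real.log 2) ^ circ n k - 1) / (Real.log 3 / Real.log 2 - 1) *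
      (Real.log (n + 1) / Real.log 2) ∧
    2 ^ r * (T^[k] n + 1) = 3 ^ r * (T^[s] n + 1) ∧ odds n k = odds n s + r ∧
    (1 ≤ r → T^[k] n % 2 = 1) := by
  have hl2 := log_two_pos
  set θ : ℝ := Real.log 3 / Real.log 2 with hθ
  have hθ1 : 1 < θ := one_lt_theta
  set L : ℝ := Real.log (n + 1) / Real.log 2 with hL
  induction k with
  | zero =>
    refine ⟨0, 0, rfl, ?_, ?_, ?_, ?_, ?_⟩
    · rw [circ_zero, pow_zero, one_mul]
      exact le_rfl
    · rw [circ_zero, pow_zero, odds_zero]
      simp
    · simp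
    · simp
    · intro h
      omega
  | succ k ih =>
    obtain ⟨s, r, hk, h1, h2, h3, h4, h5⟩ := ih
    set x := T^[k] n with hx
    have hTx : T^[k + 1] n = T x := by rw [hx, Function.iterate_succ_apply']
    rcases Nat.mod_two_eq_zero_or_one x with h | h
    · -- `x` even
      have hr : r = 0 := by
        by_contra hr
        have := h5 (by omega)
        omega
      subst hr
      have hks : k = s := by omega
      have hc : circ n (k + 1) = circ n k := circ_succ_of_not (fun hh => by omega)
      refine ⟨k + 1, 0, rfl, ?_, ?_, ?_, ?_, ?_⟩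
      · rw [hc, hTx]
        refine le_trans ?_ h1
        refine div_le_div_of_nonneg_right ?_ hl2.le
        rw [← hks, ← hx]
        refine Real.log_le_log (by positivity) ?_
        have h6 : T x ≤ x := by rw [T_even h]; omega
        have h7 : (T x : ℝ) ≤ (x : ℝ) := by exact_mod_cast h6
        linarith
      · rw [hc, odds_succ, ← hx, h, add_zero, hks]
        rw [hks] at h2
        exact h2
      · rw [pow_zero, pow_zero]
      · rw [add_zero]
      · intro h6
        omega
    · -- `x` odd
      have hrun : 2 ^ (r + 1) * (T x + 1) = 3 ^ (r + 1) * (T^[s] n + 1) := by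
        calc 2 ^ (r + 1) * (T x + 1) = 2 ^ r * (2 * (T x + 1)) := by ring
          _ = 2 ^ r * (3 * (x + 1)) := by rw [two_mul_T_succ h]
          _ = 3 * (2 ^ r * (x + 1)) := by ring
          _ = 3 * (3 ^ r * (T^[s] n + 1)) := by rw [h3]
          _ = 3 ^ (r + 1) * (T^[s] n + 1) := by ring
      have hodds : odds n (k + 1) = odds n s + (r + 1) := by
        rw [odds_succ, ← hx, h, h4]
        ring
      rcases Nat.mod_two_eq_zero_or_one (T x) with h' | h'
      · -- the run ends
        have hc : circ n (k + 1) = circ n k + 1 := circ_succ_of ⟨h, by rw [hTx]; exact h'⟩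
        have hle := le_of_dvd_run hrun
        have hlog := log_run hrun
        refine ⟨k + 1, 0, rfl, ?_, ?_, ?_, ?_, ?_⟩
        · rw [hc, hTx, hlog, pow_succ]
          have h6 : ((r + 1 : ℕ) : ℝ) * (θ - 1) ≤
              Real.log ((T^[s] n : ℕ) + 1) / Real.log 2 * (θ - 1) :=
            mul_le_mul_of_nonneg_right hle (by linarith)
          have h7 : Real.log ((T^[s] n : ℕ) + 1) / Real.log 2 * θ ≤ θ ^ circ n k * L * θ :=
            mul_le_mul_of_nonneg_right h1 (by linarith)
          calc ((r + 1 : ℕ) : ℝ) * (θ - 1) + Real.log ((T^[s] n : ℕ) + 1) / Real.log 2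
              ≤ Real.log ((T^[s] n : ℕ) + 1) / Real.log 2 * (θ - 1) +
                  Real.log ((T^[s] n : ℕ) + 1) / Real.log 2 := by linarith
            _ = Real.log ((T^[s] n : ℕ) + 1) / Real.log 2 * θ := by ring
            _ ≤ θ ^ circ n k * L * θ := h7
            _ = θ ^ circ n k * θ * L := by ring
        · rw [hc, hodds, Nat.cast_add, pow_succ]
          have h6 : (odds n s : ℝ) + ((r + 1 : ℕ) : ℝ) ≤
              (θ ^ circ n k - 1) / (θ - 1) * L + θ ^ circ n k * L :=
            add_le_add h2 (le_trans hle h1)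
          refine le_trans h6 (le_of_eq ?_)
          have h8 : θ - 1 ≠ 0 := by linarith
          field_simp
          ring
        · rw [pow_zero, pow_zero]
        · rw [add_zero]
        · intro h6
          omega
      · -- the run goes on
        have hc : circ n (k + 1) = circ n k :=
          circ_succ_of_not (fun hh => by rw [hTx] at hh; omega)
        refine ⟨s, r + 1, by omega, ?_, ?_, ?_, hodds, ?_⟩
        · rw [hc]; exact h1
        · rw [hc]; exact h2
        · rw [hTx]; exact hrun
        · intro _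
          rw [hTx]
          exact h'

/-- Few circuits: few odd iterates. -/
theorem odds_le_circ {n k : ℕ} (hn : 1 ≤ n) :
    (odds n k : ℝ) ≤ (Real.log 3 / Real.log 2) ^ (circ n k + 1) / (Real.log 3 / Real.log 2 - 1) *
      (Real.log (n + 1) / Real.log 2) := by
  have hl2 := log_two_pos
  obtain ⟨s, r, hk, h1, h2, h3, h4, -⟩ := odds_circ_inv (n := n) k
  set θ : ℝ := Real.log 3 / Real.log 2 with hθ
  have hθ1 : 1 < θ := one_lt_theta
  set L : ℝ := Real.log (n + 1) / Real.log 2 with hL
  have hn0 : (1 : ℝ) ≤ n := by exact_mod_cast hn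
  have hL0 : 0 ≤ L := div_nonneg (Real.log_nonneg (by linarith)) hl2.le
  have hle := le_of_dvd_run h3
  rw [h4, Nat.cast_add]
  calc (odds n s : ℝ) + (r : ℝ) ≤ (θ ^ circ n k - 1) / (θ - 1) * L + θ ^ circ n k * L :=
        add_le_add h2 (le_trans hle h1)
    _ = (θ ^ (circ n k + 1) - 1) / (θ - 1) * L := by
        have h8 : θ - 1 ≠ 0 := by linarith
        rw [pow_succ]
        field_simp
        ring
    _ ≤ θ ^ (circ n k + 1) / (θ - 1) * L := by
        refine mul_le_mul_of_nonneg_right ?_ hL0
        exact div_le_div_of_nonneg_right (by linarith) (by linarith)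

theorem sum_inv_circ_inv {n m : ℕ} (hm : 1 ≤ m) (k : ℕ) (hge : ∀ i < k, m ≤ T^[i] n) :
    ∑ i ∈ (Finset.range k).filter (fun i => T^[i] n % 2 = 1), 1 / (T^[i] n : ℝ) ≤
        3 * (circ n k : ℝ) / m ∨
      (T^[k] n % 2 = 1 ∧
        ∑ i ∈ (Finset.range k).filter (fun i => T^[i] n % 2 = 1), 1 / (T^[i] n : ℝ) ≤
          3 * ((circ n k : ℝ) + 1) / m - 3 / (T^[k] n : ℝ)) := by
  induction k with
  | zero =>
    left
    simp [circ_zero]
  | succ k ih =>
    have ih' := ih (fun i hi => hge i (by omega))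
    have hxm := hge k (by omega)
    have hTx : T^[k + 1] n = T (T^[k] n) := Function.iterate_succ_apply' T k n
    set x := T^[k] n with hx
    have hm0 : (0 : ℝ) < m := by exact_mod_cast hm
    have hxm' : (m : ℝ) ≤ (x : ℝ) := by exact_mod_cast hxm
    have hx0 : (0 : ℝ) < x := by linarith
    rw [Finset.range_add_one, Finset.filter_insert, ← hx]
    set S := ∑ i ∈ (Finset.range k).filter (fun i => T^[i] n % 2 = 1), 1 / (T^[i] n : ℝ) with hS
    rcases Nat.mod_two_eq_zero_or_one x with h | h
    · have hc : circ n (k + 1) = circ n k := circ_succ_of_not (fun hh => by omega)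
      rw [if_neg (by omega), hc]
      left
      rcases ih' with h1 | h1
      · exact h1
      · omega
    · have h1 : S ≤ 3 * ((circ n k : ℝ) + 1) / m - 3 / (x : ℝ) := by
        rcases ih' with h1 | h1
        · have h2 : 3 / (x : ℝ) ≤ 3 / m := div_le_div_of_nonneg_left (by norm_num) hm0 hxm'
          have h3 : 3 * ((circ n k : ℝ) + 1) / m = 3 * (circ n k : ℝ) / m + 3 / m := by
            rw [← add_div]
            ring
          linarith
        · exact h1.2
      rw [if_pos h, Finset.sum_insert (by simp), ← hx, ← hS]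
      have hy : (3 : ℝ) * x + 1 = 2 * (T x : ℝ) := by
        have h2 : 3 * x + 1 = 2 * T x := by rw [T_odd h]; omega
        exact_mod_cast h2
      have hy0 : (0 : ℝ) < (T x : ℝ) := by linarith
      have h2 : 3 / (T x : ℝ) ≤ 2 / (x : ℝ) := by
        rw [div_le_div_iff₀ hy0 hx0]
        linarith
      have h3 : 1 / (x : ℝ) + S ≤ 3 * ((circ n k : ℝ) + 1) / m - 3 / (T x : ℝ) := by
        have h4 : 3 / (x : ℝ) = 1 / (x : ℝ) + 2 / (x : ℝ) := by
          rw [← add_div]
          norm_num
        linarith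
      rcases Nat.mod_two_eq_zero_or_one (T x) with h' | h'
      · have hc : circ n (k + 1) = circ n k + 1 := circ_succ_of ⟨h, by rw [hTx]; exact h'⟩
        left
        rw [hc, Nat.cast_add, Nat.cast_one]
        have h4 : 0 < 3 / (T x : ℝ) := by positivity
        linarith
      · have hc : circ n (k + 1) = circ n k :=
          circ_succ_of_not (fun hh => by rw [hTx] at hh; omega)
        right
        rw [hc, hTx]
        exact ⟨h', h3⟩

/-- Few circuits: the sum of the reciprocals of the odd iterates is small. -/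
theorem sum_inv_odd_le_circ {n k m : ℕ} (hm : 1 ≤ m) (hge : ∀ i < k, m ≤ T^[i] n) :
    ∑ i ∈ (Finset.range k).filter (fun i => T^[i] n % 2 = 1), 1 / (T^[i] n : ℝ) ≤
      3 * (circ n k + 1) / m := by
  have hm0 : (0 : ℝ) < m := by exact_mod_cast hm
  rcases sum_inv_circ_inv hm k hge with h | h
  · refine le_trans h ?_
    exact div_le_div_of_nonneg_right (by linarith) hm0.le
  · have h1 : (0 : ℝ) ≤ 3 / (T^[k] n : ℝ) := by positivity
    linarith [h.2]

end Pool.Agent.Work.MP_a11cf9_nt
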