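import Pool.Agent.Work.MP_a11cf9_nt.Basic

/-!
# The number of elements of an injective piece of an orbit in a dyadic block
-/

set_option autoImplicit false

namespace Pool.Agent.Work.MP_a11cf9_nt

/-- The growth lemma. -/
theorem growth (ρ h g L : ℝ) (hL : 0 < L) (hρ : 0 ≤ ρ) (hρL : ρ * L < 1) (hg : 0 < g)
    (hhg : h ≤ g) :
    ∃ C : ℝ, 0 < C ∧ ∀ v : ℕ → ℝ, (∀ J, v J ≤ 2 ^ J) →
      (∀ J : ℕ, v J ≤ Real.exp (h * J) +
        ∑ i ∈ Finset.range (⌊(ρ * J + 1) * L⌋₊ + 1), v i + J) →
      ∀ J : ℕ, v J ≤ C * Real.exp (g * J) := by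
  set K : ℝ := Real.exp g / (Real.exp g - 1) with hK
  have hexpg : 1 < Real.exp g := by
    rw [Real.one_lt_exp_iff]
    exact hg
  have hKpos : 0 < K := div_pos (Real.exp_pos _) (by linarith)
  set D : ℝ := 1 - ρ * L with hD
  have hDpos : 0 < D := by rw [hD]; linarith
  set M : ℝ := max 1 (Real.log (3 * K) / g) with hM
  have hM1 : 1 ≤ M := le_max_left _ _
  have hM2 : K * Real.exp (-(g * M)) ≤ 1 / 3 := by
    have h1 : Real.log (3 * K) ≤ g * M := by
      have h2 : Real.log (3 * K) / g ≤ M := le_max_right _ _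
      rw [div_le_iff₀ hg] at h2
      linarith
    have h3 : 3 * K ≤ Real.exp (g * M) := by
      rw [← Real.log_le_iff_le_exp (by positivity)]
      exact h1
    rw [Real.exp_neg, ← div_eq_mul_inv, div_le_iff₀ (Real.exp_pos _)]
    linarith
  set J1 : ℕ := ⌈(L + M) / D⌉₊ with hJ1
  refine ⟨3 + 3 / g + 2 ^ J1, by positivity, fun v hv2 hv J => ?_⟩
  set C : ℝ := 3 + 3 / g + 2 ^ J1 with hC
  have hC1 : 3 + 3 / g ≤ C := by
    rw [hC]
    have : (0 : ℝ) ≤ 2 ^ J1 := by positivity
    linarith
  have hCpos : 0 < C := by positivity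
  induction J using Nat.strong_induction_on with
  | _ J ih =>
    by_cases hJ : J < J1
    · have h1 : v J ≤ 2 ^ J1 :=
        le_trans (hv2 J) (pow_le_pow_right₀ (by norm_num) hJ.le)
      have h2 : (1 : ℝ) ≤ Real.exp (g * J) := by
        rw [← Real.exp_zero]
        exact Real.exp_le_exp.2 (by positivity)
      have h3 : v J ≤ C := by
        rw [hC]
        have : 0 < 3 + 3 / g := by positivity
        linarith
      calc v J ≤ C * 1 := by rw [mul_one]; exact h3
        _ ≤ C * Real.exp (g * J) := mul_le_mul_of_nonneg_left h2 hCpos.le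
    · have hJ' : (L + M) / D ≤ J := by
        rw [not_lt] at hJ
        exact le_trans (Nat.le_ceil _) (by exact_mod_cast hJ)
      rw [div_le_iff₀ hDpos] at hJ'
      have hgap : M ≤ J - (ρ * J + 1) * L := by
        have : (J : ℝ) - (ρ * J + 1) * L = J * D - L := by rw [hD]; ring
        rw [this]
        linarith
      have hnn : 0 ≤ (ρ * J + 1) * L := by positivity
      have hfl : ((⌊(ρ * J + 1) * L⌋₊ : ℕ) : ℝ) ≤ (ρ * J + 1) * L := Nat.floor_le hnn
      set N : ℕ := ⌊(ρ * J + 1) * L⌋₊ with hN
      have hNJ : N < J := by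
        have : (N : ℝ) < J := by linarith
        exact_mod_cast this
      have hsum : ∑ i ∈ Finset.range (N + 1), v i ≤ C * (Real.exp (g * J) / 3) := by
        calc ∑ i ∈ Finset.range (N + 1), v i
            ≤ ∑ i ∈ Finset.range (N + 1), C * Real.exp g ^ i := by
              refine Finset.sum_le_sum (fun i hi => ?_)
              rw [Finset.mem_range] at hi
              have h1 := ih i (by omega)
              rw [← Real.exp_nat_mul, mul_comm (i : ℝ) g]
              exact h1
          _ = C * ((Real.exp g ^ (N + 1) - 1) / (Real.exp g - 1)) := by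
              rw [← Finset.mul_sum, geom_sum_eq (by linarith)]
          _ ≤ C * (Real.exp (g * J) / 3) := by
              refine mul_le_mul_of_nonneg_left ?_ hCpos.le
              have h1 : (Real.exp g ^ (N + 1) - 1) / (Real.exp g - 1) ≤ K * Real.exp (g * N) := by
                rw [hK, div_mul_eq_mul_div]
                refine div_le_div_of_nonneg_right ?_ (by linarith)
                have : Real.exp g ^ (N + 1) = Real.exp g * Real.exp (g * N) := by
                  rw [pow_succ, ← Real.exp_nat_mul, mul_comm (N : ℝ) g, mul_comm]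
                rw [this]
                linarith
              refine le_trans h1 ?_
              have h2 : Real.exp (g * N) ≤ Real.exp (g * J) * Real.exp (-(g * M)) := by
                rw [← Real.exp_add]
                refine Real.exp_le_exp.2 ?_
                have : g * M ≤ g * (J - N) := by
                  refine mul_le_mul_of_nonneg_left ?_ hg.le
                  linarith
                linarith
              calc K * Real.exp (g * N) ≤ K * (Real.exp (g * J) * Real.exp (-(g * M))) :=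
                    mul_le_mul_of_nonneg_left h2 hKpos.le
                _ = (K * Real.exp (-(g * M))) * Real.exp (g * J) := by ring
                _ ≤ 1 / 3 * Real.exp (g * J) :=
                    mul_le_mul_of_nonneg_right hM2 (Real.exp_pos _).le
                _ = Real.exp (g * J) / 3 := by ring
      have hexp : Real.exp (h * J) ≤ Real.exp (g * J) :=
        Real.exp_le_exp.2 (mul_le_mul_of_nonneg_right hhg (Nat.cast_nonneg _))
      have hlin : (J : ℝ) ≤ 1 / g * Real.exp (g * J) := by
        have h1 := Real.add_one_le_exp (g * J)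
        rw [one_div, inv_mul_eq_div, le_div_iff₀ hg]
        linarith
      have h2 := hv J
      have h3 : (1 + 1 / g + C / 3) * Real.exp (g * J) ≤ C * Real.exp (g * J) := by
        refine mul_le_mul_of_nonneg_right ?_ (Real.exp_pos _).le
        have : 3 / g = 3 * (1 / g) := by ring
        have h4 : 0 < 1 / g := by positivity
        linarith
      calc v J ≤ Real.exp (h * J) + ∑ i ∈ Finset.range (N + 1), v i + J := h2
        _ ≤ Real.exp (g * J) + C * (Real.exp (g * J) / 3) + 1 / g * Real.exp (g * J) := by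
            linarith
        _ = (1 + 1 / g + C / 3) * Real.exp (g * J) := by ring
        _ ≤ C * Real.exp (g * J) := h3

/-- The number of indices `s ≤ i < t` with `T^(i)(n)` in the dyadic block `[2^J, 2^(J+1))`. -/
def blk (n s t J : ℕ) : ℕ := ((Finset.Ico s t).filter (fun i => Nat.log 2 (T^[i] n) = J)).card

theorem log_eq_iff' {m J : ℕ} (hm : 1 ≤ m) :
    Nat.log 2 m = J ↔ 2 ^ J ≤ m ∧ m < 2 ^ (J + 1) := by
  rw [Nat.log_eq_iff (Or.inr ⟨by norm_num, by omega⟩)]

theorem blk_le_two_pow {n s t : ℕ} (hn : 1 ≤ n)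
    (hinj : Set.InjOn (fun i => T^[i] n) (Finset.Ico s t : Set ℕ)) (J : ℕ) :
    blk n s t J ≤ 2 ^ J := by
  have h : blk n s t J ≤ (Finset.Ico (2 ^ J) (2 ^ (J + 1))).card := by
    refine Finset.card_le_card_of_injOn (fun i => T^[i] n) (fun i hi => ?_) (fun i hi j hj hij => ?_)
    · rw [Finset.mem_coe, Finset.mem_filter] at hi
      rw [Finset.mem_coe, Finset.mem_Ico]
      exact (log_eq_iff' (iter_pos hn i)).1 hi.2
    · rw [Finset.mem_coe, Finset.mem_filter] at hi hj
      exact hinj (Finset.mem_coe.2 hi.1) (Finset.mem_coe.2 hj.1) hij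
  rw [Nat.card_Ico, pow_succ] at h
  omega

theorem blk_le {ρ : ℝ} (h0 : 1 / 2 ≤ ρ) (h1 : ρ < 1) {n s t : ℕ} (hn : 1 ≤ n)
    (hinj : Set.InjOn (fun i => T^[i] n) (Finset.Ico s t : Set ℕ)) (J : ℕ) :
    (blk n s t J : ℝ) ≤ Real.exp (Real.binEntropy ρ * J) +
      ∑ i ∈ Finset.range (⌊(ρ * J + 1) * (Real.log 3 / Real.log 2)⌋₊ + 1),
        (blk n s t i : ℝ) + J := by
  classical
  set N : ℕ := ⌊(ρ * J + 1) * (Real.log 3 / Real.log 2)⌋₊ with hN
  set F := (Finset.Ico s t).filter (fun i => Nat.log 2 (T^[i] n) = J) with hF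
  have hcover : F ⊆ F.filter (fun i => ρ * J ≤ (odds (T^[i] n) J : ℝ)) ∪
      (F.filter (fun i => i + J < t ∧ ¬ ρ * J ≤ (odds (T^[i] n) J : ℝ)) ∪
        F.filter (fun i => t ≤ i + J)) := by
    intro i hi
    simp only [Finset.mem_union, Finset.mem_filter, hi, true_and]
    by_cases ha : ρ * J ≤ (odds (T^[i] n) J : ℝ)
    · exact Or.inl ha
    · by_cases hb : i + J < t
      · exact Or.inr (Or.inl ⟨hb, ha⟩)
      · exact Or.inr (Or.inr (not_lt.1 hb))
  have hA : ((F.filter (fun i => ρ * J ≤ (odds (T^[i] n) J : ℝ))).card : ℝ) ≤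
      Real.exp (Real.binEntropy ρ * J) := by
    refine le_trans ?_ (card_many_odds ρ h0 h1 J)
    have : (F.filter (fun i => ρ * J ≤ (odds (T^[i] n) J : ℝ))).card ≤
        ((Finset.Ico (2 ^ J) (2 ^ (J + 1))).filter (fun m => ρ * J ≤ (odds m J : ℝ))).card := by
      refine Finset.card_le_card_of_injOn (fun i => T^[i] n) (fun i hi => ?_)
        (fun i hi j hj hij => ?_)
      · rw [Finset.mem_coe, Finset.mem_filter, hF, Finset.mem_filter] at hi
        rw [Finset.mem_coe, Finset.mem_filter, Finset.mem_Ico]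
        exact ⟨(log_eq_iff' (iter_pos hn i)).1 hi.1.2, hi.2⟩
      · rw [Finset.mem_coe, Finset.mem_filter, hF, Finset.mem_filter] at hi hj
        exact hinj (Finset.mem_coe.2 hi.1.1) (Finset.mem_coe.2 hj.1.1) hij
    exact_mod_cast this
  have hB : (F.filter (fun i => i + J < t ∧ ¬ ρ * J ≤ (odds (T^[i] n) J : ℝ))).card ≤
      ∑ l ∈ Finset.range (N + 1), blk n s t l := by
    have hB1 : (F.filter (fun i => i + J < t ∧ ¬ ρ * J ≤ (odds (T^[i] n) J : ℝ))).card ≤
        ((Finset.Ico s t).filter (fun i => Nat.log 2 (T^[i] n) ∈ Finset.range (N + 1))).card := by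
      refine Finset.card_le_card_of_injOn (fun i => i + J) (fun i hi => ?_)
        (fun i _ j _ hij => by simpa using hij)
      rw [Finset.mem_coe, Finset.mem_filter, hF, Finset.mem_filter, Finset.mem_Ico] at hi
      obtain ⟨⟨⟨his, hit⟩, hlog⟩, hiJ, hρ⟩ := hi
      rw [Finset.mem_coe, Finset.mem_filter, Finset.mem_Ico, Finset.mem_range]
      refine ⟨⟨le_trans his (Nat.le_add_right i J), hiJ⟩, ?_⟩
      rw [Nat.lt_succ_iff]
      refine Nat.le_floor ?_
      have hx := ((log_eq_iff' (iter_pos hn i)).1 hlog).2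
      have hlt := iter_lt hx
      rw [← Function.iterate_add_apply, add_comm J i] at hlt
      have hpos := iter_pos hn (i + J)
      have hlog2 : 0 < Real.log 2 := Real.log_pos (by norm_num)
      have hlog3 : 0 < Real.log 3 := Real.log_pos (by norm_num)
      rw [← mul_div_assoc, le_div_iff₀ hlog2]
      have h2 : (2 : ℝ) ^ Nat.log 2 (T^[i + J] n) ≤ (T^[i + J] n : ℝ) := by
        exact_mod_cast Nat.pow_log_le_self 2 (by omega)
      have h3 : (T^[i + J] n : ℝ) ≤ 3 ^ (odds (T^[i] n) J + 1) := by
        exact_mod_cast hlt.le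
      have h4 := Real.log_le_log (by positivity) (le_trans h2 h3)
      rw [Real.log_pow, Real.log_pow] at h4
      refine le_trans h4 (mul_le_mul_of_nonneg_right ?_ hlog3.le)
      push_cast
      linarith
    refine le_trans hB1 ?_
    have hmaps : ∀ i ∈ (Finset.Ico s t).filter
        (fun i => Nat.log 2 (T^[i] n) ∈ Finset.range (N + 1)),
        (fun i => Nat.log 2 (T^[i] n)) i ∈ Finset.range (N + 1) :=
      fun i hi => (Finset.mem_filter.1 hi).2
    rw [Finset.card_eq_sum_card_fiberwise hmaps]
    refine Finset.sum_le_sum (fun l _ => Finset.card_le_card (fun i hi => ?_))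
    rw [Finset.mem_filter, Finset.mem_filter] at hi
    exact Finset.mem_filter.2 ⟨hi.1.1, hi.2⟩
  have hC : (F.filter (fun i => t ≤ i + J)).card ≤ J := by
    have : F.filter (fun i => t ≤ i + J) ⊆ Finset.Ico (t - J) t := by
      intro i hi
      rw [Finset.mem_filter, hF, Finset.mem_filter, Finset.mem_Ico] at hi
      rw [Finset.mem_Ico]
      omega
    have h2 := Finset.card_le_card this
    rw [Nat.card_Ico] at h2
    omega
  have hfin : (blk n s t J : ℝ) ≤
      ((F.filter (fun i => ρ * J ≤ (odds (T^[i] n) J : ℝ))).card : ℝ) +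
      (((F.filter (fun i => i + J < t ∧ ¬ ρ * J ≤ (odds (T^[i] n) J : ℝ))).card : ℝ) +
        ((F.filter (fun i => t ≤ i + J)).card : ℝ)) := by
    have h2 := Finset.card_le_card hcover
    have h3 := le_trans h2 (Finset.card_union_le _ _)
    have h4 := Finset.card_union_le
      (F.filter (fun i => i + J < t ∧ ¬ ρ * J ≤ (odds (T^[i] n) J : ℝ)))
      (F.filter (fun i => t ≤ i + J))
    have h5 : F.card ≤ (F.filter (fun i => ρ * J ≤ (odds (T^[i] n) J : ℝ))).card +
      ((F.filter (fun i => i + J < t ∧ ¬ ρ * J ≤ (odds (T^[i] n) J : ℝ))).card +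
        (F.filter (fun i => t ≤ i + J)).card) := by omega
    exact_mod_cast h5
  have hB' : ((F.filter (fun i => i + J < t ∧ ¬ ρ * J ≤ (odds (T^[i] n) J : ℝ))).card : ℝ) ≤
      ∑ l ∈ Finset.range (N + 1), (blk n s t l : ℝ) := by
    exact_mod_cast hB
  have hC' : ((F.filter (fun i => t ≤ i + J)).card : ℝ) ≤ J := by exact_mod_cast hC
  linarith

end Pool.Agent.Work.MP_a11cf9_nt
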