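import Mathlib

/-!
# Terras' coefficient stopping time conjecture: definitions
-/

set_option autoImplicit false

namespace Pool.Agent.Work.MP_a11cf9_nt

/-- The `3x+1` map. -/
def T (m : ℕ) : ℕ := if m % 2 = 0 then m / 2 else (3 * m + 1) / 2

/-- `a_k(n)`: the number of indices `j < k` such that `T^(j)(n)` is odd. -/
def odds (n k : ℕ) : ℕ := ((Finset.range k).filter (fun i => T^[i] n % 2 = 1)).card

/-- The coefficient stopping time: the least `k ≥ 1` with `3 ^ a_k(n) < 2 ^ k`, and `⊤` if there is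
no such `k`. -/
noncomputable def kappa (n : ℕ) : ℕ∞ :=
  sInf ((fun k : ℕ => (k : ℕ∞)) '' {k : ℕ | 1 ≤ k ∧ 3 ^ odds n k < 2 ^ k})

/-- The stopping time: the least `k ≥ 1` with `T^(k)(n) < n`, and `⊤` if there is no such `k`. -/
noncomputable def sigma (n : ℕ) : ℕ∞ :=
  sInf ((fun k : ℕ => (k : ℕ∞)) '' {k : ℕ | 1 ≤ k ∧ T^[k] n < n})

end Pool.Agent.Work.MP_a11cf9_nt
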