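import Pool.Agent.Work.MP_a11cf9_nt.Num

/-!
# The set of the values `k` of the coefficient stopping time with a counterexample has density zero
-/

set_option autoImplicit false

namespace Pool.Agent.Work.MP_a11cf9_nt

open Real

/-- Counting separated sets. -/
theorem card_separated {S : Set ℕ} {D X : ℕ} (hD : 1 ≤ D) (hX : ∀ k ∈ S, k ≤ X)
    (hsep : ∀ k ∈ S, ∀ k' ∈ S, k < k' → D ≤ k' - k) : S.ncard ≤ X / D + 1 := by
  have h1 : S.ncard ≤ ((Finset.range (X / D + 1) : Finset ℕ) : Set ℕ).ncard := by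
    refine Set.ncard_le_ncard_of_injOn (fun k => k / D) (fun k hk => ?_) (fun k hk k' hk' h => ?_)
      (Finset.finite_toSet _)
    · rw [Finset.mem_coe, Finset.mem_range, Nat.lt_succ_iff]
      exact Nat.div_le_div_right (hX k hk)
    · have aux : ∀ k ∈ S, ∀ k' ∈ S, k < k' → k / D = k' / D → False := by
        intro k hk k' hk' hlt he
        have h2 := hsep k hk k' hk' hlt
        have h3 := Nat.div_add_mod k D
        have h4 := Nat.div_add_mod k' D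
        have h5 := Nat.mod_lt k (show 0 < D by omega)
        have h6 := Nat.mod_lt k' (show 0 < D by omega)
        rw [he] at h3
        omega
      rcases lt_trichotomy k k' with hlt | heq | hgt
      · exact (aux k hk k' hk' hlt h).elim
      · exact heq
      · exact (aux k' hk' k hk hgt h.symm).elim
  rwa [Set.ncard_coe_finset, Finset.card_range] at h1

theorem two_pow_ne_three_pow {d e : ℕ} (hd : 1 ≤ d) : 2 ^ d ≠ 3 ^ e := by
  intro h
  have h1 : 2 ∣ 3 ^ e := by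
    rw [← h]
    exact dvd_pow_self 2 (by omega)
  have h2 : 2 ∣ 3 := Nat.Prime.dvd_of_dvd_pow Nat.prime_two h1
  omega

/-- Exponents of powers of two just above a power of three are far from each other. -/
theorem gap {D k k' a a' : ℕ} (hkk : k < k') (h1 : 3 ^ a < 2 ^ k)
    (h2 : 2 ^ D * 2 ^ k < (2 ^ D + 1) * 3 ^ a) (h1' : 3 ^ a' < 2 ^ k')
    (h2' : 2 ^ D * 2 ^ k' < (2 ^ D + 1) * 3 ^ a') : D < k' - k := by
  obtain ⟨d, rfl⟩ := Nat.exists_eq_add_of_lt hkk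
  have hd : k + d + 1 - k = d + 1 := by omega
  rw [hd]
  have hD1 : 1 ≤ 2 ^ D := Nat.one_le_pow _ _ (by norm_num)
  have haa : a < a' := by
    by_contra hc
    rw [not_lt] at hc
    have h3 : 3 ^ a' ≤ 3 ^ a := Nat.pow_le_pow_right (by norm_num) hc
    have h4 : 2 ^ D * 2 ^ (k + d + 1) < (2 ^ D + 1) * 2 ^ k := by
      calc 2 ^ D * 2 ^ (k + d + 1) < (2 ^ D + 1) * 3 ^ a' := h2'
        _ ≤ (2 ^ D + 1) * 3 ^ a := Nat.mul_le_mul_left _ h3
        _ ≤ (2 ^ D + 1) * 2 ^ k := Nat.mul_le_mul_left _ h1.le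
    have h5 : (2 ^ D * 2) * 2 ^ k ≤ 2 ^ D * 2 ^ (k + d + 1) := by
      rw [mul_assoc]
      refine Nat.mul_le_mul_left _ ?_
      rw [show k + d + 1 = k + 1 + d by omega, pow_add, pow_succ]
      have : 1 ≤ 2 ^ d := Nat.one_le_pow _ _ (by norm_num)
      nlinarith [Nat.pos_of_ne_zero (show 2 ^ k ≠ 0 by positivity)]
    have h6 : (2 ^ D * 2) * 2 ^ k < (2 ^ D + 1) * 2 ^ k := lt_of_le_of_lt h5 h4
    have h7 := lt_of_mul_lt_mul_right h6 (Nat.zero_le _)
    omega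
  obtain ⟨e, rfl⟩ := Nat.exists_eq_add_of_lt haa
  set P := 2 ^ (d + 1) with hP
  set Q := 3 ^ (e + 1) with hQ
  have hPk : 2 ^ (k + d + 1) = P * 2 ^ k := by rw [hP, ← pow_add]; congr 1; omega
  have hQa : 3 ^ (a + e + 1) = Q * 3 ^ a := by rw [hQ, ← pow_add]; congr 1; omega
  rw [hPk, hQa] at h1' h2'
  have h3a : 0 < 3 ^ a := by positivity
  -- 3^(e+1) 2^D < 2^(d+1) (2^D + 1)
  have hQ1 : 2 ^ D * Q < (2 ^ D + 1) * P := by
    have h4 : (2 ^ D * Q) * 3 ^ a < ((2 ^ D + 1) * P) * 3 ^ a := by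
      calc (2 ^ D * Q) * 3 ^ a = 2 ^ D * (Q * 3 ^ a) := by ring
        _ < 2 ^ D * (P * 2 ^ k) := Nat.mul_lt_mul_of_pos_left h1' hD1
        _ = P * (2 ^ D * 2 ^ k) := by ring
        _ ≤ P * ((2 ^ D + 1) * 3 ^ a) := Nat.mul_le_mul_left _ h2.le
        _ = ((2 ^ D + 1) * P) * 3 ^ a := by ring
    exact lt_of_mul_lt_mul_right h4 (Nat.zero_le _)
  have hP1 : 2 ^ D * P < (2 ^ D + 1) * Q := by
    have h4 : (2 ^ D * P) * 3 ^ a < ((2 ^ D + 1) * Q) * 3 ^ a := by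
      calc (2 ^ D * P) * 3 ^ a ≤ (2 ^ D * P) * 2 ^ k := Nat.mul_le_mul_left _ h1.le
        _ = 2 ^ D * (P * 2 ^ k) := by ring
        _ < (2 ^ D + 1) * (Q * 3 ^ a) := h2'
        _ = ((2 ^ D + 1) * Q) * 3 ^ a := by ring
    exact lt_of_mul_lt_mul_right h4 (Nat.zero_le _)
  have hne : P ≠ Q := two_pow_ne_three_pow (by omega)
  have hfin : 2 ^ D < P := by
    rcases lt_or_gt_of_ne hne with h | h
    · have h5 : P + 1 ≤ Q := h
      have h6 : 2 ^ D * (P + 1) ≤ 2 ^ D * Q := Nat.mul_le_mul_left _ h5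
      have h7 : 2 ^ D * P + 2 ^ D < 2 ^ D * P + P := by
        calc 2 ^ D * P + 2 ^ D = 2 ^ D * (P + 1) := by ring
          _ ≤ 2 ^ D * Q := h6
          _ < (2 ^ D + 1) * P := hQ1
          _ = 2 ^ D * P + P := by ring
      omega
    · have h5 : Q + 1 ≤ P := h
      have h6 : 2 ^ D * (Q + 1) ≤ 2 ^ D * P := Nat.mul_le_mul_left _ h5
      have h7 : 2 ^ D * Q + 2 ^ D < 2 ^ D * Q + Q := by
        calc 2 ^ D * Q + 2 ^ D = 2 ^ D * (Q + 1) := by ring
          _ ≤ 2 ^ D * P := h6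
          _ < (2 ^ D + 1) * Q := hP1
          _ = 2 ^ D * Q + Q := by ring
      omega
  exact (Nat.pow_lt_pow_iff_right (by norm_num)).1 hfin

/-- The set of all `k` such that the conjecture fails for some `n` with `κ(n) = k`. -/
def Bad : Set ℕ := {k : ℕ | ∃ n : ℕ, 2 ≤ n ∧ kappa n = k ∧ sigma n ≠ k}

theorem bad_count_aux {C : ℝ} (hC : 0 < C)
    (hmain : ∀ n k : ℕ, 2 ≤ n → kappa n = k → sigma n ≠ k →
      k * Real.log 2 - odds n k * Real.log 3 ≤ C * (n : ℝ) ^ (-(1 / 25) : ℝ))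
    {D : ℕ} (hD : 1 ≤ D) (X : ℕ) :
    (({k : ℕ | k ≤ X ∧ k ∈ Bad}.ncard : ℕ) : ℝ) ≤
      ((X / D : ℕ) : ℝ) + 1 + ((2 * C * 2 ^ D) ^ 25 + 1) := by
  classical
  set S1 : Set ℕ := {k : ℕ | k ≤ X ∧ ∃ n : ℕ, 2 ≤ n ∧ kappa n = k ∧ sigma n ≠ k ∧
    (2 ^ D + 1) * 3 ^ odds n k ≤ 2 ^ D * 2 ^ k} with hS1
  set S2 : Set ℕ := {k : ℕ | k ≤ X ∧ ∃ n : ℕ, 2 ≤ n ∧ kappa n = k ∧ sigma n ≠ k ∧
    2 ^ D * 2 ^ k < (2 ^ D + 1) * 3 ^ odds n k} with hS2
  have hfin : ∀ S : Set ℕ, (∀ k ∈ S, k ≤ X) → S.Finite := fun S hS =>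
    (Set.finite_Iic X).subset (fun k hk => hS k hk)
  have hcov : {k : ℕ | k ≤ X ∧ k ∈ Bad} ⊆ S1 ∪ S2 := by
    rintro k ⟨hkX, n, hn, hk, hs⟩
    rcases le_or_gt ((2 ^ D + 1) * 3 ^ odds n k) (2 ^ D * 2 ^ k) with h | h
    · exact Or.inl ⟨hkX, n, hn, hk, hs, h⟩
    · exact Or.inr ⟨hkX, n, hn, hk, hs, h⟩
  have hS1f : S1.Finite := hfin S1 (fun k hk => hk.1)
  have hS2f : S2.Finite := hfin S2 (fun k hk => hk.1)
  have h12 : {k : ℕ | k ≤ X ∧ k ∈ Bad}.ncard ≤ S1.ncard + S2.ncard :=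
    le_trans (Set.ncard_le_ncard hcov (hS1f.union hS2f)) (Set.ncard_union_le _ _)
  have hc2 : S2.ncard ≤ X / D + 1 := by
    refine card_separated hD (fun k hk => hk.1) ?_
    rintro k ⟨-, n, -, hk, -, h⟩ k' ⟨-, n', -, hk', -, h'⟩ hlt
    exact (gap hlt ((kappa_eq_iff n k).1 hk).1.2 h ((kappa_eq_iff n' k').1 hk').1.2 h').le
  have hc1 : (S1.ncard : ℝ) ≤ (2 * C * 2 ^ D) ^ 25 + 1 := by
    set N : ℕ := ⌊(2 * C * 2 ^ D : ℝ) ^ 25⌋₊ with hN
    have hex : ∀ k ∈ S1, ∃ n : ℕ, kappa n = k ∧ n ≤ N := by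
      rintro k ⟨-, n, hn, hk, hs, h⟩
      refine ⟨n, hk, Nat.le_floor ?_⟩
      have hn0 : (0 : ℝ) < n := by exact_mod_cast (by omega : 0 < n)
      have h1 := hmain n k hn hk hs
      have h2D : (0 : ℝ) < 2 ^ D := by positivity
      have h2 : Real.log (1 + 1 / 2 ^ D) ≤ k * Real.log 2 - odds n k * Real.log 3 := by
        have h3 : (1 + 1 / (2 : ℝ) ^ D) * 3 ^ odds n k ≤ 2 ^ k := by
          have h4 : ((2 : ℝ) ^ D + 1) * 3 ^ odds n k ≤ 2 ^ D * 2 ^ k := by exact_mod_cast h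
          have h5 : (1 + 1 / (2 : ℝ) ^ D) = (2 ^ D + 1) / 2 ^ D := by field_simp
          rw [h5, div_mul_eq_mul_div, div_le_iff₀ h2D]
          linarith
        have h6 := Real.log_le_log (by positivity) h3
        rw [Real.log_mul (by positivity) (by positivity), Real.log_pow, Real.log_pow] at h6
        linarith
      have h3 : 1 / (2 * 2 ^ D : ℝ) ≤ Real.log (1 + 1 / 2 ^ D) := by
        have h4 := Real.one_sub_inv_le_log_of_pos (show (0 : ℝ) < 1 + 1 / 2 ^ D by positivity)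
        have h5 : 1 / (2 * 2 ^ D : ℝ) ≤ 1 - (1 + 1 / (2 : ℝ) ^ D)⁻¹ := by
          have h6 : 1 - (1 + 1 / (2 : ℝ) ^ D)⁻¹ = 1 / (2 ^ D + 1) := by
            field_simp
            ring
          rw [h6]
          have h7 : (1 : ℝ) ≤ 2 ^ D := one_le_pow₀ (by norm_num)
          exact one_div_le_one_div_of_le (by positivity) (by linarith)
        linarith
      have h4 : 1 / (2 * 2 ^ D : ℝ) ≤ C * (n : ℝ) ^ (-(1 / 25) : ℝ) := by linarith
      have h5 : (n : ℝ) ^ ((1 / 25 : ℝ)) ≤ 2 * C * 2 ^ D := by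
        rw [Real.rpow_neg hn0.le] at h4
        have h6 : (0 : ℝ) < (n : ℝ) ^ ((1 / 25 : ℝ)) := Real.rpow_pos_of_pos hn0 _
        rw [← div_eq_mul_inv, div_le_div_iff₀ (by positivity) h6] at h4
        linarith
      have h6 : (n : ℝ) = ((n : ℝ) ^ ((1 / 25 : ℝ))) ^ 25 := by
        rw [← Real.rpow_natCast, ← Real.rpow_mul hn0.le]
        norm_num
      rw [h6]
      exact pow_le_pow_left₀ (Real.rpow_nonneg hn0.le _) h5 25
    choose! f hf using hex
    have h7 : S1.ncard ≤ ((Finset.range (N + 1) : Finset ℕ) : Set ℕ).ncard := by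
      refine Set.ncard_le_ncard_of_injOn f (fun k hk => ?_) (fun k hk k' hk' h => ?_)
        (Finset.finite_toSet _)
      · rw [Finset.mem_coe, Finset.mem_range, Nat.lt_succ_iff]
        exact (hf k hk).2
      · have h8 := (hf k hk).1
        rw [h, (hf k' hk').1] at h8
        exact (Nat.cast_injective (R := ℕ∞) h8).symm
    rw [Set.ncard_coe_finset, Finset.card_range] at h7
    have h8 : (N : ℝ) ≤ (2 * C * 2 ^ D) ^ 25 := Nat.floor_le (by positivity)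
    have h9 : (S1.ncard : ℝ) ≤ (N : ℝ) + 1 := by exact_mod_cast h7
    linarith
  have h13 : (({k : ℕ | k ≤ X ∧ k ∈ Bad}.ncard : ℕ) : ℝ) ≤ (S1.ncard : ℝ) + (S2.ncard : ℝ) := by
    exact_mod_cast h12
  have h14 : (S2.ncard : ℝ) ≤ ((X / D : ℕ) : ℝ) + 1 := by exact_mod_cast hc2
  linarith

theorem bad_count : ∃ C : ℝ, ∀ X : ℕ, 2 ≤ X →
    (({k : ℕ | k ≤ X ∧ k ∈ Bad}.ncard : ℕ) : ℝ) ≤ C * X / Real.log X := by
  have h0 : 0 < cexp := lt_trans (by norm_num) cexp_gt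
  obtain ⟨C, hC, hmain⟩ := main_ineq (c := 1 / 25) (lt_trans (by norm_num) cexp_gt) h0
  refine ⟨302 + 2 * (2 * C) ^ 25, fun X hX => ?_⟩
  have hl2 := log_two_pos
  have hl2' : Real.log 2 < 0.7 := lt_trans Real.log_two_lt_d9 (by norm_num)
  have hl2'' : 0.69 < Real.log 2 := lt_trans (by norm_num) Real.log_two_gt_d9
  have hX2 : (2 : ℝ) ≤ X := by exact_mod_cast hX
  have hX0 : (0 : ℝ) < X := by linarith
  have hlogX : 0 < Real.log X := Real.log_pos (by linarith)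
  have htriv : (({k : ℕ | k ≤ X ∧ k ∈ Bad}.ncard : ℕ) : ℝ) ≤ X := by
    have h1 : {k : ℕ | k ≤ X ∧ k ∈ Bad}.ncard ≤ ((Finset.Icc 1 X : Finset ℕ) : Set ℕ).ncard := by
      refine Set.ncard_le_ncard (fun k hk => ?_) (Finset.finite_toSet _)
      obtain ⟨hkX, n, -, hk, -⟩ := hk
      rw [Finset.mem_coe, Finset.mem_Icc]
      exact ⟨((kappa_eq_iff n k).1 hk).1.1, hkX⟩
    rw [Set.ncard_coe_finset, Nat.card_Icc, Nat.add_sub_cancel] at h1
    exact_mod_cast h1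
  rw [le_div_iff₀ hlogX]
  have hCC : 0 ≤ 2 * (2 * C) ^ 25 := by positivity
  set L : ℕ := Nat.log 2 X with hL
  have hLle : (L : ℝ) * Real.log 2 ≤ Real.log X := by
    have h1 : (2 : ℝ) ^ L ≤ X := by exact_mod_cast Nat.pow_log_le_self 2 (by omega)
    have h2 := Real.log_le_log (by positivity) h1
    rwa [Real.log_pow] at h2
  have hLge : Real.log X ≤ (L + 1) * Real.log 2 := by
    have h1 : (X : ℝ) ≤ 2 ^ (L + 1) := by
      exact_mod_cast (Nat.lt_pow_succ_log_self (by norm_num) X).le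
    have h2 := Real.log_le_log hX0 h1
    rw [Real.log_pow] at h2
    push_cast at h2
    exact h2
  rcases Nat.lt_or_ge L 50 with h50 | h50
  · have h1 : (L : ℝ) + 1 ≤ 50 := by exact_mod_cast h50
    have h2 : Real.log X ≤ 35 := by nlinarith
    calc (({k : ℕ | k ≤ X ∧ k ∈ Bad}.ncard : ℕ) : ℝ) * Real.log X ≤ X * 35 :=
          mul_le_mul htriv h2 hlogX.le hX0.le
      _ ≤ (302 + 2 * (2 * C) ^ 25) * X := by nlinarith
  · set D : ℕ := L / 50 with hD
    have hD1 : 1 ≤ D := by omega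
    have hb := bad_count_aux hC hmain hD1 X
    have hDL : (L : ℝ) ≤ 100 * D := by
      have : L ≤ 100 * D := by omega
      exact_mod_cast this
    have hD0 : (0 : ℝ) < D := by exact_mod_cast hD1
    have hlogD : Real.log X ≤ 100 * D := by
      have h1 : (1 : ℝ) ≤ D := by exact_mod_cast hD1
      nlinarith
    have hXD : ((X / D : ℕ) : ℝ) * Real.log X ≤ 100 * X := by
      have h1 : ((X / D : ℕ) : ℝ) ≤ X / D := Nat.cast_div_le
      calc ((X / D : ℕ) : ℝ) * Real.log X ≤ (X / D : ℝ) * (100 * D) :=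
            mul_le_mul h1 hlogD hlogX.le (by positivity)
        _ = 100 * X := by field_simp
    have hlogle : Real.log X ≤ 2 * Real.sqrt X := by
      have h1 : Real.log X = 2 * Real.log (Real.sqrt X) := by
        rw [Real.log_sqrt hX0.le]
        ring
      have h2 := Real.log_le_sub_one_of_pos (Real.sqrt_pos.2 hX0)
      rw [h1]
      linarith
    have hsq : Real.sqrt X * Real.sqrt X = X := Real.mul_self_sqrt hX0.le
    have hs1 : 1 ≤ Real.sqrt X := by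
      rw [Real.one_le_sqrt]
      linarith
    have hlogX' : Real.log X ≤ 2 * X := by nlinarith
    have hpow : ((2 * C * 2 ^ D) ^ 25 : ℝ) ≤ (2 * C) ^ 25 * Real.sqrt X := by
      rw [mul_pow]
      refine mul_le_mul_of_nonneg_left ?_ (by positivity)
      apply Real.le_sqrt_of_sq_le
      rw [← pow_mul, ← pow_mul]
      have h1 : 2 ^ (D * (25 * 2)) ≤ X := by
        refine le_trans (Nat.pow_le_pow_right (by norm_num) (show D * (25 * 2) ≤ L by omega)) ?_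
        exact Nat.pow_log_le_self 2 (by omega)
      exact_mod_cast h1
    have h3 : ((2 * C * 2 ^ D) ^ 25 : ℝ) * Real.log X ≤ (2 * (2 * C) ^ 25) * X := by
      calc ((2 * C * 2 ^ D) ^ 25 : ℝ) * Real.log X
          ≤ ((2 * C) ^ 25 * Real.sqrt X) * (2 * Real.sqrt X) :=
            mul_le_mul hpow hlogle hlogX.le (by positivity)
        _ = 2 * (2 * C) ^ 25 * (Real.sqrt X * Real.sqrt X) := by ring
        _ = (2 * (2 * C) ^ 25) * X := by rw [hsq]
    have h4 := mul_le_mul_of_nonneg_right hb hlogX.le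
    nlinarith

/-- Finitely many counterexamples away from the powers of three. -/
theorem finite_of_gap {ε : ℝ} (hε : 0 < ε) :
    {n : ℕ | 2 ≤ n ∧ ∃ k : ℕ, kappa n = k ∧ sigma n ≠ k ∧
      (1 + ε) * 3 ^ odds n k ≤ (2 : ℝ) ^ k}.Finite := by
  have h0 : 0 < cexp := lt_trans (by norm_num) cexp_gt
  obtain ⟨C, hC, hmain⟩ := main_ineq (c := 1 / 25) (lt_trans (by norm_num) cexp_gt) h0
  have hlog : 0 < Real.log (1 + ε) := Real.log_pos (by linarith)
  refine (Set.finite_Iic ⌊(C / Real.log (1 + ε)) ^ 25⌋₊).subset ?_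
  rintro n ⟨hn, k, hk, hs, h⟩
  refine Nat.le_floor ?_
  have hn0 : (0 : ℝ) < n := by exact_mod_cast (by omega : 0 < n)
  have h1 := hmain n k hn hk hs
  have h2 : Real.log (1 + ε) ≤ k * Real.log 2 - odds n k * Real.log 3 := by
    have h6 := Real.log_le_log (by positivity) h
    rw [Real.log_mul (by positivity) (by positivity), Real.log_pow, Real.log_pow] at h6
    linarith
  have h4 : Real.log (1 + ε) ≤ C * (n : ℝ) ^ (-(1 / 25) : ℝ) := by linarith
  have h5 : (n : ℝ) ^ ((1 / 25 : ℝ)) ≤ C / Real.log (1 + ε) := by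
    rw [Real.rpow_neg hn0.le] at h4
    have h6 : (0 : ℝ) < (n : ℝ) ^ ((1 / 25 : ℝ)) := Real.rpow_pos_of_pos hn0 _
    rw [le_div_iff₀ hlog]
    rw [← div_eq_mul_inv, le_div_iff₀ h6] at h4
    linarith
  have h6 : (n : ℝ) = ((n : ℝ) ^ ((1 / 25 : ℝ))) ^ 25 := by
    rw [← Real.rpow_natCast, ← Real.rpow_mul hn0.le]
    norm_num
  rw [h6]
  exact pow_le_pow_left₀ (Real.rpow_nonneg hn0.le _) h5 25

end Pool.Agent.Work.MP_a11cf9_nt
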