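import Pool.Agent.Work.MP_a11cf9_nt.Key

/-!
# The exponent is larger than `0.049`; the coefficient stopping time is at most the stopping time
-/

set_option autoImplicit false
set_option exponentiation.threshold 3000

namespace Pool.Agent.Work.MP_a11cf9_nt

open Real

theorem binEntropy_le {p z : ℝ} (hp0 : 0 < p) (hp1 : p < 1) (hz : 0 < z) :
    Real.binEntropy p ≤ Real.log (1 + z) - p * Real.log z := by
  have h1z : 0 < 1 + z := by linarith
  have hq : 0 < z / (1 + z) := by positivity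
  have hp1' : 0 < 1 - p := by linarith
  have h1 : Real.log (z / (1 + z) / p) ≤ z / (1 + z) / p - 1 :=
    Real.log_le_sub_one_of_pos (by positivity)
  have h2 : Real.log (1 / (1 + z) / (1 - p)) ≤ 1 / (1 + z) / (1 - p) - 1 :=
    Real.log_le_sub_one_of_pos (by positivity)
  rw [Real.log_div hq.ne' hp0.ne', Real.log_div hz.ne' h1z.ne'] at h1
  rw [Real.log_div (by positivity) hp1'.ne', Real.log_div one_ne_zero h1z.ne', Real.log_one] at h2
  have h3 := mul_le_mul_of_nonneg_left h1 hp0.le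
  have h4 := mul_le_mul_of_nonneg_left h2 hp1'.le
  have h5 : p * (z / (1 + z) / p - 1) = z / (1 + z) - p := by
    field_simp
  have h6 : (1 - p) * (1 / (1 + z) / (1 - p) - 1) = 1 / (1 + z) - (1 - p) := by
    field_simp
  have h7 : z / (1 + z) + 1 / (1 + z) = 1 := by
    field_simp
    ring
  rw [h5] at h3
  rw [h6] at h4
  rw [Real.binEntropy, Real.log_inv, Real.log_inv]
  nlinarith [h3, h4, h7]

theorem num_lt : (2 : ℕ) ^ 2049 < 3 ^ 370 * 5 ^ 630 := by norm_num

theorem cexp_gt : 0.049 < cexp := by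
  have hl2 := log_two_pos
  have hl3 := log_three_pos
  have h1 : Real.binEntropy (Real.log 2 / Real.log 3) ≤
      Real.log (1 + 5 / 3) - Real.log 2 / Real.log 3 * Real.log (5 / 3) :=
    binEntropy_le (by positivity) rho_lt_one (by norm_num)
  have h2 : Real.log (1 + 5 / 3) = 3 * Real.log 2 - Real.log 3 := by
    rw [show (1 + 5 / 3 : ℝ) = 2 ^ 3 / 3 by norm_num, Real.log_div (by norm_num) (by norm_num),
      Real.log_pow]
    norm_num
  have h3 : Real.log (5 / 3) = Real.log 5 - Real.log 3 := Real.log_div (by norm_num) (by norm_num)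
  have h4 : 63 * Real.log 3 ≤ 100 * Real.log 2 := by
    have h5 : Real.log ((3 : ℝ) ^ 63) ≤ Real.log ((2 : ℝ) ^ 100) :=
      Real.log_le_log (by positivity) (by norm_num)
    rw [Real.log_pow, Real.log_pow] at h5
    exact_mod_cast h5
  have h5 : 63 / 100 ≤ Real.log 2 / Real.log 3 := by
    rw [div_le_div_iff₀ (by norm_num) hl3]
    linarith
  have h6 : 0 < Real.log 5 - Real.log 3 := by
    rw [sub_pos]
    exact Real.log_lt_log (by norm_num) (by norm_num)
  have h7 : 2049 * Real.log 2 < 370 * Real.log 3 + 630 * Real.log 5 := by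
    have h8 : Real.log ((2 : ℝ) ^ 2049) < Real.log ((3 : ℝ) ^ 370 * 5 ^ 630) :=
      Real.log_lt_log (by positivity) (by exact_mod_cast num_lt)
    rw [Real.log_mul (by positivity) (by positivity), Real.log_pow, Real.log_pow,
      Real.log_pow] at h8
    exact_mod_cast h8
  have h8 : 63 / 100 * (Real.log 5 - Real.log 3) ≤
      Real.log 2 / Real.log 3 * (Real.log 5 - Real.log 3) :=
    mul_le_mul_of_nonneg_right h5 h6.le
  rw [h2, h3] at h1
  unfold cexp
  have h9 : Real.binEntropy (Real.log 2 / Real.log 3) / Real.log 2 < 0.951 := by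
    rw [div_lt_iff₀ hl2]
    linarith
  linarith

/-- `κ(n) ≤ σ(n)`. -/
theorem kappa_le_sigma (n : ℕ) : kappa n ≤ sigma n := by
  unfold kappa sigma
  refine sInf_le_sInf ?_
  rintro _ ⟨k, ⟨hk1, hk2⟩, rfl⟩
  refine ⟨k, ⟨hk1, ?_⟩, rfl⟩
  by_contra hc
  rw [not_lt] at hc
  have h1 := le_two_pow_mul_iter n k
  have h2 : 2 ^ k * n ≤ 2 ^ k * T^[k] n := le_trans (Nat.mul_le_mul_right n hc) h1
  exact absurd (Nat.le_of_mul_le_mul_left h2 (by positivity)) (not_le.2 hk2)

theorem exists_of_ne {n : ℕ} (h : kappa n ≠ sigma n) : ∃ k : ℕ, kappa n = k ∧ sigma n ≠ k := by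
  have h1 : kappa n ≠ ⊤ := by
    intro ht
    have h2 := kappa_le_sigma n
    rw [ht, top_le_iff] at h2
    exact h (by rw [ht, h2])
  obtain ⟨k, hk⟩ := ENat.ne_top_iff_exists.1 h1
  exact ⟨k, hk.symm, fun hs => h (by rw [hs, hk])⟩

/-- Theorem 1. -/
theorem theorem_one :
    0.049 < 1 - Real.binEntropy (Real.log 2 / Real.log 3) / Real.log 2 ∧
    ∀ c : ℝ, c < 1 - Real.binEntropy (Real.log 2 / Real.log 3) / Real.log 2 →
      ∃ C : ℝ, ∀ n : ℕ, 2 ≤ n → kappa n ≠ sigma n →
        ∃ k : ℕ, kappa n = k ∧ 3 ^ odds n k < 2 ^ k ∧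
          k * Real.log 2 - odds n k * Real.log 3 ≤ C * (n : ℝ) ^ (-c) := by
  refine ⟨cexp_gt, fun c hc => ?_⟩
  have h0 : 0 < cexp := lt_trans (by norm_num) cexp_gt
  obtain ⟨C, hC, h⟩ := main_ineq hc h0
  refine ⟨C, fun n hn hne => ?_⟩
  obtain ⟨k, hk, hs⟩ := exists_of_ne hne
  exact ⟨k, hk, ((kappa_eq_iff n k).1 hk).1.2, h n k hn hk hs⟩

end Pool.Agent.Work.MP_a11cf9_nt
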