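import Pool.Agent.Work.MP_a11cf9_nt.Circ
import Pool.Agent.Work.MP_a11cf9_nt.Measure
import Pool.Agent.Work.MP_a11cf9_nt.Num

/-!
# A counterexample has many circuits
-/

set_option autoImplicit false

namespace Pool.Agent.Work.MP_a11cf9_nt

open Real

/-- The multiplicative form of the iteration, with the odd iterates only. -/
theorem prod_ineq_odd {n : ℕ} (hn : 1 ≤ n) (p : ℕ) :
    (2 : ℝ) ^ p * (T^[p] n : ℝ) ≤ 3 ^ odds n p * (n : ℝ) *
      Real.exp ((∑ i ∈ (Finset.range p).filter (fun i => T^[i] n % 2 = 1),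
        1 / (T^[i] n : ℝ)) / 3) := by
  induction p with
  | zero => simp [odds_zero]
  | succ p ih =>
    rw [Function.iterate_succ_apply', odds_succ, Finset.range_add_one, Finset.filter_insert]
    set x := T^[p] n with hx
    have hx1 : 1 ≤ x := iter_pos hn _
    have hx0 : (0 : ℝ) < x := by exact_mod_cast hx1
    set S := ∑ i ∈ (Finset.range p).filter (fun i => T^[i] n % 2 = 1), 1 / (T^[i] n : ℝ) with hS
    rcases Nat.mod_two_eq_zero_or_one x with h | h
    · have h1 : (2 : ℝ) ^ (p + 1) * (T x : ℝ) = 2 ^ p * x := by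
        have h2 : 2 * T x = x := by rw [T_even h]; omega
        have h3 : (2 : ℝ) * (T x : ℝ) = x := by exact_mod_cast h2
        rw [pow_succ, mul_assoc, h3]
      rw [if_neg (by omega), h1, h, add_zero]
      exact ih
    · have h1 : (2 : ℝ) ^ (p + 1) * (T x : ℝ) = 2 ^ p * (3 * x + 1) := by
        have h2 : 2 * T x = 3 * x + 1 := by rw [T_odd h]; omega
        have h3 : (2 : ℝ) * (T x : ℝ) = 3 * x + 1 := by exact_mod_cast h2
        rw [pow_succ, mul_assoc, h3]
      have h4 : (3 * (x : ℝ) + 1) ≤ 3 * x * Real.exp (1 / (x : ℝ) / 3) := by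
        have h5 := Real.add_one_le_exp (1 / (x : ℝ) / 3)
        calc (3 * (x : ℝ) + 1) = 3 * x * (1 / (x : ℝ) / 3 + 1) := by field_simp; ring
          _ ≤ 3 * x * Real.exp (1 / (x : ℝ) / 3) := mul_le_mul_of_nonneg_left h5 (by positivity)
      rw [if_pos h, Finset.sum_insert (by simp), ← hx]
      have h6 : Real.exp ((1 / (x : ℝ) + S) / 3) =
          Real.exp (S / 3) * Real.exp (1 / (x : ℝ) / 3) := by
        rw [← Real.exp_add]
        congr 1
        ring
      rw [h1, h, pow_succ, h6]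
      calc (2 : ℝ) ^ p * (3 * x + 1) ≤ 2 ^ p * (3 * x * Real.exp (1 / (x : ℝ) / 3)) :=
            mul_le_mul_of_nonneg_left h4 (by positivity)
        _ = (2 ^ p * x) * (3 * Real.exp (1 / (x : ℝ) / 3)) := by ring
        _ ≤ (3 ^ odds n p * (n : ℝ) * Real.exp (S / 3)) * (3 * Real.exp (1 / (x : ℝ) / 3)) :=
            mul_le_mul_of_nonneg_right ih (by positivity)
        _ = 3 ^ odds n p * 3 * (n : ℝ) *
              (Real.exp (S / 3) * Real.exp (1 / (x : ℝ) / 3)) := by ring

theorem odds_le (n k : ℕ) : odds n k ≤ k := by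
  unfold odds
  refine le_trans (Finset.card_filter_le _ _) ?_
  rw [Finset.card_range]

theorem circ_le (n k : ℕ) : circ n k ≤ k := by
  unfold circ
  refine le_trans (Finset.card_filter_le _ _) ?_
  rw [Finset.card_range]

/-- Basic facts on a counterexample. -/
theorem counterexample_facts {n k : ℕ} (hn : 2 ≤ n) (hk : kappa n = k) (hs : sigma n ≠ k) :
    2 ≤ k ∧ (k : ℝ) * Real.log 2 - odds n k * Real.log 3 ≤ (circ n k + 1) / n ∧
      (k : ℝ) ≤ 2 * (Real.log 3 / Real.log 2) * odds n k := by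
  have hge := counterexample_ge hk hs
  obtain ⟨⟨hk1, hk2⟩, hk3⟩ := (kappa_eq_iff n k).1 hk
  have hn1 : 1 ≤ n := by omega
  have hl2 := log_two_pos
  have hl3 := log_three_pos
  have hk2' : 2 ≤ k := by
    by_contra hc
    have hk1' : k = 1 := by omega
    subst hk1'
    have h1 := hge 1 le_rfl le_rfl
    rw [odds_succ, odds_zero, Function.iterate_zero_apply, zero_add] at hk2
    rcases Nat.mod_two_eq_zero_or_one n with h | h
    · rw [Function.iterate_one, T_even h] at h1
      omega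
    · rw [h] at hk2
      norm_num at hk2
  refine ⟨hk2', ?_, ?_⟩
  · have hprod := prod_ineq_odd hn1 k
    have hS := sum_inv_odd_le_circ (n := n) (k := k) (m := n) hn1 (fun i hi => by
      rcases Nat.eq_zero_or_pos i with h | h
      · rw [h]; rfl
      · exact hge i h hi.le)
    set S := ∑ i ∈ (Finset.range k).filter (fun i => T^[i] n % 2 = 1), 1 / (T^[i] n : ℝ) with hSd
    have hn0 : (0 : ℝ) < n := by exact_mod_cast hn1
    have hTk : (n : ℝ) ≤ (T^[k] n : ℝ) := by exact_mod_cast hge k hk1 le_rfl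
    have h1 : (2 : ℝ) ^ k ≤ 3 ^ odds n k * Real.exp (S / 3) := by
      have h2 : (2 : ℝ) ^ k * n ≤ (3 ^ odds n k * Real.exp (S / 3)) * n := by
        calc (2 : ℝ) ^ k * n ≤ 2 ^ k * (T^[k] n : ℝ) :=
              mul_le_mul_of_nonneg_left hTk (by positivity)
          _ ≤ 3 ^ odds n k * (n : ℝ) * Real.exp (S / 3) := hprod
          _ = (3 ^ odds n k * Real.exp (S / 3)) * n := by ring
      exact le_of_mul_le_mul_right h2 hn0
    have h3 := Real.log_le_log (by positivity) h1
    rw [Real.log_mul (by positivity) (Real.exp_pos _).ne', Real.log_pow, Real.log_pow,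
      Real.log_exp] at h3
    have h4 : S / 3 ≤ (circ n k + 1) / n := by
      rw [div_le_iff₀ (by norm_num)]
      calc S ≤ 3 * (circ n k + 1) / n := hS
        _ = (circ n k + 1) / n * 3 := by ring
    linarith
  · have h1 := hk3 (k - 1) (by omega) (by omega)
    have h2 : 2 ^ (k - 1) ≤ 3 ^ odds n k :=
      le_trans h1 (Nat.pow_le_pow_right (by norm_num) (odds_mono n (Nat.sub_le k 1)))
    have h3 : (2 : ℝ) ^ (k - 1) ≤ 3 ^ odds n k := by exact_mod_cast h2
    have h4 := Real.log_le_log (by positivity) h3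
    rw [Real.log_pow, Real.log_pow] at h4
    have h5 : ((k - 1 : ℕ) : ℝ) = (k : ℝ) - 1 := by
      rw [Nat.cast_sub hk1]
      norm_num
    rw [h5] at h4
    have h6 : (2 : ℝ) ≤ k := by exact_mod_cast hk2'
    have h7 : (k : ℝ) - 1 ≤ Real.log 3 / Real.log 2 * odds n k := by
      rw [div_mul_eq_mul_div, le_div_iff₀ hl2]
      linarith
    linarith

/-- Bound of `n` in terms of `κ`. -/
theorem counterexample_bound : ∃ c : ℝ, 0 < c ∧ c ≤ 1 ∧ ∀ n k : ℕ, 2 ≤ n → kappa n = k →
    sigma n ≠ k → (n : ℝ) * c ≤ (k + 1) * (2 * k) ^ 80 := by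
  obtain ⟨c0, hc0, hlow⟩ := Pade.log_lower
  refine ⟨min c0 1, lt_min hc0 one_pos, min_le_right _ _, fun n k hn hk hs => ?_⟩
  obtain ⟨hk2, hΛ, -⟩ := counterexample_facts hn hk hs
  obtain ⟨⟨hk1, hklt⟩, -⟩ := (kappa_eq_iff n k).1 hk
  have hn0 : (0 : ℝ) < n := by exact_mod_cast (by omega : 0 < n)
  have hk0 : (0 : ℝ) < k := by exact_mod_cast (by omega : 0 < k)
  have h1 := hlow k (odds n k) (by omega)
  have hpos : 0 < (k : ℝ) * Real.log 2 - odds n k * Real.log 3 := by
    have h3 : (3 : ℝ) ^ odds n k < 2 ^ k := by exact_mod_cast hklt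
    have h4 := Real.log_lt_log (by positivity) h3
    rw [Real.log_pow, Real.log_pow] at h4
    linarith
  rw [abs_of_pos hpos] at h1
  have h2 : c0 / ((k + odds n k : ℕ) : ℝ) ^ 80 ≤ (k + 1) / n := by
    refine le_trans (le_trans h1 hΛ) ?_
    refine div_le_div_of_nonneg_right ?_ hn0.le
    have : (circ n k : ℝ) ≤ k := by exact_mod_cast circ_le n k
    linarith
  have h3 : ((k + odds n k : ℕ) : ℝ) ≤ 2 * k := by
    have : k + odds n k ≤ 2 * k := by
      have := odds_le n k
      omega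
    exact_mod_cast this
  have h4 : (0 : ℝ) < ((k + odds n k : ℕ) : ℝ) := by
    have : 0 < k + odds n k := by omega
    exact_mod_cast this
  rw [div_le_div_iff₀ (by positivity) hn0] at h2
  calc (n : ℝ) * min c0 1 ≤ n * c0 := mul_le_mul_of_nonneg_left (min_le_left _ _) hn0.le
    _ = c0 * n := mul_comm _ _
    _ ≤ (k + 1) * ((k + odds n k : ℕ) : ℝ) ^ 80 := h2
    _ ≤ (k + 1) * (2 * k) ^ 80 := by
        refine mul_le_mul_of_nonneg_left ?_ (by positivity)
        exact pow_le_pow_left₀ h4.le h3 80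

/-- Main theorem on circuits. -/
theorem many_circuits : ∃ C : ℝ, 0 < C ∧ ∀ n k : ℕ, 2 ≤ n → kappa n = k → sigma n ≠ k →
    (k : ℝ) ≤ C * (Real.log 3 / Real.log 2) ^ circ n k * Real.log k := by
  obtain ⟨c, hc, hc1, hbound⟩ := counterexample_bound
  have hl2 := log_two_pos
  have hl3 := log_three_pos
  have hθ : 1 < Real.log 3 / Real.log 2 := one_lt_theta
  set θ : ℝ := Real.log 3 / Real.log 2 with hθd
  set A : ℝ := 163 - Real.log c / Real.log 2 with hA
  have hlogc : Real.log c ≤ 0 := Real.log_nonpos hc.le hc1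
  have hA0 : 163 ≤ A := by
    rw [hA]
    have : Real.log c / Real.log 2 ≤ 0 := div_nonpos_of_nonpos_of_nonneg hlogc hl2.le
    linarith
  have hθ1 : 0 < θ - 1 := by linarith
  refine ⟨2 * θ * (θ / (θ - 1)) * (A / Real.log 2), by positivity, fun n k hn hk hs => ?_⟩
  obtain ⟨hk2, -, hkθ⟩ := counterexample_facts hn hk hs
  have hn1 : 1 ≤ n := by omega
  have hn0 : (0 : ℝ) < n := by exact_mod_cast hn1
  have hk2' : (2 : ℝ) ≤ k := by exact_mod_cast hk2
  have hk0 : (0 : ℝ) < k := by linarith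
  have hlogk : Real.log 2 ≤ Real.log k := Real.log_le_log (by norm_num) hk2'
  have hb := hbound n k hn hk hs
  -- log (n + 1) <= A log k
  have hlogn : Real.log ((n : ℝ) + 1) ≤ A * Real.log k := by
    have h1 : ((n : ℝ) + 1) * c ≤ (k : ℝ) ^ 163 := by
      have h2 : ((n : ℝ) + 1) * c ≤ 2 * ((n : ℝ) * c) := by
        have : (1 : ℝ) ≤ n := by exact_mod_cast hn1
        nlinarith
      have h3 : 2 * ((n : ℝ) * c) ≤ 2 * ((k + 1) * (2 * k) ^ 80) := by linarith
      have h4 : (2 : ℝ) * ((k + 1) * (2 * k) ^ 80) ≤ (k : ℝ) ^ 163 := by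
        have h5 : (2 * (k : ℝ)) ^ 80 ≤ ((k : ℝ) * k) ^ 80 := by
          refine pow_le_pow_left₀ (by positivity) ?_ 80
          exact mul_le_mul_of_nonneg_right hk2' hk0.le
        have h6 : 2 * ((k : ℝ) + 1) ≤ (k : ℝ) ^ 3 := by nlinarith [sq_nonneg ((k : ℝ) - 2)]
        calc (2 : ℝ) * ((k + 1) * (2 * k) ^ 80) = (2 * ((k : ℝ) + 1)) * (2 * k) ^ 80 := by ring
          _ ≤ (k : ℝ) ^ 3 * ((k : ℝ) * k) ^ 80 := mul_le_mul h6 h5 (by positivity) (by positivity)
          _ = (k : ℝ) ^ 163 := by ring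
      linarith
    have h2 := Real.log_le_log (by positivity) h1
    rw [Real.log_mul (by positivity) hc.ne', Real.log_pow] at h2
    have h3 : - Real.log c ≤ (- Real.log c / Real.log 2) * Real.log k := by
      rw [div_mul_eq_mul_div, le_div_iff₀ hl2]
      exact mul_le_mul_of_nonneg_left hlogk (by linarith)
    rw [hA]
    have h4 : (163 - Real.log c / Real.log 2) * Real.log k =
        163 * Real.log k + (- Real.log c / Real.log 2) * Real.log k := by ring
    rw [h4]
    push_cast at h2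
    linarith
  have hodds := odds_le_circ (n := n) (k := k) hn1
  rw [← hθd] at hodds
  have h1 : (odds n k : ℝ) ≤ θ ^ (circ n k + 1) / (θ - 1) * (A * Real.log k / Real.log 2) := by
    refine le_trans hodds ?_
    refine mul_le_mul_of_nonneg_left ?_ (by positivity)
    exact div_le_div_of_nonneg_right hlogn hl2.le
  calc (k : ℝ) ≤ 2 * θ * odds n k := hkθ
    _ ≤ 2 * θ * (θ ^ (circ n k + 1) / (θ - 1) * (A * Real.log k / Real.log 2)) :=
        mul_le_mul_of_nonneg_left h1 (by positivity)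
    _ = 2 * θ * (θ / (θ - 1)) * (A / Real.log 2) * θ ^ circ n k * Real.log k := by
        rw [pow_succ]
        ring

/-- For every `m` there are only finitely many counterexamples with at most `m` circuits. -/
theorem finite_circuits (m : ℕ) : {n : ℕ | 2 ≤ n ∧ ∃ k : ℕ, kappa n = k ∧ sigma n ≠ k ∧
    circ n k ≤ m}.Finite := by
  obtain ⟨C, hC, hcirc⟩ := many_circuits
  obtain ⟨c, hc, -, hbound⟩ := counterexample_bound
  have hθ : 1 < Real.log 3 / Real.log 2 := one_lt_theta
  set θ : ℝ := Real.log 3 / Real.log 2 with hθd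
  set B : ℝ := (2 * (C * θ ^ m)) ^ 2 with hB
  refine (Set.finite_Iic ⌊(B + 1) * (2 * B) ^ 80 / c⌋₊).subset ?_
  rintro n ⟨hn, k, hk, hs, hm⟩
  have h1 := hcirc n k hn hk hs
  obtain ⟨hk2, -, -⟩ := counterexample_facts hn hk hs
  have hk2' : (2 : ℝ) ≤ k := by exact_mod_cast hk2
  have hk0 : (0 : ℝ) < k := by linarith
  have h2 : θ ^ circ n k ≤ θ ^ m := pow_le_pow_right₀ hθ.le hm
  have hlogk : Real.log k ≤ 2 * Real.sqrt k := by
    have h3 : Real.log k = 2 * Real.log (Real.sqrt k) := by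
      rw [Real.log_sqrt hk0.le]
      ring
    have h4 := Real.log_le_sub_one_of_pos (Real.sqrt_pos.2 hk0)
    rw [h3]
    linarith
  have hsq : Real.sqrt k * Real.sqrt k = k := Real.mul_self_sqrt hk0.le
  have hs0 : 0 < Real.sqrt k := Real.sqrt_pos.2 hk0
  have hlogk0 : 0 ≤ Real.log k := Real.log_nonneg (by linarith)
  have h3 : (k : ℝ) ≤ (C * θ ^ m) * (2 * Real.sqrt k) := by
    calc (k : ℝ) ≤ C * θ ^ circ n k * Real.log k := h1
      _ ≤ C * θ ^ m * Real.log k := by
          refine mul_le_mul_of_nonneg_right ?_ hlogk0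
          exact mul_le_mul_of_nonneg_left h2 hC.le
      _ ≤ (C * θ ^ m) * (2 * Real.sqrt k) :=
          mul_le_mul_of_nonneg_left hlogk (by positivity)
  have h4 : Real.sqrt k ≤ 2 * (C * θ ^ m) := by
    have h5 : Real.sqrt k * Real.sqrt k ≤ (2 * (C * θ ^ m)) * Real.sqrt k := by
      rw [hsq]
      linarith
    exact le_of_mul_le_mul_right h5 hs0
  have hkB : (k : ℝ) ≤ B := by
    rw [hB, ← hsq, sq]
    exact mul_le_mul h4 h4 hs0.le (by positivity)
  rw [Set.mem_Iic]
  refine Nat.le_floor ?_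
  rw [le_div_iff₀ hc]
  refine le_trans (hbound n k hn hk hs) ?_
  have hB0 : 0 ≤ B := by positivity
  refine mul_le_mul (by linarith) ?_ (by positivity) (by positivity)
  exact pow_le_pow_left₀ (by positivity) (by linarith) 80

end Pool.Agent.Work.MP_a11cf9_nt
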