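import Pool.Agent.Work.MP_a11cf9_nt.Count

/-!
# The sum of the reciprocals over an injective piece of an orbit, and the main inequality
-/

set_option autoImplicit false

namespace Pool.Agent.Work.MP_a11cf9_nt

open Real

theorem log_two_pos : 0 < Real.log 2 := Real.log_pos (by norm_num)
theorem log_three_pos : 0 < Real.log 3 := Real.log_pos (by norm_num)

theorem half_lt_rho : 1 / 2 < Real.log 2 / Real.log 3 := by
  rw [div_lt_div_iff₀ (by norm_num) log_three_pos]
  have h : Real.log 3 < Real.log 4 := Real.log_lt_log (by norm_num) (by norm_num)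
  have h4 : Real.log 4 = 2 * Real.log 2 := by
    rw [show (4 : ℝ) = 2 ^ 2 by norm_num, Real.log_pow]
    norm_num
  linarith

theorem rho_lt_one : Real.log 2 / Real.log 3 < 1 := by
  rw [div_lt_one log_three_pos]
  exact Real.log_lt_log (by norm_num) (by norm_num)

theorem exists_rho {g : ℝ} (hg : Real.binEntropy (Real.log 2 / Real.log 3) < g) :
    ∃ ρ : ℝ, 1 / 2 < ρ ∧ ρ < Real.log 2 / Real.log 3 ∧ Real.binEntropy ρ < g := by
  have h1 : ∀ᶠ ρ in nhds (Real.log 2 / Real.log 3), Real.binEntropy ρ < g :=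
    (Real.binEntropy_continuous.tendsto _).eventually (gt_mem_nhds hg)
  have h2 : ∀ᶠ ρ in nhdsWithin (Real.log 2 / Real.log 3) (Set.Iio (Real.log 2 / Real.log 3)),
      Real.binEntropy ρ < g := h1.filter_mono nhdsWithin_le_nhds
  have h3 : ∀ᶠ ρ in nhdsWithin (Real.log 2 / Real.log 3) (Set.Iio (Real.log 2 / Real.log 3)),
      ρ ∈ Set.Ioo (1 / 2) (Real.log 2 / Real.log 3) := Ioo_mem_nhdsLT half_lt_rho
  obtain ⟨ρ, hρ1, hρ2⟩ := (h2.and h3).exists
  exact ⟨ρ, hρ2.1, hρ2.2, hρ1⟩

/-- The exponent of the theorem. -/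
noncomputable def cexp : ℝ := 1 - Real.binEntropy (Real.log 2 / Real.log 3) / Real.log 2

/-- Key lemma: the sum of the reciprocals over an injective piece of an orbit is small, uniformly
in the length of the piece. -/
theorem sum_inv_le {c : ℝ} (hc0 : 0 < c) (hc : c < cexp) :
    ∃ C : ℝ, 0 < C ∧ ∀ n s t m : ℕ, 1 ≤ n → 1 ≤ m →
      Set.InjOn (fun i => T^[i] n) (Finset.Ico s t : Set ℕ) →
      (∀ i ∈ Finset.Ico s t, m ≤ T^[i] n) →
      ∑ i ∈ Finset.Ico s t, 1 / (T^[i] n : ℝ) ≤ C * (m : ℝ) ^ (-c) := by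
  classical
  have hl2 := log_two_pos
  have hl3 := log_three_pos
  set g : ℝ := (1 - c) * Real.log 2 with hg
  have hHg : Real.binEntropy (Real.log 2 / Real.log 3) < g := by
    have h1 : Real.binEntropy (Real.log 2 / Real.log 3) / Real.log 2 < 1 - c := by
      unfold cexp at hc
      linarith
    rwa [div_lt_iff₀ hl2] at h1
  have hgpos : 0 < g := by
    have h1 : 0 ≤ Real.binEntropy (Real.log 2 / Real.log 3) :=
      Real.binEntropy_nonneg (by positivity) rho_lt_one.le
    linarith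
  obtain ⟨ρ, hρ1, hρ2, hρ3⟩ := exists_rho hHg
  have hρL : ρ * (Real.log 3 / Real.log 2) < 1 := by
    rw [lt_div_iff₀ hl3] at hρ2
    rw [← mul_div_assoc, div_lt_one hl2]
    exact hρ2
  obtain ⟨C1, hC1, hgrow⟩ := growth ρ (Real.binEntropy ρ) g (Real.log 3 / Real.log 2)
    (by positivity) (by linarith) hρL hgpos hρ3.le
  set r : ℝ := Real.exp (-(c * Real.log 2)) with hr
  have hr0 : 0 < r := Real.exp_pos _
  have hr1 : r < 1 := by
    rw [hr, Real.exp_lt_one_iff]
    have : 0 < c * Real.log 2 := by positivity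
    linarith
  refine ⟨C1 * (Real.exp (c * Real.log 2) / (1 - r)), by
    have : 0 < 1 - r := by linarith
    positivity, fun n s t m hn hm hinj hge => ?_⟩
  set M : ℕ := (Finset.Ico s t).sup (fun i => Nat.log 2 (T^[i] n)) + 1 with hM
  have hmaps : ∀ i ∈ Finset.Ico s t,
      (fun i => Nat.log 2 (T^[i] n)) i ∈ Finset.Ico (Nat.log 2 m) M := by
    intro i hi
    rw [Finset.mem_Ico]
    refine ⟨Nat.log_mono_right (hge i hi), ?_⟩
    rw [hM, Nat.lt_succ_iff]
    exact Finset.le_sup (f := fun i => Nat.log 2 (T^[i] n)) hi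
  rw [← Finset.sum_fiberwise_of_maps_to hmaps]
  have hv := hgrow (fun J => (blk n s t J : ℝ))
    (fun J => by exact_mod_cast blk_le_two_pow hn hinj J)
    (fun J => blk_le hρ1.le (lt_trans hρ2 rho_lt_one) hn hinj J)
  have hterm : ∀ J ∈ Finset.Ico (Nat.log 2 m) M,
      ∑ i ∈ (Finset.Ico s t).filter (fun i => Nat.log 2 (T^[i] n) = J), 1 / (T^[i] n : ℝ) ≤
        C1 * r ^ J := by
    intro J _
    have h2J : (0 : ℝ) < 2 ^ J := by positivity
    calc ∑ i ∈ (Finset.Ico s t).filter (fun i => Nat.log 2 (T^[i] n) = J), 1 / (T^[i] n : ℝ)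
        ≤ ∑ i ∈ (Finset.Ico s t).filter (fun i => Nat.log 2 (T^[i] n) = J), 1 / (2 : ℝ) ^ J := by
          refine Finset.sum_le_sum (fun i hi => ?_)
          have h1 := ((log_eq_iff' (iter_pos hn i)).1 (Finset.mem_filter.1 hi).2).1
          refine one_div_le_one_div_of_le h2J ?_
          exact_mod_cast h1
      _ = (blk n s t J : ℝ) * (1 / (2 : ℝ) ^ J) := by
          rw [Finset.sum_const, nsmul_eq_mul]
          rfl
      _ ≤ C1 * Real.exp (g * J) * (1 / (2 : ℝ) ^ J) :=
          mul_le_mul_of_nonneg_right (hv J) (by positivity)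
      _ = C1 * r ^ J := by
          have h3 : (2 : ℝ) ^ J = Real.exp (Real.log 2 * J) := by
            rw [← Real.rpow_natCast, Real.rpow_def_of_pos (by norm_num)]
          have h4 : r ^ J = Real.exp (-(c * Real.log 2) * J) := by
            rw [hr, ← Real.exp_nat_mul, mul_comm]
          rw [h3, h4, mul_assoc, one_div, ← Real.exp_neg, ← Real.exp_add]
          congr 2
          rw [hg]
          ring
  refine le_trans (Finset.sum_le_sum hterm) ?_
  rw [← Finset.mul_sum, mul_assoc]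
  refine mul_le_mul_of_nonneg_left ?_ hC1.le
  refine le_trans (geom_sum_Ico_le_of_lt_one hr0.le hr1) ?_
  rw [div_mul_eq_mul_div]
  refine div_le_div_of_nonneg_right ?_ (by linarith)
  have hmpos : (0 : ℝ) < m := by exact_mod_cast hm
  have hml : Real.log m ≤ (Nat.log 2 m + 1) * Real.log 2 := by
    have h1 : m < 2 ^ (Nat.log 2 m + 1) := Nat.lt_pow_succ_log_self (by norm_num) m
    have h2 : (m : ℝ) ≤ 2 ^ (Nat.log 2 m + 1) := by exact_mod_cast h1.le
    have h3 := Real.log_le_log hmpos h2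
    rw [Real.log_pow] at h3
    push_cast at h3
    exact h3
  rw [hr, ← Real.exp_nat_mul, Real.rpow_def_of_pos hmpos, ← Real.exp_add, Real.exp_le_exp]
  nlinarith [mul_le_mul_of_nonneg_left hml hc0.le]

/-- Lower bound for the iterates. -/
theorem le_two_pow_mul_iter (m J : ℕ) : 3 ^ odds m J * m ≤ 2 ^ J * T^[J] m := by
  induction J with
  | zero => simp [odds_zero]
  | succ J ih =>
    rw [Function.iterate_succ_apply', odds_succ]
    rcases Nat.mod_two_eq_zero_or_one (T^[J] m) with h | h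
    · have h1 : 2 ^ (J + 1) * (T^[J] m / 2) = 2 ^ J * T^[J] m := by
        rw [pow_succ, mul_assoc]
        congr 1
        omega
      rw [h, add_zero, T_even h, h1]
      exact ih
    · have h1 : 2 ^ (J + 1) * ((3 * T^[J] m + 1) / 2) = 2 ^ J * (3 * T^[J] m + 1) := by
        rw [pow_succ, mul_assoc]
        congr 1
        omega
      rw [h, T_odd h, h1, pow_succ 3]
      calc 3 ^ odds m J * 3 * m = 3 * (3 ^ odds m J * m) := by ring
        _ ≤ 3 * (2 ^ J * T^[J] m) := Nat.mul_le_mul_left _ ih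
        _ ≤ 2 ^ J * (3 * T^[J] m + 1) := by
            have : 2 ^ J * (3 * T^[J] m + 1) = 3 * (2 ^ J * T^[J] m) + 2 ^ J := by ring
            rw [this]
            exact Nat.le_add_right _ _

/-- The multiplicative form of the iteration. -/
theorem prod_ineq {n : ℕ} (hn : 1 ≤ n) (s p : ℕ) :
    (2 : ℝ) ^ p * (T^[s + p] n : ℝ) ≤ 3 ^ odds (T^[s] n) p * (T^[s] n : ℝ) *
      Real.exp ((∑ i ∈ Finset.Ico s (s + p), 1 / (T^[i] n : ℝ)) / 3) := by
  induction p with
  | zero => simp [odds_zero]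
  | succ p ih =>
    rw [← add_assoc, Function.iterate_succ_apply', odds_succ, ← Function.iterate_add_apply,
      add_comm p s, Finset.sum_Ico_succ_top (by omega)]
    set x := T^[s + p] n with hx
    have hx1 : 1 ≤ x := iter_pos hn _
    have hx0 : (0 : ℝ) < x := by exact_mod_cast hx1
    set S := ∑ i ∈ Finset.Ico s (s + p), 1 / (T^[i] n : ℝ) with hS
    rcases Nat.mod_two_eq_zero_or_one x with h | h
    · have h1 : (2 : ℝ) ^ (p + 1) * (T x : ℝ) = 2 ^ p * x := by
        have h2 : 2 * T x = x := by rw [T_even h]; omega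
        have h3 : (2 : ℝ) * (T x : ℝ) = x := by exact_mod_cast h2
        rw [pow_succ, mul_assoc, h3]
      rw [h1, h, add_zero]
      refine le_trans ih (mul_le_mul_of_nonneg_left ?_ (by positivity))
      refine Real.exp_le_exp.2 ?_
      have : 0 < 1 / (x : ℝ) := by positivity
      linarith
    · have h1 : (2 : ℝ) ^ (p + 1) * (T x : ℝ) = 2 ^ p * (3 * x + 1) := by
        have h2 : 2 * T x = 3 * x + 1 := by rw [T_odd h]; omega
        have h3 : (2 : ℝ) * (T x : ℝ) = 3 * x + 1 := by exact_mod_cast h2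
        rw [pow_succ, mul_assoc, h3]
      have h4 : (3 * (x : ℝ) + 1) ≤ 3 * x * Real.exp (1 / (x : ℝ) / 3) := by
        have h5 := Real.add_one_le_exp (1 / (x : ℝ) / 3)
        calc (3 * (x : ℝ) + 1) = 3 * x * (1 / (x : ℝ) / 3 + 1) := by field_simp; ring
          _ ≤ 3 * x * Real.exp (1 / (x : ℝ) / 3) := mul_le_mul_of_nonneg_left h5 (by positivity)
      have h6 : Real.exp ((S + 1 / (x : ℝ)) / 3) =
          Real.exp (S / 3) * Real.exp (1 / (x : ℝ) / 3) := by
        rw [← Real.exp_add]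
        congr 1
        ring
      rw [h1, h, pow_succ, h6]
      calc (2 : ℝ) ^ p * (3 * x + 1) ≤ 2 ^ p * (3 * x * Real.exp (1 / (x : ℝ) / 3)) :=
            mul_le_mul_of_nonneg_left h4 (by positivity)
        _ = (2 ^ p * x) * (3 * Real.exp (1 / (x : ℝ) / 3)) := by ring
        _ ≤ (3 ^ odds (T^[s] n) p * (T^[s] n : ℝ) * Real.exp (S / 3)) *
              (3 * Real.exp (1 / (x : ℝ) / 3)) :=
            mul_le_mul_of_nonneg_right ih (by positivity)
        _ = 3 ^ odds (T^[s] n) p * 3 * (T^[s] n : ℝ) *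
              (Real.exp (S / 3) * Real.exp (1 / (x : ℝ) / 3)) := by ring

/-- The choice of the injective piece. -/
theorem exists_piece {n k : ℕ} (hk : 1 ≤ k) (hα : ∀ j, 1 ≤ j → j < k → 2 ^ j ≤ 3 ^ odds n j)
    (hx : ∀ j, 1 ≤ j → j ≤ k → n ≤ T^[j] n) :
    ∃ s, s < k ∧ Set.InjOn (fun i => T^[i] n) (Finset.Ico s k : Set ℕ) ∧ T^[s] n ≤ T^[k] n ∧
      2 ^ s ≤ 3 ^ odds n s := by
  classical
  have hshift : ∀ i j l, T^[i] n = T^[j] n → T^[i + l] n = T^[j + l] n := by
    intro i j l h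
    rw [add_comm i l, add_comm j l, Function.iterate_add_apply, Function.iterate_add_apply, h]
  by_cases hinj : Set.InjOn (fun i => T^[i] n) (Finset.Ico 0 k : Set ℕ)
  · exact ⟨0, hk, hinj, hx k hk le_rfl, by simp [odds_zero]⟩
  · have hex : ∃ p, 1 ≤ p ∧ p ≤ k ∧ T^[k - p] n = T^[k] n := by
      have h1 : ∃ i j, i < j ∧ j < k ∧ T^[i] n = T^[j] n := by
        by_contra hno
        apply hinj
        intro i hi j hj hij
        simp only [Finset.coe_Ico, Set.mem_Ico] at hi hj
        by_contra hne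
        rcases lt_or_gt_of_ne hne with h | h
        · exact hno ⟨i, j, h, hj.2, hij⟩
        · exact hno ⟨j, i, h, hi.2, hij.symm⟩
      obtain ⟨i, j, hij, hjk, he⟩ := h1
      refine ⟨j - i, by omega, by omega, ?_⟩
      have h2 := hshift i j (k - j) he
      have h3 : i + (k - j) = k - (j - i) := by omega
      have h4 : j + (k - j) = k := by omega
      rwa [h3, h4] at h2
    have hspec := Nat.find_spec hex
    have hmin := fun {m : ℕ} (hm : m < Nat.find hex) => Nat.find_min hex hm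
    set p := Nat.find hex with hp
    obtain ⟨hp1, hpk, hpe⟩ := hspec
    refine ⟨k - p, by omega, ?_, hpe.le, ?_⟩
    · intro u hu v hv huv
      simp only [Finset.coe_Ico, Set.mem_Ico] at hu hv
      have aux : ∀ u v, k - p ≤ u → u < v → v < k → T^[u] n = T^[v] n → False := by
        intro u v hu huv hv he
        refine hmin (m := v - u) (by omega) ⟨by omega, by omega, ?_⟩
        have h2 := hshift u v (k - v) he
        have h3 : u + (k - v) = k - (v - u) := by omega
        have h4 : v + (k - v) = k := by omega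
        rwa [h3, h4] at h2
      rcases lt_trichotomy u v with h | h | h
      · exact (aux u v hu.1 h hv.2 huv).elim
      · exact h
      · exact (aux v u hv.1 h hu.2 huv.symm).elim
    · rcases Nat.eq_zero_or_pos (k - p) with h0 | h0
      · rw [h0, odds_zero, pow_zero, pow_zero]
      · exact hα _ h0 (by omega)

theorem counterexample_ge {n k : ℕ} (hk : kappa n = k) (hs : sigma n ≠ k) :
    ∀ j, 1 ≤ j → j ≤ k → n ≤ T^[j] n := by
  obtain ⟨⟨hk1, hk2⟩, hk3⟩ := (kappa_eq_iff n k).1 hk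
  have hlt : ∀ j, 1 ≤ j → j < k → n ≤ T^[j] n := by
    intro j hj hjk
    have h1 := le_two_pow_mul_iter n j
    have h2 := hk3 j hj hjk
    have h3 : 2 ^ j * n ≤ 2 ^ j * T^[j] n := le_trans (Nat.mul_le_mul_right n h2) h1
    exact Nat.le_of_mul_le_mul_left h3 (by positivity)
  intro j hj hjk
  rcases Nat.lt_or_ge j k with h | h
  · exact hlt j hj h
  · have hjk' : j = k := le_antisymm hjk h
    subst hjk'
    by_contra hc
    exact hs ((sigma_eq_iff n j).2 ⟨⟨hk1, not_le.1 hc⟩, hlt⟩)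

/-- The main inequality for a given exponent. -/
theorem main_ineq {c : ℝ} (hc : c < cexp) (h0 : 0 < cexp) :
    ∃ C : ℝ, 0 < C ∧ ∀ n k : ℕ, 2 ≤ n → kappa n = k → sigma n ≠ k →
      k * Real.log 2 - odds n k * Real.log 3 ≤ C * (n : ℝ) ^ (-c) := by
  obtain ⟨c', hc'⟩ : ∃ c', max c 0 < c' ∧ c' < cexp := exists_between (max_lt hc h0)
  obtain ⟨C, hC, hkey⟩ := sum_inv_le (lt_of_le_of_lt (le_max_right c 0) hc'.1) hc'.2
  refine ⟨C / 3, by positivity, fun n k hn hk hs => ?_⟩
  have hge := counterexample_ge hk hs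
  obtain ⟨⟨hk1, hk2⟩, hk3⟩ := (kappa_eq_iff n k).1 hk
  obtain ⟨s, hsk, hinj, hse, hs2⟩ := exists_piece hk1 hk3 hge
  have hn1 : 1 ≤ n := by omega
  have hS := hkey n s k n hn1 hn1 hinj (fun i hi => by
    rw [Finset.mem_Ico] at hi
    rcases Nat.eq_zero_or_pos i with h | h
    · rw [h]; rfl
    · exact hge i h hi.2.le)
  set S := ∑ i ∈ Finset.Ico s k, 1 / (T^[i] n : ℝ) with hSdef
  have hprod := prod_ineq hn1 s (k - s)
  have hsk' : s + (k - s) = k := by omega
  rw [hsk', ← hSdef] at hprod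
  have hxk : (0 : ℝ) < (T^[k] n : ℝ) := by exact_mod_cast iter_pos hn1 k
  have h1 : (2 : ℝ) ^ (k - s) ≤ 3 ^ odds (T^[s] n) (k - s) * Real.exp (S / 3) := by
    have h2 : (2 : ℝ) ^ (k - s) * (T^[k] n : ℝ) ≤
        3 ^ odds (T^[s] n) (k - s) * Real.exp (S / 3) * (T^[k] n : ℝ) := by
      refine le_trans hprod ?_
      have h3 : (T^[s] n : ℝ) ≤ (T^[k] n : ℝ) := by exact_mod_cast hse
      calc 3 ^ odds (T^[s] n) (k - s) * (T^[s] n : ℝ) * Real.exp (S / 3)
          = 3 ^ odds (T^[s] n) (k - s) * Real.exp (S / 3) * (T^[s] n : ℝ) := by ring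
        _ ≤ 3 ^ odds (T^[s] n) (k - s) * Real.exp (S / 3) * (T^[k] n : ℝ) :=
            mul_le_mul_of_nonneg_left h3 (by positivity)
    exact le_of_mul_le_mul_right h2 hxk
  have h2 : (2 : ℝ) ^ k ≤ 3 ^ odds n k * Real.exp (S / 3) := by
    have h3 : (2 : ℝ) ^ s ≤ 3 ^ odds n s := by exact_mod_cast hs2
    have h4 : odds n k = odds n s + odds (T^[s] n) (k - s) := by
      rw [← odds_add, hsk']
    calc (2 : ℝ) ^ k = 2 ^ s * 2 ^ (k - s) := by rw [← pow_add, hsk']
      _ ≤ 3 ^ odds n s * (3 ^ odds (T^[s] n) (k - s) * Real.exp (S / 3)) :=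
          mul_le_mul h3 h1 (by positivity) (by positivity)
      _ = 3 ^ odds n k * Real.exp (S / 3) := by rw [h4, pow_add]; ring
  have h3 := Real.log_le_log (by positivity) h2
  rw [Real.log_mul (by positivity) (Real.exp_pos _).ne', Real.log_pow, Real.log_pow,
    Real.log_exp] at h3
  have hn0 : (1 : ℝ) ≤ n := by exact_mod_cast hn1
  have h4 : (n : ℝ) ^ (-c') ≤ (n : ℝ) ^ (-c) :=
    Real.rpow_le_rpow_of_exponent_le hn0 (by linarith [le_max_left c 0, hc'.1])
  have h5 : S / 3 ≤ C / 3 * (n : ℝ) ^ (-c) := by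
    have h6 : C * (n : ℝ) ^ (-c') ≤ C * (n : ℝ) ^ (-c) := mul_le_mul_of_nonneg_left h4 hC.le
    linarith
  linarith

end Pool.Agent.Work.MP_a11cf9_nt
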