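import Pool.Agent.Work.MP_a11cf9_nt.Density

/-!
# The coefficient before the stopping time
-/

set_option autoImplicit false

namespace Pool.Agent.Work.MP_a11cf9_nt

open Real

theorem ge_of_lt_sigma {n j : ℕ} (h : (j : ℕ∞) < sigma n) (hj : 1 ≤ j) : n ≤ T^[j] n := by
  by_contra hc
  have h1 : sigma n ≤ j := sInf_le ⟨j, ⟨hj, not_le.1 hc⟩, rfl⟩
  exact absurd h (not_lt.2 h1)

theorem exists_lt_of_sigma_ne_top {n : ℕ} (h : sigma n ≠ ⊤) : ∃ s : ℕ, sigma n = s ∧ T^[s] n < n := by
  obtain ⟨s, hs⟩ := ENat.ne_top_iff_exists.1 h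
  exact ⟨s, hs.symm, ((sigma_eq_iff n s).1 hs.symm).1.2⟩

/-- If the stopping time is finite, the iterates before it are distinct. -/
theorem injOn_of_sigma {n s : ℕ} (hs : sigma n = s) {j : ℕ} (hj : j < s) :
    Set.InjOn (fun i => T^[i] n) (Finset.Ico 0 j : Set ℕ) := by
  have hs' := (sigma_eq_iff n s).1 hs
  have hge : ∀ i, i < s → n ≤ T^[i] n := by
    intro i hi
    rcases Nat.eq_zero_or_pos i with h | h
    · rw [h]; rfl
    · exact hs'.2 i h hi
  have aux : ∀ u v, u < v → v < j → T^[u] n = T^[v] n → False := by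
    intro u v huv hv he
    have hper : ∀ l, T^[u + l] n = T^[v + l] n := by
      intro l
      rw [add_comm u l, add_comm v l, Function.iterate_add_apply, Function.iterate_add_apply, he]
    -- every iterate is at least `n`
    have hall : ∀ i, n ≤ T^[i] n := by
      intro i
      induction i using Nat.strong_induction_on with
      | _ i ih =>
        rcases Nat.lt_or_ge i s with h | h
        · exact hge i h
        · have h1 := hper (i - v)
          have h2 : v + (i - v) = i := by omega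
          rw [h2] at h1
          rw [← h1]
          exact ih _ (by omega)
    exact absurd hs'.1.2 (not_lt.2 (hall s))
  intro u hu v hv huv
  simp only [Finset.coe_Ico, Set.mem_Ico] at hu hv
  rcases lt_trichotomy u v with h | h | h
  · exact (aux u v h hv.2 huv).elim
  · exact h
  · exact (aux v u h hu.2 huv.symm).elim

/-- The coefficient is almost at least `1` before the stopping time. -/
theorem near_ineq {c : ℝ} (hc : c < cexp) (h0 : 0 < cexp) :
    ∃ C : ℝ, 0 < C ∧ ∀ n j : ℕ, 2 ≤ n → 1 ≤ j → (j : ℕ∞) < sigma n →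
      (sigma n ≠ ⊤ ∨ (j : ℕ∞) ≤ kappa n) →
      j * Real.log 2 - odds n j * Real.log 3 ≤ C * (n : ℝ) ^ (-c) := by
  obtain ⟨C1, hC1, hmain⟩ := main_ineq hc h0
  obtain ⟨c', hc'⟩ : ∃ c', max c 0 < c' ∧ c' < cexp := exists_between (max_lt hc h0)
  obtain ⟨C2, hC2, hkey⟩ := sum_inv_le (lt_of_le_of_lt (le_max_right c 0) hc'.1) hc'.2
  refine ⟨C1 + C2 / 3, by positivity, fun n j hn hj hjs hor => ?_⟩
  have hn1 : 1 ≤ n := by omega
  have hn0 : (1 : ℝ) ≤ n := by exact_mod_cast hn1
  have hpow : 0 < (n : ℝ) ^ (-c) := Real.rpow_pos_of_pos (by linarith) _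
  rcases hor with hor | hor
  · -- finite stopping time
    obtain ⟨s, hs, -⟩ := exists_lt_of_sigma_ne_top hor
    rw [hs] at hjs
    have hjs' : j < s := by exact_mod_cast hjs
    have hinj := injOn_of_sigma hs hjs'
    have hge : ∀ i, 1 ≤ i → i ≤ j → n ≤ T^[i] n := fun i hi hij =>
      ((sigma_eq_iff n s).1 hs).2 i hi (lt_of_le_of_lt hij hjs')
    have hS := hkey n 0 j n hn1 hn1 hinj (fun i hi => by
      rw [Finset.mem_Ico] at hi
      rcases Nat.eq_zero_or_pos i with h | h
      · rw [h]; rfl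
      · exact hge i h hi.2.le)
    set S := ∑ i ∈ Finset.Ico 0 j, 1 / (T^[i] n : ℝ) with hSdef
    have hprod := prod_ineq hn1 0 j
    rw [zero_add, ← hSdef, Function.iterate_zero_apply] at hprod
    have hTj : (n : ℝ) ≤ (T^[j] n : ℝ) := by exact_mod_cast hge j hj le_rfl
    have h1 : (2 : ℝ) ^ j ≤ 3 ^ odds n j * Real.exp (S / 3) := by
      have h2 : (2 : ℝ) ^ j * n ≤ (3 ^ odds n j * Real.exp (S / 3)) * n := by
        calc (2 : ℝ) ^ j * n ≤ 2 ^ j * (T^[j] n : ℝ) :=
              mul_le_mul_of_nonneg_left hTj (by positivity)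
          _ ≤ 3 ^ odds n j * (n : ℝ) * Real.exp (S / 3) := hprod
          _ = (3 ^ odds n j * Real.exp (S / 3)) * n := by ring
      exact le_of_mul_le_mul_right h2 (by linarith)
    have h3 := Real.log_le_log (by positivity) h1
    rw [Real.log_mul (by positivity) (Real.exp_pos _).ne', Real.log_pow, Real.log_pow,
      Real.log_exp] at h3
    have h4 : (n : ℝ) ^ (-c') ≤ (n : ℝ) ^ (-c) :=
      Real.rpow_le_rpow_of_exponent_le hn0 (by linarith [le_max_left c 0, hc'.1])
    have h6 : C2 * (n : ℝ) ^ (-c') ≤ C2 * (n : ℝ) ^ (-c) := mul_le_mul_of_nonneg_left h4 hC2.le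
    nlinarith [mul_pos hC1 hpow]
  · -- `j ≤ κ(n)`
    by_cases hlt : (j : ℕ∞) < kappa n
    · have h1 : 2 ^ j ≤ 3 ^ odds n j := by
        by_contra hcon
        have h2 : kappa n ≤ j := sInf_le ⟨j, ⟨hj, not_le.1 hcon⟩, rfl⟩
        exact absurd hlt (not_lt.2 h2)
      have h2 : (2 : ℝ) ^ j ≤ 3 ^ odds n j := by exact_mod_cast h1
      have h3 := Real.log_le_log (by positivity) h2
      rw [Real.log_pow, Real.log_pow] at h3
      have h4 : 0 ≤ (C1 + C2 / 3) * (n : ℝ) ^ (-c) := by positivity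
      linarith
    · have hk : kappa n = j := le_antisymm (not_lt.1 hlt) hor
      have hs : sigma n ≠ j := hjs.ne'
      have h1 := hmain n j hn hk hs
      nlinarith [mul_pos hC2 hpow]

end Pool.Agent.Work.MP_a11cf9_nt
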