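import Mathlib

/-!
# Approximations to `log (4/3)` and `log (9/8)`

`p0 = (X - 6)^6 (X - 8)^4 (9 - X)^3`. The integrals of `p0(x)^n / x^(6 n + 1)` over `[6, 8]` and
`[8, 9]` are small linear forms in `1`, `log (4/3)` and in `1`, `log (9/8)`.
-/

set_option autoImplicit false

namespace Pool.Agent.Work.MP_a11cf9_nt.Pade

open Polynomial

/-- The basic polynomial. -/
noncomputable def p0 : ℤ[X] := (X - 6) ^ 6 * (X - 8) ^ 4 * (9 - X) ^ 3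
/-- The rescaled polynomials. -/
noncomputable def g6 : ℤ[X] := 432 * ((X - 1) ^ 6 * (3 * X - 4) ^ 4 * (3 - 2 * X) ^ 3)
/-- The rescaled polynomials. -/
noncomputable def g8 : ℤ[X] := (4 * X - 3) ^ 6 * (X - 1) ^ 4 * (9 - 8 * X) ^ 3
/-- The rescaled polynomials. -/
noncomputable def g9 : ℤ[X] := (3 * X - 2) ^ 6 * (9 * X - 8) ^ 4 * (1 - X) ^ 3

theorem comp6 : p0.comp (C 6 * X) = C (6 ^ 6) * g6 := by
  have h6 : (C 6 : ℤ[X]) = 6 := map_ofNat C 6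
  rw [map_pow, h6]
  simp only [p0, g6, mul_comp, pow_comp, sub_comp, X_comp, ofNat_comp]
  ring

theorem comp8 : p0.comp (C 8 * X) = C (8 ^ 6) * g8 := by
  have h6 : (C 8 : ℤ[X]) = 8 := map_ofNat C 8
  rw [map_pow, h6]
  simp only [p0, g8, mul_comp, pow_comp, sub_comp, X_comp, ofNat_comp]
  ring

theorem comp9 : p0.comp (C 9 * X) = C (9 ^ 6) * g9 := by
  have h6 : (C 9 : ℤ[X]) = 9 := map_ofNat C 9
  rw [map_pow, h6]
  simp only [p0, g9, mul_comp, pow_comp, sub_comp, X_comp, ofNat_comp]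
  ring

theorem natDegree_p0 : p0.natDegree ≤ 13 := by
  unfold p0
  compute_degree

theorem natDegree_pow (n : ℕ) : (p0 ^ n).natDegree ≤ 13 * n := by
  rw [mul_comm]
  exact natDegree_pow_le_of_le n natDegree_p0

theorem coeff_rel {v : ℤ} {g : ℤ[X]} (h : p0.comp (C v * X) = C (v ^ 6) * g) (n i : ℕ) :
    (p0 ^ n).coeff i * v ^ i = v ^ (6 * n) * (g ^ n).coeff i := by
  rw [← comp_C_mul_X_coeff, pow_comp, h, mul_pow, ← map_pow, coeff_C_mul, ← pow_mul]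

theorem aeval_pow (n : ℕ) (x : ℝ) :
    ∑ i ∈ Finset.range (13 * n + 1), ((p0 ^ n).coeff i : ℝ) * x ^ i =
      ((x - 6) ^ 6 * (x - 8) ^ 4 * (9 - x) ^ 3) ^ n := by
  have h1 := aeval_eq_sum_range' (R := ℤ) (S := ℝ) (Nat.lt_succ_of_le (natDegree_pow n)) x
  have h2 : aeval x (p0 ^ n) = ((x - 6) ^ 6 * (x - 8) ^ 4 * (9 - x) ^ 3) ^ n := by
    have h6 : aeval x (6 : ℤ[X]) = 6 := map_ofNat _ 6
    have h8 : aeval x (8 : ℤ[X]) = 8 := map_ofNat _ 8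
    have h9 : aeval x (9 : ℤ[X]) = 9 := map_ofNat _ 9
    simp only [p0, map_pow, map_mul, map_sub, aeval_X, h6, h8, h9]
  rw [← h2, h1]
  refine Finset.sum_congr rfl (fun i _ => ?_)
  rw [zsmul_eq_mul]

/-- The antiderivative of `p0(x)^n / x^(6 n + 1)`. -/
noncomputable def F (n : ℕ) (x : ℝ) : ℝ :=
  ((p0 ^ n).coeff (6 * n) : ℝ) * Real.log x +
    ∑ i ∈ (Finset.range (13 * n + 1)).erase (6 * n),
      ((p0 ^ n).coeff i : ℝ) * (x ^ ((i : ℤ) - ((6 * n : ℕ) : ℤ)) /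
        (((i : ℤ) - ((6 * n : ℕ) : ℤ) : ℤ) : ℝ))

theorem hasDerivAt_F (n : ℕ) {x : ℝ} (hx : 0 < x) :
    HasDerivAt (F n) (((x - 6) ^ 6 * (x - 8) ^ 4 * (9 - x) ^ 3 / x ^ 6) ^ n / x) x := by
  have h1 : HasDerivAt (fun y => ((p0 ^ n).coeff (6 * n) : ℝ) * Real.log y)
      (((p0 ^ n).coeff (6 * n) : ℝ) * x⁻¹) x := (Real.hasDerivAt_log hx.ne').const_mul _
  have h2 : HasDerivAt (fun y => ∑ i ∈ (Finset.range (13 * n + 1)).erase (6 * n),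
      ((p0 ^ n).coeff i : ℝ) * (y ^ ((i : ℤ) - ((6 * n : ℕ) : ℤ)) /
        (((i : ℤ) - ((6 * n : ℕ) : ℤ) : ℤ) : ℝ)))
      (∑ i ∈ (Finset.range (13 * n + 1)).erase (6 * n),
        ((p0 ^ n).coeff i : ℝ) * x ^ ((i : ℤ) - ((6 * n : ℕ) : ℤ) - 1)) x := by
    refine HasDerivAt.fun_sum (fun i hi => ?_)
    have hne : ((i : ℤ) - ((6 * n : ℕ) : ℤ)) ≠ 0 := by
      have := (Finset.mem_erase.1 hi).1
      omega
    have hne' : (((i : ℤ) - ((6 * n : ℕ) : ℤ) : ℤ) : ℝ) ≠ 0 := by exact_mod_cast hne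
    have h3 := (hasDerivAt_zpow ((i : ℤ) - ((6 * n : ℕ) : ℤ)) x (Or.inl hx.ne')).div_const
      (((i : ℤ) - ((6 * n : ℕ) : ℤ) : ℤ) : ℝ)
    rw [mul_div_cancel_left₀ _ hne'] at h3
    exact h3.const_mul _
  have h3 := h1.add h2
  have h4 : ((p0 ^ n).coeff (6 * n) : ℝ) * x⁻¹ +
      ∑ i ∈ (Finset.range (13 * n + 1)).erase (6 * n),
        ((p0 ^ n).coeff i : ℝ) * x ^ ((i : ℤ) - ((6 * n : ℕ) : ℤ) - 1) =
      ((x - 6) ^ 6 * (x - 8) ^ 4 * (9 - x) ^ 3 / x ^ 6) ^ n / x := by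
    have hmem : 6 * n ∈ Finset.range (13 * n + 1) := Finset.mem_range.2 (by omega)
    have h5 : ((p0 ^ n).coeff (6 * n) : ℝ) * x⁻¹ =
        ((p0 ^ n).coeff (6 * n) : ℝ) * x ^ (((6 * n : ℕ) : ℤ) - ((6 * n : ℕ) : ℤ) - 1) := by
      rw [sub_self, zero_sub, zpow_neg_one]
    rw [h5, Finset.add_sum_erase (Finset.range (13 * n + 1))
      (fun i => ((p0 ^ n).coeff i : ℝ) * x ^ ((i : ℤ) - ((6 * n : ℕ) : ℤ) - 1)) hmem]
    have h6 : ∀ i ∈ Finset.range (13 * n + 1),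
        ((p0 ^ n).coeff i : ℝ) * x ^ ((i : ℤ) - ((6 * n : ℕ) : ℤ) - 1) =
        ((p0 ^ n).coeff i : ℝ) * x ^ i * (x ^ (6 * n) * x)⁻¹ := by
      intro i _
      rw [zpow_sub₀ hx.ne', zpow_sub₀ hx.ne', zpow_natCast, zpow_natCast, zpow_one]
      field_simp
    rw [Finset.sum_congr rfl h6, ← Finset.sum_mul, aeval_pow, div_pow, ← pow_mul]
    field_simp
  rw [h4] at h3
  exact h3

theorem F_eq {v : ℤ} (hv : 0 < v) {g : ℤ[X]} (h : p0.comp (C v * X) = C (v ^ 6) * g) (n : ℕ) :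
    F n v = ((p0 ^ n).coeff (6 * n) : ℝ) * Real.log v +
      ∑ i ∈ (Finset.range (13 * n + 1)).erase (6 * n),
        ((g ^ n).coeff i : ℝ) / (((i : ℤ) - ((6 * n : ℕ) : ℤ) : ℤ) : ℝ) := by
  unfold F
  congr 1
  refine Finset.sum_congr rfl (fun i _ => ?_)
  have hv0 : (v : ℝ) ≠ 0 := by exact_mod_cast hv.ne'
  have h1 : ((p0 ^ n).coeff i : ℝ) * (v : ℝ) ^ i = (v : ℝ) ^ (6 * n) * ((g ^ n).coeff i : ℝ) := by
    exact_mod_cast coeff_rel h n i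
  have h2 : ((p0 ^ n).coeff i : ℝ) * (v : ℝ) ^ ((i : ℤ) - ((6 * n : ℕ) : ℤ)) =
      ((g ^ n).coeff i : ℝ) := by
    rw [zpow_sub₀ hv0, zpow_natCast, zpow_natCast, ← mul_div_assoc, h1,
      mul_div_cancel_left₀ _ (pow_ne_zero _ hv0)]
  rw [← mul_div_assoc, h2]

theorem exists_int (n : ℕ) (g : ℕ → ℤ) : ∃ Z : ℤ, (Nat.lcmUpto (7 * n) : ℝ) *
    ∑ i ∈ (Finset.range (13 * n + 1)).erase (6 * n),
      (g i : ℝ) / (((i : ℤ) - ((6 * n : ℕ) : ℤ) : ℤ) : ℝ) = Z := by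
  have h1 : ∀ i ∈ (Finset.range (13 * n + 1)).erase (6 * n), ∃ z : ℤ,
      (Nat.lcmUpto (7 * n) : ℝ) *
        ((g i : ℝ) / (((i : ℤ) - ((6 * n : ℕ) : ℤ) : ℤ) : ℝ)) = z := by
    intro i hi
    rw [Finset.mem_erase, Finset.mem_range] at hi
    have hne : ((i : ℤ) - ((6 * n : ℕ) : ℤ)) ≠ 0 := by omega
    have hdvd : ((i : ℤ) - ((6 * n : ℕ) : ℤ)) ∣ (Nat.lcmUpto (7 * n) : ℤ) := by
      rw [← Int.natAbs_dvd_natAbs, Int.natAbs_natCast]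
      have hmem : ((i : ℤ) - ((6 * n : ℕ) : ℤ)).natAbs ∈ Finset.Icc 1 (7 * n) := by
        rw [Finset.mem_Icc]
        omega
      exact Finset.dvd_lcm (f := id) hmem
    obtain ⟨w, hw⟩ := hdvd
    refine ⟨w * g i, ?_⟩
    have hne' : (((i : ℤ) - ((6 * n : ℕ) : ℤ) : ℤ) : ℝ) ≠ 0 := by exact_mod_cast hne
    have hw' : (Nat.lcmUpto (7 * n) : ℝ) =
        (((i : ℤ) - ((6 * n : ℕ) : ℤ) : ℤ) : ℝ) * (w : ℝ) := by exact_mod_cast hw
    rw [hw']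
    push_cast
    push_cast at hne'
    field_simp
  choose! z hz using h1
  refine ⟨∑ i ∈ (Finset.range (13 * n + 1)).erase (6 * n), z i, ?_⟩
  rw [Finset.mul_sum, Int.cast_sum]
  exact Finset.sum_congr rfl hz

/-! ### The size of the leading coefficient -/

/-- The polynomial with natural coefficients. -/
noncomputable def q0 : ℕ[X] := (X + 6) ^ 6 * (X + 8) ^ 4 * (X + 9) ^ 3

theorem comp_neg : p0.comp (C (-1) * X) = q0.map (Nat.castRingHom ℤ) := by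
  have h : (C (-1) : ℤ[X]) = -1 := by simp
  rw [h]
  simp only [p0, q0, mul_comp, pow_comp, sub_comp, X_comp, ofNat_comp, Polynomial.map_mul,
    Polynomial.map_pow, Polynomial.map_add, Polynomial.map_X, Polynomial.map_ofNat]
  ring

theorem abs_coeff_le (n : ℕ) : |((p0 ^ n).coeff (6 * n) : ℝ)| ≤ 10 ^ (10 * n) := by
  have h1 : (p0 ^ n).coeff (6 * n) * (-1) ^ (6 * n) = ((q0 ^ n).coeff (6 * n) : ℤ) := by
    rw [← comp_C_mul_X_coeff, pow_comp, comp_neg, ← Polynomial.map_pow, coeff_map]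
    simp
  have heven : ((-1 : ℤ)) ^ (6 * n) = 1 := by
    rw [pow_mul]
    norm_num
  rw [heven, mul_one] at h1
  have h2 : ((p0 ^ n).coeff (6 * n) : ℝ) = ((q0 ^ n).coeff (6 * n) : ℝ) := by exact_mod_cast h1
  rw [h2, abs_of_nonneg (Nat.cast_nonneg _)]
  have h3 : (q0 ^ n).coeff (6 * n) * 8 ^ (6 * n) ≤ (q0 ^ n).eval 8 := by
    rw [eval_eq_sum_range]
    by_cases hm : 6 * n ∈ Finset.range ((q0 ^ n).natDegree + 1)
    · exact Finset.single_le_sum (f := fun i => (q0 ^ n).coeff i * 8 ^ i)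
        (fun i _ => Nat.zero_le _) hm
    · have : (q0 ^ n).coeff (6 * n) = 0 := by
        apply coeff_eq_zero_of_natDegree_lt
        rw [Finset.mem_range] at hm
        omega
      rw [this, zero_mul]
      exact Nat.zero_le _
  have h4 : (q0 ^ n).eval 8 = (14 ^ 6 * 16 ^ 4 * 17 ^ 3) ^ n := by
    simp [q0]
  have h5 : (14 ^ 6 * 16 ^ 4 * 17 ^ 3) ^ n ≤ (10 ^ 10 * 8 ^ 6) ^ n :=
    Nat.pow_le_pow_left (by norm_num) n
  rw [h4] at h3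
  have h6 : (q0 ^ n).coeff (6 * n) * 8 ^ (6 * n) ≤ 10 ^ (10 * n) * 8 ^ (6 * n) := by
    calc (q0 ^ n).coeff (6 * n) * 8 ^ (6 * n) ≤ (10 ^ 10 * 8 ^ 6) ^ n := le_trans h3 h5
      _ = 10 ^ (10 * n) * 8 ^ (6 * n) := by rw [mul_pow, ← pow_mul, ← pow_mul]
  have h7 := Nat.le_of_mul_le_mul_right h6 (by positivity)
  exact_mod_cast h7

end Pool.Agent.Work.MP_a11cf9_nt.Pade
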