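import Pool.Agent.Work.MP_a11cf9_nt.Density

/-!
# The values of the coefficient stopping time
-/

set_option autoImplicit false

namespace Pool.Agent.Work.MP_a11cf9_nt

/-- Every `k ≥ 1` such that there is a power of three in `[2 ^ (k - 1), 2 ^ k)` is the coefficient
stopping time of some `n ≥ 2`. -/
theorem exists_kappa {a k : ℕ} (h1 : 3 ^ a < 2 ^ (k + 1)) (h2 : 2 ^ k ≤ 3 ^ a) :
    ∃ n : ℕ, 2 ≤ n ∧ kappa n = (k + 1 : ℕ) := by
  have hak : a ≤ k + 1 := by
    by_contra hc
    rw [not_le] at hc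
    have h3 : 2 ^ (k + 1) ≤ 3 ^ a :=
      le_trans (Nat.pow_le_pow_right (by norm_num) hc.le) (Nat.pow_le_pow_left (by norm_num) a)
    exact absurd h1 (not_lt.2 h3)
  obtain ⟨b, hb⟩ := Nat.exists_eq_add_of_le hak
  -- the multiplier `h`
  obtain ⟨u, hu⟩ : ∃ u : ℕ, 3 ^ a * u ≡ 1 [MOD 2 ^ b] := by
    have hcop : Nat.Coprime (3 ^ a) (2 ^ b) :=
      Nat.Coprime.pow_left a (Nat.Coprime.pow_right b (by norm_num))
    rcases Nat.eq_zero_or_pos b with h0 | h0
    · refine ⟨0, ?_⟩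
      rw [h0, pow_zero]
      exact Nat.modEq_one
    · obtain ⟨u, hu⟩ := Nat.exists_mul_mod_eq_one_of_coprime hcop (by
        exact Nat.one_lt_pow (by omega) (by norm_num))
      refine ⟨u, ?_⟩
      rw [Nat.ModEq, hu.2, Nat.mod_eq_of_lt (Nat.one_lt_pow (by omega) (by norm_num))]
  set h : ℕ := u + 2 ^ b * 3 with hh
  have hh3 : 3 ≤ h := by
    have : 1 ≤ 2 ^ b := Nat.one_le_pow _ _ (by norm_num)
    omega
  have hmod : 3 ^ a * h ≡ 1 [MOD 2 ^ b] := by
    have h3 : 3 ^ a * h = 3 ^ a * u + 2 ^ b * (3 ^ a * 3) := by rw [hh]; ring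
    rw [h3]
    exact (Nat.add_modulus_mul_modEq_iff).2 hu
  obtain ⟨w, hw⟩ : ∃ w, 3 ^ a * h = 2 ^ b * w + 1 := by
    have h3 : 2 ^ b ∣ 3 ^ a * h - 1 :=
      (Nat.modEq_iff_dvd' (by
        have : 1 ≤ 3 ^ a := Nat.one_le_pow _ _ (by norm_num)
        nlinarith)).1 hmod.symm
    obtain ⟨w, hw⟩ := h3
    refine ⟨w, ?_⟩
    have : 1 ≤ 3 ^ a * h := by
      have : 1 ≤ 3 ^ a := Nat.one_le_pow _ _ (by norm_num)
      nlinarith
    omega
  have hn : ∃ n, n + 1 = 2 ^ a * h := by
    have : 1 ≤ 2 ^ a * h := by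
      have : 1 ≤ 2 ^ a := Nat.one_le_pow _ _ (by norm_num)
      nlinarith
    exact ⟨2 ^ a * h - 1, by omega⟩
  obtain ⟨n, hn⟩ := hn
  have hn2 : 2 ≤ n := by
    have : 1 ≤ 2 ^ a := Nat.one_le_pow _ _ (by norm_num)
    nlinarith
  -- the first `a` iterates
  have hup : ∀ i c, i + c = a → T^[i] n + 1 = 3 ^ i * (2 ^ c * h) ∧ odds n i = i := by
    intro i
    induction i with
    | zero =>
      intro c hc
      rw [zero_add] at hc
      subst hc
      exact ⟨by rw [pow_zero, one_mul]; exact hn, odds_zero n⟩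
    | succ i ih =>
      intro c hc
      obtain ⟨h3, h4⟩ := ih (c + 1) (by omega)
      have h5 : 3 ^ i * (2 ^ (c + 1) * h) = 2 * (3 ^ i * (2 ^ c * h)) := by
        rw [pow_succ 2]
        ring
      rw [h5] at h3
      have hodd : T^[i] n % 2 = 1 := by omega
      refine ⟨?_, ?_⟩
      · rw [Function.iterate_succ_apply', T_odd hodd]
        have h6 : 3 ^ (i + 1) * (2 ^ c * h) = 3 * (3 ^ i * (2 ^ c * h)) := by
          rw [pow_succ 3]
          ring
        rw [h6]
        omega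
      · rw [odds_succ, hodd, h4]
  -- the last `b` iterates
  have hdown : ∀ j c, j + c = b → T^[a + j] n = 2 ^ c * w ∧ odds n (a + j) = a := by
    intro j
    induction j with
    | zero =>
      intro c hc
      rw [zero_add] at hc
      subst hc
      obtain ⟨h3, h4⟩ := hup a 0 (by omega)
      rw [pow_zero, one_mul, hw] at h3
      exact ⟨by rw [add_zero]; omega, by rw [add_zero]; exact h4⟩
    | succ j ih =>
      intro c hc
      obtain ⟨h3, h4⟩ := ih (c + 1) (by omega)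
      have h5 : 2 ^ (c + 1) * w = 2 * (2 ^ c * w) := by
        rw [pow_succ 2]
        ring
      rw [h5] at h3
      have heven : T^[a + j] n % 2 = 0 := by omega
      refine ⟨?_, ?_⟩
      · rw [← add_assoc, Function.iterate_succ_apply', T_even heven]
        omega
      · rw [← add_assoc, odds_succ, heven, h4, add_zero]
  refine ⟨n, hn2, (kappa_eq_iff n (k + 1)).2 ⟨⟨by omega, ?_⟩, fun j hj hjk => ?_⟩⟩
  · rw [hb, (hdown b 0 (by omega)).2, ← hb]
    exact h1
  · rcases Nat.lt_or_ge j a with hja | hja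
    · rw [(hup j (a - j) (by omega)).2]
      exact Nat.pow_le_pow_left (by norm_num) j
    · obtain ⟨i, rfl⟩ := Nat.exists_eq_add_of_le hja
      rw [(hdown i (b - i) (by omega)).2]
      exact le_trans (Nat.pow_le_pow_right (by norm_num) (by omega)) h2

/-- Of two consecutive positive integers at least one is a value of the coefficient stopping
time. -/
theorem exists_value (i : ℕ) :
    ∃ k : ℕ, (k = 2 * i + 1 ∨ k = 2 * i + 2) ∧ ∃ n : ℕ, 2 ≤ n ∧ kappa n = k := by
  classical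
  have hex : ∃ a : ℕ, 2 ^ (2 * i) ≤ 3 ^ a :=
    ⟨2 * i, Nat.pow_le_pow_left (by norm_num) _⟩
  have hspec := Nat.find_spec hex
  have hmin := fun {m : ℕ} (hm : m < Nat.find hex) => Nat.find_min hex hm
  set a := Nat.find hex with ha
  have hub : 3 ^ a < 2 ^ (2 * i + 2) := by
    rcases Nat.eq_zero_or_pos a with h0 | h0
    · rw [h0, pow_zero]
      exact Nat.one_lt_pow (by omega) (by norm_num)
    · obtain ⟨a', ha'⟩ := Nat.exists_eq_add_of_lt h0
      rw [zero_add] at ha'
      have h1 := hmin (m := a') (by omega)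
      rw [not_le] at h1
      rw [ha', pow_succ]
      have h2 : 2 ^ (2 * i + 2) = 2 ^ (2 * i) * 4 := by rw [pow_add]; norm_num
      rw [h2]
      omega
  rcases Nat.lt_or_ge (3 ^ a) (2 ^ (2 * i + 1)) with h | h
  · obtain ⟨n, hn, hk⟩ := exists_kappa h hspec
    exact ⟨2 * i + 1, Or.inl rfl, n, hn, hk⟩
  · obtain ⟨n, hn, hk⟩ := exists_kappa (k := 2 * i + 1) hub h
    exact ⟨2 * i + 2, Or.inr rfl, n, hn, hk⟩

/-- At least half of the positive integers are values of the coefficient stopping time. -/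
theorem values_count (X : ℕ) :
    X / 2 ≤ {k : ℕ | k ≤ X ∧ ∃ n : ℕ, 2 ≤ n ∧ kappa n = k}.ncard := by
  choose f hf hf' using exists_value
  have hfin : {k : ℕ | k ≤ X ∧ ∃ n : ℕ, 2 ≤ n ∧ kappa n = k}.Finite :=
    (Set.finite_Iic X).subset (fun k hk => hk.1)
  have h1 : ((Finset.range (X / 2) : Finset ℕ) : Set ℕ).ncard ≤
      {k : ℕ | k ≤ X ∧ ∃ n : ℕ, 2 ≤ n ∧ kappa n = k}.ncard := by
    refine Set.ncard_le_ncard_of_injOn f (fun i hi => ?_) (fun i _ j _ h => ?_) hfin
    · rw [Finset.mem_coe, Finset.mem_range] at hi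
      refine ⟨?_, hf' i⟩
      rcases hf i with h | h <;> rw [h] <;> omega
    · have h1 := hf i
      have h2 := hf j
      omega
  rwa [Set.ncard_coe_finset, Finset.card_range] at h1

end Pool.Agent.Work.MP_a11cf9_nt
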